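import Pool.Agent.H177R2.SD.Defs

/-!
Averages of products of periodic functions with pairwise coprime periods.
-/

set_option autoImplicit false

namespace Pool.Agent.H177R2.SD

open Finset

namespace AvgAux

theorem per_mul {α : Type*} (F : ℕ → α) (Q : ℕ) (h : ∀ n, F (n + Q) = F n) (k n : ℕ) :
    F (n + Q * k) = F n := by
  induction k with
  | zero => simp
  | succ k ih => rw [Nat.mul_succ, ← Nat.add_assoc, h, ih]

theorem per_mod {α : Type*} (F : ℕ → α) (Q : ℕ) (h : ∀ n, F (n + Q) = F n) (n : ℕ) :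
    F (n % Q) = F n := by
  conv_rhs => rw [← Nat.mod_add_div n Q]
  rw [per_mul F Q h]

theorem sum_mul_coprime (F G : ℕ → ℝ) (Q1 Q2 : ℕ) (h1 : 0 < Q1) (h2 : 0 < Q2)
    (hc : Nat.Coprime Q1 Q2) (hF : ∀ n, F (n + Q1) = F n) (hG : ∀ n, G (n + Q2) = G n) :
    ∑ n ∈ range (Q1 * Q2), F n * G n = (∑ n ∈ range Q1, F n) * ∑ n ∈ range Q2, G n := by
  rw [Finset.sum_mul_sum, ← Finset.sum_product']
  apply Finset.sum_bij (fun n _ => (n % Q1, n % Q2))
  · intro n _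
    simp only [mem_product, mem_range]
    exact ⟨Nat.mod_lt _ h1, Nat.mod_lt _ h2⟩
  · intro a ha b hb hab
    simp only [Prod.mk.injEq] at hab
    have hm : a ≡ b [MOD Q1 * Q2] := (Nat.modEq_and_modEq_iff_modEq_mul hc).1 ⟨hab.1, hab.2⟩
    exact Nat.ModEq.eq_of_lt_of_lt hm (mem_range.1 ha) (mem_range.1 hb)
  · intro b hb
    simp only [mem_product, mem_range] at hb
    obtain ⟨k, hk1, hk2⟩ := Nat.chineseRemainder hc b.1 b.2
    refine ⟨k % (Q1 * Q2), mem_range.2 (Nat.mod_lt _ (Nat.mul_pos h1 h2)), ?_⟩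
    have e1 : k % (Q1 * Q2) % Q1 = b.1 := by
      rw [Nat.mod_mul_right_mod]
      have := hk1
      unfold Nat.ModEq at this
      rw [this, Nat.mod_eq_of_lt hb.1]
    have e2 : k % (Q1 * Q2) % Q2 = b.2 := by
      rw [Nat.mod_mul_left_mod]
      have := hk2
      unfold Nat.ModEq at this
      rw [this, Nat.mod_eq_of_lt hb.2]
    rw [e1, e2]
  · intro n _
    simp only
    rw [per_mod F Q1 hF, per_mod G Q2 hG]

theorem prod_period (S : Finset ℕ) (q : ℕ → ℕ) (f : ℕ → ℕ → ℝ)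
    (hper : ∀ p ∈ S, ∀ n, f p (n + q p) = f p n) (n : ℕ) :
    ∏ p ∈ S, f p (n + ∏ p ∈ S, q p) = ∏ p ∈ S, f p n := by
  apply Finset.prod_congr rfl
  intro p hp
  obtain ⟨k, hk⟩ := Finset.dvd_prod_of_mem q hp
  rw [hk]
  exact per_mul (f p) (q p) (hper p hp) k n

theorem sum_prod (S : Finset ℕ) (q : ℕ → ℕ) (hq : ∀ p ∈ S, 0 < q p)
    (hcop : (S : Set ℕ).Pairwise fun p p' => Nat.Coprime (q p) (q p'))
    (f : ℕ → ℕ → ℝ)
    (hper : ∀ p ∈ S, ∀ n, f p (n + q p) = f p n) :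
    ∑ n ∈ range (∏ p ∈ S, q p), ∏ p ∈ S, f p n = ∏ p ∈ S, ∑ n ∈ range (q p), f p n := by
  induction S using Finset.induction_on with
  | empty => simp
  | insert a s ha ih =>
    rw [Finset.prod_insert ha, Finset.prod_insert ha]
    have hq' : ∀ p ∈ s, 0 < q p := fun p hp => hq p (mem_insert_of_mem hp)
    have hper' : ∀ p ∈ s, ∀ n, f p (n + q p) = f p n := fun p hp => hper p (mem_insert_of_mem hp)
    have hcop' : (s : Set ℕ).Pairwise fun p p' => Nat.Coprime (q p) (q p') := by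
      intro x hx y hy hxy
      exact hcop (by simp [hx] : x ∈ ((insert a s : Finset ℕ) : Set ℕ))
        (by simp [hy]) hxy
    rw [← ih hq' hcop' hper']
    rw [← sum_mul_coprime (f a) (fun n => ∏ p ∈ s, f p n) (q a) (∏ p ∈ s, q p)
      (hq a (mem_insert_self _ _)) (Finset.prod_pos hq') ?_ (hper a (mem_insert_self _ _))
      (prod_period s q f hper')]
    · apply Finset.sum_congr rfl
      intro n _
      rw [Finset.prod_insert ha]
    · apply Nat.Coprime.prod_right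
      intro p hp
      exact hcop (by simp) (by simp [hp]) (fun h => ha (h ▸ hp))

theorem sum_window (F : ℕ → ℝ) (Q : ℕ) (h : ∀ n, F (n + Q) = F n) (M : ℕ) :
    ∑ n ∈ Ico M (M + Q), F n = ∑ n ∈ range Q, F n := by
  induction M with
  | zero => rw [Nat.zero_add, ← Finset.range_eq_Ico]
  | succ M ih =>
    rw [← ih]
    rcases Nat.eq_zero_or_pos Q with hQ | hQ
    · subst hQ; simp
    · rw [Finset.sum_eq_sum_Ico_succ_bot (by omega : M < M + Q)]
      rw [show M + 1 + Q = (M + Q) + 1 by ring, Finset.sum_Ico_succ_top (by omega : M + 1 ≤ M + Q),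
        h M]
      ring

theorem sum_windows (F : ℕ → ℝ) (Q : ℕ) (h : ∀ n, F (n + Q) = F n) (M k : ℕ) :
    ∑ n ∈ Ico M (M + Q * k), F n = k * ∑ n ∈ range Q, F n := by
  induction k with
  | zero => simp
  | succ k ih =>
    rw [Nat.mul_succ, ← Nat.add_assoc]
    rw [← Finset.sum_Ico_consecutive F (by omega : M ≤ M + Q * k)
      (by omega : M + Q * k ≤ M + Q * k + Q)]
    rw [ih, sum_window F Q h]
    push_cast; ring

theorem window_bound (F : ℕ → ℝ) (Q : ℕ) (hQ : 0 < Q) (h : ∀ n, F (n + Q) = F n)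
    (h01 : ∀ n, 0 ≤ F n ∧ F n ≤ 1) (M N : ℕ) :
    |∑ n ∈ Ico M (M + N), F n - N * ((∑ n ∈ range Q, F n) / Q)| ≤ Q := by
  set A := ∑ n ∈ range Q, F n with hA
  set k := N / Q
  set r := N % Q
  have hN : N = Q * k + r := (Nat.div_add_mod N Q).symm
  have hr : r < Q := Nat.mod_lt _ hQ
  have hQR : (0 : ℝ) < Q := by exact_mod_cast hQ
  have hA0 : 0 ≤ A := Finset.sum_nonneg fun n _ => (h01 n).1
  have hA1 : A ≤ Q := by
    calc A ≤ ∑ n ∈ range Q, (1 : ℝ) := Finset.sum_le_sum fun n _ => (h01 n).2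
      _ = Q := by simp
  have hs : ∑ n ∈ Ico M (M + N), F n = k * A + ∑ n ∈ Ico (M + Q * k) (M + N), F n := by
    rw [← Finset.sum_Ico_consecutive F (by omega : M ≤ M + Q * k)
      (by omega : M + Q * k ≤ M + N), sum_windows F Q h]
  set B := ∑ n ∈ Ico (M + Q * k) (M + N), F n with hB
  have hB0 : 0 ≤ B := Finset.sum_nonneg fun n _ => (h01 n).1
  have hB1 : B ≤ r := by
    calc B ≤ ∑ n ∈ Ico (M + Q * k) (M + N), (1 : ℝ) := Finset.sum_le_sum fun n _ => (h01 n).2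
      _ = r := by
        rw [Finset.sum_const, Nat.card_Ico]
        have : M + N - (M + Q * k) = r := by omega
        rw [this]; simp
  have hNR : (N : ℝ) = Q * k + r := by exact_mod_cast hN
  have hmul : (N : ℝ) * (A / Q) = k * A + r * (A / Q) := by
    rw [hNR]; field_simp
  rw [hs, hmul]
  have hq0 : 0 ≤ A / Q := by positivity
  have hq1 : A / Q ≤ 1 := by rw [div_le_one hQR]; exact hA1
  have hrR : (r : ℝ) ≤ Q := by exact_mod_cast hr.le
  have hr0 : (0 : ℝ) ≤ r := by positivity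
  rw [abs_le]
  constructor <;> nlinarith

theorem prod_01 (S : Finset ℕ) (f : ℕ → ℝ) (hf : ∀ p ∈ S, 0 ≤ f p ∧ f p ≤ 1) :
    0 ≤ ∏ p ∈ S, f p ∧ ∏ p ∈ S, f p ≤ 1 :=
  ⟨Finset.prod_nonneg fun p hp => (hf p hp).1,
    Finset.prod_le_one (fun p hp => (hf p hp).1) fun p hp => (hf p hp).2⟩

theorem mean_01 (f : ℕ → ℝ) (q : ℕ) (hf : ∀ n, 0 ≤ f n ∧ f n ≤ 1) :
    0 ≤ (∑ n ∈ range q, f n) / q ∧ (∑ n ∈ range q, f n) / q ≤ 1 := by
  have h0 : 0 ≤ ∑ n ∈ range q, f n := Finset.sum_nonneg fun n _ => (hf n).1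
  have h1 : ∑ n ∈ range q, f n ≤ q := by
    calc ∑ n ∈ range q, f n ≤ ∑ n ∈ range q, (1 : ℝ) := Finset.sum_le_sum fun n _ => (hf n).2
      _ = q := by simp
  refine ⟨by positivity, ?_⟩
  rcases Nat.eq_zero_or_pos q with hq | hq
  · subst hq; simp
  · rw [div_le_one (by exact_mod_cast hq)]; exact h1

end AvgAux

open AvgAux

theorem avg1 (S : Finset ℕ) (q : ℕ → ℕ) (hq : ∀ p ∈ S, 0 < q p)
    (hcop : (S : Set ℕ).Pairwise fun p p' => Nat.Coprime (q p) (q p'))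
    (f : ℕ → ℕ → ℝ) (hf : ∀ p ∈ S, ∀ n, 0 ≤ f p n ∧ f p n ≤ 1)
    (hper : ∀ p ∈ S, ∀ n, f p (n + q p) = f p n) (M N : ℕ) :
    |∑ n ∈ Ico M (M + N), ∏ p ∈ S, f p n - N * ∏ p ∈ S, ((∑ n ∈ range (q p), f p n) / q p)|
      ≤ ∏ p ∈ S, (q p : ℝ) := by
  have h := window_bound (fun n => ∏ p ∈ S, f p n) (∏ p ∈ S, q p) (Finset.prod_pos hq)
    (prod_period S q f hper) (fun n => prod_01 S (fun p => f p n) fun p hp => hf p hp n) M N
  rw [sum_prod S q hq hcop f hper] at h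
  push_cast at h
  rw [Finset.prod_div_distrib]
  exact h

theorem avg3 (S : Finset ℕ) (q : ℕ → ℕ) (hq : ∀ p ∈ S, 0 < q p)
    (hcop : (S : Set ℕ).Pairwise fun p p' => Nat.Coprime (q p) (q p'))
    (h : ℕ → ℕ → ℕ → ℕ → ℝ) (h01 : ∀ p ∈ S, ∀ d a b, 0 ≤ h p d a b ∧ h p d a b ≤ 1)
    (hd : ∀ p ∈ S, ∀ d a b, h p (d + q p) a b = h p d a b)
    (ha : ∀ p ∈ S, ∀ d a b, h p d (a + q p) b = h p d a b)
    (hb : ∀ p ∈ S, ∀ d a b, h p d a (b + q p) = h p d a b)
    (hlin : ∀ p ∈ S, ∀ d a b, ∑ t ∈ range (q p), h p d a (b + d * t) = ∑ b ∈ range (q p), h p d a b)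
    (b0 : ℕ → ℕ → ℕ) (M D A T : ℕ) :
    |∑ x ∈ (Ico M (M + D)) ×ˢ (range A) ×ˢ (range T), ∏ p ∈ S, h p x.1 x.2.1 (b0 x.1 x.2.1 + x.1 * x.2.2)
      - (D * A * T) * ∏ p ∈ S, ((∑ d ∈ range (q p), ∑ a ∈ range (q p), ∑ b ∈ range (q p), h p d a b)
          / (q p : ℝ) ^ 3)|
      ≤ (∏ p ∈ S, (q p : ℝ)) * (D * A + D * T + A * T) := by
  set Q : ℝ := ∏ p ∈ S, (q p : ℝ) with hQdef
  have hQ0 : 0 ≤ Q := Finset.prod_nonneg fun p _ => by positivity
  -- step 1
  set m1 : ℕ → ℕ → ℕ → ℝ := fun p d a => (∑ b ∈ range (q p), h p d a b) / q p with hm1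
  have s1 : ∀ d a, |∑ t ∈ range T, ∏ p ∈ S, h p d a (b0 d a + d * t) - T * ∏ p ∈ S, m1 p d a| ≤ Q := by
    intro d a
    have := avg1 S q hq hcop (fun p t => h p d a (b0 d a + d * t)) (fun p hp n => h01 p hp _ _ _)
      (by
        intro p hp n
        have e : b0 d a + d * (n + q p) = (b0 d a + d * n) + q p * d := by ring
        rw [e]
        exact per_mul (fun b => h p d a b) (q p) (fun n => hb p hp d a n) d _) 0 T
    rw [Finset.range_eq_Ico]
    rw [Nat.zero_add] at this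
    have e2 : ∏ p ∈ S, ((∑ n ∈ range (q p), h p d a (b0 d a + d * n)) / (q p : ℝ))
        = ∏ p ∈ S, m1 p d a := by
      apply Finset.prod_congr rfl
      intro p hp
      rw [hlin p hp]
    rw [e2] at this
    exact this
  have m1_01 : ∀ p ∈ S, ∀ d a, 0 ≤ m1 p d a ∧ m1 p d a ≤ 1 := fun p hp d a =>
    mean_01 (fun b => h p d a b) (q p) fun b => h01 p hp d a b
  set m2 : ℕ → ℕ → ℝ := fun p d => (∑ a ∈ range (q p), m1 p d a) / q p with hm2
  have s2 : ∀ d, |∑ a ∈ range A, ∏ p ∈ S, m1 p d a - A * ∏ p ∈ S, m2 p d| ≤ Q := by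
    intro d
    have := avg1 S q hq hcop (fun p a => m1 p d a) (fun p hp n => m1_01 p hp _ _)
      (by
        intro p hp n
        simp only [hm1, ha p hp]) 0 A
    rw [Nat.zero_add, ← Finset.range_eq_Ico] at this
    exact this
  have m2_01 : ∀ p ∈ S, ∀ d, 0 ≤ m2 p d ∧ m2 p d ≤ 1 := fun p hp d =>
    mean_01 (fun a => m1 p d a) (q p) fun a => m1_01 p hp d a
  set m3 : ℕ → ℝ := fun p => (∑ d ∈ range (q p), m2 p d) / q p with hm3
  have s3 : |∑ d ∈ Ico M (M + D), ∏ p ∈ S, m2 p d - D * ∏ p ∈ S, m3 p| ≤ Q := by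
    have := avg1 S q hq hcop (fun p d => m2 p d) (fun p hp n => m2_01 p hp _)
      (by
        intro p hp n
        simp only [hm2, hm1, hd p hp]) M D
    exact this
  have e3 : ∏ p ∈ S, ((∑ d ∈ range (q p), ∑ a ∈ range (q p), ∑ b ∈ range (q p), h p d a b)
          / (q p : ℝ) ^ 3) = ∏ p ∈ S, m3 p := by
    apply Finset.prod_congr rfl
    intro p hp
    have hqp : (q p : ℝ) ≠ 0 := by exact_mod_cast (hq p hp).ne'
    simp only [hm3, hm2, hm1, Finset.sum_div]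
    apply Finset.sum_congr rfl
    intro d _
    apply Finset.sum_congr rfl
    intro a _
    apply Finset.sum_congr rfl
    intro b _
    field_simp
  rw [e3]
  rw [Finset.sum_product]
  simp only [Finset.sum_product]
  -- combine
  have t1 : |∑ d ∈ Ico M (M + D), ∑ a ∈ range A, ∑ t ∈ range T, ∏ p ∈ S, h p d a (b0 d a + d * t)
      - ∑ d ∈ Ico M (M + D), ∑ a ∈ range A, T * ∏ p ∈ S, m1 p d a| ≤ D * A * Q := by
    rw [← Finset.sum_sub_distrib]
    simp only [← Finset.sum_sub_distrib]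
    calc |∑ d ∈ Ico M (M + D), ∑ a ∈ range A,
          (∑ t ∈ range T, ∏ p ∈ S, h p d a (b0 d a + d * t) - T * ∏ p ∈ S, m1 p d a)|
        ≤ ∑ d ∈ Ico M (M + D), |∑ a ∈ range A,
          (∑ t ∈ range T, ∏ p ∈ S, h p d a (b0 d a + d * t) - T * ∏ p ∈ S, m1 p d a)| :=
          Finset.abs_sum_le_sum_abs _ _
      _ ≤ ∑ d ∈ Ico M (M + D), ∑ a ∈ range A,
          |∑ t ∈ range T, ∏ p ∈ S, h p d a (b0 d a + d * t) - T * ∏ p ∈ S, m1 p d a| :=
          Finset.sum_le_sum fun d _ => Finset.abs_sum_le_sum_abs _ _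
      _ ≤ ∑ d ∈ Ico M (M + D), ∑ a ∈ range A, Q :=
          Finset.sum_le_sum fun d _ => Finset.sum_le_sum fun a _ => s1 d a
      _ = D * A * Q := by simp; ring
  have t2 : |∑ d ∈ Ico M (M + D), ∑ a ∈ range A, T * ∏ p ∈ S, m1 p d a
      - ∑ d ∈ Ico M (M + D), T * (A * ∏ p ∈ S, m2 p d)| ≤ D * T * Q := by
    rw [← Finset.sum_sub_distrib]
    calc |∑ d ∈ Ico M (M + D), (∑ a ∈ range A, T * ∏ p ∈ S, m1 p d a - T * (A * ∏ p ∈ S, m2 p d))|
        ≤ ∑ d ∈ Ico M (M + D), |∑ a ∈ range A, T * ∏ p ∈ S, m1 p d a - T * (A * ∏ p ∈ S, m2 p d)| :=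
          Finset.abs_sum_le_sum_abs _ _
      _ ≤ ∑ d ∈ Ico M (M + D), T * Q := by
          apply Finset.sum_le_sum
          intro d _
          rw [← Finset.mul_sum, ← mul_sub, abs_mul, abs_of_nonneg (by positivity : (0 : ℝ) ≤ T)]
          exact mul_le_mul_of_nonneg_left (s2 d) (by positivity)
      _ = D * T * Q := by simp; ring
  have t3 : |∑ d ∈ Ico M (M + D), T * (A * ∏ p ∈ S, m2 p d) - (D * A * T) * ∏ p ∈ S, m3 p|
      ≤ A * T * Q := by
    have e : ∑ d ∈ Ico M (M + D), (T : ℝ) * (A * ∏ p ∈ S, m2 p d) - (D * A * T) * ∏ p ∈ S, m3 p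
        = (A * T) * (∑ d ∈ Ico M (M + D), ∏ p ∈ S, m2 p d - D * ∏ p ∈ S, m3 p) := by
      rw [mul_sub, Finset.mul_sum]
      congr 1
      · apply Finset.sum_congr rfl
        intro d _
        ring
      · ring
    rw [e, abs_mul, abs_of_nonneg (by positivity : (0 : ℝ) ≤ A * T)]
    exact mul_le_mul_of_nonneg_left s3 (by positivity)
  rw [abs_le] at t1 t2 t3 ⊢
  constructor
  · nlinarith [t1.1, t2.1, t3.1]
  · nlinarith [t1.2, t2.2, t3.2]

end Pool.Agent.H177R2.SD
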