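import Pool.Agent.H177R2.SD.Defs

/-!
Weighted pure Brun sieve.
-/

set_option autoImplicit false

namespace Pool.Agent.H177R2.SD

open Finset

section

variable {ι : Type*} [DecidableEq ι]

/-- elementary symmetric sums -/
noncomputable def ee (P : Finset ι) (x : ι → ℝ) (k : ℕ) : ℝ := ∑ S ∈ P.powersetCard k, ∏ i ∈ S, x i

/-- truncated alternating sums -/
noncomputable def bb (P : Finset ι) (x : ι → ℝ) (n : ℕ) : ℝ := ∑ k ∈ range (n + 1), (-1) ^ k * ee P x k

omit [DecidableEq ι] in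
lemma ee_zero (P : Finset ι) (x : ι → ℝ) : ee P x 0 = 1 := by
  simp [ee]

lemma ee_insert (P : Finset ι) (x : ι → ℝ) (i : ι) (hi : i ∉ P) (k : ℕ) :
    ee (insert i P) x (k + 1) = ee P x (k + 1) + x i * ee P x k := by
  unfold ee
  rw [powersetCard_succ_insert hi, sum_union, sum_image, mul_sum]
  · congr 1
    apply sum_congr rfl
    intro S hS
    rw [prod_insert]
    intro h
    exact hi ((mem_powersetCard.1 hS).1 h)
  · intro S hS T hT h
    have hS' : i ∉ S := fun h => hi ((mem_powersetCard.1 hS).1 h)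
    have hT' : i ∉ T := fun h => hi ((mem_powersetCard.1 hT).1 h)
    have := congrArg (fun U => U.erase i) h
    simpa [erase_insert hS', erase_insert hT'] using this
  · rw [disjoint_left]
    intro S hS hS'
    obtain ⟨T, -, rfl⟩ := mem_image.1 hS'
    exact hi ((mem_powersetCard.1 hS).1 (mem_insert_self i T))

omit [DecidableEq ι] in
lemma ee_nonneg (P : Finset ι) (x : ι → ℝ) (hx : ∀ i ∈ P, 0 ≤ x i) (k : ℕ) : 0 ≤ ee P x k :=
  sum_nonneg fun _ hS => prod_nonneg fun i hi => hx i ((mem_powersetCard.1 hS).1 hi)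

omit [DecidableEq ι] in
lemma bb_succ (P : Finset ι) (x : ι → ℝ) (n : ℕ) :
    bb P x (n + 1) = bb P x n + (-1) ^ (n + 1) * ee P x (n + 1) := by
  unfold bb
  rw [sum_range_succ]

omit [DecidableEq ι] in
lemma bb_zero (P : Finset ι) (x : ι → ℝ) : bb P x 0 = 1 := by
  simp [bb, ee_zero]

lemma bb_insert (P : Finset ι) (x : ι → ℝ) (i : ι) (hi : i ∉ P) (n : ℕ) :
    bb (insert i P) x (n + 1) = bb P x (n + 1) - x i * bb P x n := by
  induction n with
  | zero =>
    rw [bb_succ, bb_succ, bb_zero, bb_zero, ee_insert P x i hi, ee_zero]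
    ring
  | succ n ih =>
    rw [bb_succ, ih, ee_insert P x i hi, bb_succ P x (n + 1)]
    rw [show x i * bb P x (n + 1) = x i * (bb P x n + (-1) ^ (n + 1) * ee P x (n + 1)) by rw [← bb_succ]]
    ring

lemma bonferroni (P : Finset ι) (x : ι → ℝ) (hx : ∀ i ∈ P, 0 ≤ x i ∧ x i ≤ 1) (n : ℕ) :
    0 ≤ (-1) ^ n * (bb P x n - ∏ i ∈ P, (1 - x i)) ∧
    (-1) ^ n * (bb P x n - ∏ i ∈ P, (1 - x i)) ≤ ee P x (n + 1) := by
  induction P using Finset.induction_on generalizing n with
  | empty =>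
    have hb : ∀ n, bb (∅ : Finset ι) x n = 1 := by
      intro n
      induction n with
      | zero => exact bb_zero _ _
      | succ n ih =>
        rw [bb_succ, ih]
        have : ee (∅ : Finset ι) x (n + 1) = 0 := by
          unfold ee
          rw [powersetCard_eq_empty.2 (by simp)]
          simp
        rw [this]; ring
    rw [hb]
    simp only [prod_empty, sub_self, mul_zero, le_refl, true_and]
    exact ee_nonneg _ _ (by simp) _
  | insert i P hi ih =>
    have hx' : ∀ j ∈ P, 0 ≤ x j ∧ x j ≤ 1 := fun j hj => hx j (mem_insert_of_mem hj)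
    obtain ⟨hi0, hi1⟩ := hx i (mem_insert_self i P)
    have hP0 : 0 ≤ ∏ j ∈ P, (1 - x j) := prod_nonneg fun j hj => by linarith [(hx' j hj).2]
    have hP1 : ∏ j ∈ P, (1 - x j) ≤ 1 :=
      prod_le_one (fun j hj => by linarith [(hx' j hj).2]) (fun j hj => by linarith [(hx' j hj).1])
    rw [prod_insert hi]
    cases n with
    | zero =>
      obtain ⟨h1, h2⟩ := ih hx' 0
      rw [bb_zero] at h1 h2
      rw [bb_zero, ee_insert P x i hi, ee_zero]
      constructor
      · simp only [pow_zero, one_mul] at h1 ⊢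
        nlinarith
      · simp only [pow_zero, one_mul] at h2 ⊢
        nlinarith
    | succ n =>
      obtain ⟨h1, h2⟩ := ih hx' (n + 1)
      obtain ⟨h3, h4⟩ := ih hx' n
      rw [bb_insert P x i hi, ee_insert P x i hi]
      have key : (-1 : ℝ) ^ (n + 1) * (bb P x (n + 1) - x i * bb P x n - (1 - x i) * ∏ j ∈ P, (1 - x j))
          = (-1) ^ (n + 1) * (bb P x (n + 1) - ∏ j ∈ P, (1 - x j))
            + x i * ((-1) ^ n * (bb P x n - ∏ j ∈ P, (1 - x j))) := by ring
      rw [key]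
      constructor
      · exact add_nonneg h1 (mul_nonneg hi0 h3)
      · exact add_le_add h2 (mul_le_mul_of_nonneg_left h4 hi0)

lemma add_pow_ge {s x : ℝ} (hs : 0 ≤ s) (hx : 0 ≤ x) (k : ℕ) :
    s ^ (k + 1) + (k + 1) * x * s ^ k ≤ (s + x) ^ (k + 1) := by
  induction k with
  | zero => simp
  | succ k ih =>
    have h1 : (s + x) * (s ^ (k + 1) + (k + 1) * x * s ^ k) ≤ (s + x) * (s + x) ^ (k + 1) :=
      mul_le_mul_of_nonneg_left ih (by positivity)
    have h2 : 0 ≤ ((k : ℝ) + 1) * x ^ 2 * s ^ k := by positivity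
    calc s ^ (k + 1 + 1) + ((k + 1 : ℕ) + 1) * x * s ^ (k + 1)
        ≤ (s + x) * (s ^ (k + 1) + (k + 1) * x * s ^ k) := by
          have e : (s + x) * (s ^ (k + 1) + (k + 1) * x * s ^ k)
              = s ^ (k + 1 + 1) + ((k + 1 : ℕ) + 1) * x * s ^ (k + 1) + (k + 1) * x ^ 2 * s ^ k := by
            push_cast; ring
          rw [e]; linarith
      _ ≤ (s + x) * (s + x) ^ (k + 1) := h1
      _ = (s + x) ^ (k + 1 + 1) := by ring

lemma ee_le (P : Finset ι) (x : ι → ℝ) (hx : ∀ i ∈ P, 0 ≤ x i) (k : ℕ) :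
    (k.factorial : ℝ) * ee P x k ≤ (∑ i ∈ P, x i) ^ k := by
  induction P using Finset.induction_on generalizing k with
  | empty =>
    cases k with
    | zero => simp [ee_zero]
    | succ k =>
      have : ee (∅ : Finset ι) x (k + 1) = 0 := by
        unfold ee
        rw [powersetCard_eq_empty.2 (by simp)]
        simp
      rw [this]; simp
  | insert i P hi ih =>
    have hx' : ∀ j ∈ P, 0 ≤ x j := fun j hj => hx j (mem_insert_of_mem hj)
    have hi0 := hx i (mem_insert_self i P)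
    have hs : 0 ≤ ∑ j ∈ P, x j := sum_nonneg hx'
    cases k with
    | zero => simp [ee_zero]
    | succ k =>
      rw [ee_insert P x i hi, sum_insert hi]
      have h1 := ih hx' (k + 1)
      have h2 := ih hx' k
      have h3 := add_pow_ge hs hi0 k
      have h4 : ((k : ℝ) + 1) * x i * ((k.factorial : ℝ) * ee P x k) ≤ (k + 1) * x i * (∑ j ∈ P, x j) ^ k :=
        mul_le_mul_of_nonneg_left h2 (by positivity)
      have h5 : ((k + 1).factorial : ℝ) = (k + 1) * k.factorial := by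
        rw [Nat.factorial_succ]; push_cast; ring
      rw [add_comm (x i)]
      rw [h5] at h1 ⊢
      nlinarith

end

lemma sum_choose_le (n m : ℕ) : ∑ k ∈ range (m + 1), n.choose k ≤ (n + 1) ^ m := by
  induction m with
  | zero => simp
  | succ m ih =>
    rw [sum_range_succ]
    have h1 : n.choose (m + 1) ≤ n ^ (m + 1) := Nat.choose_le_pow n (m + 1)
    have h2 : n ^ (m + 1) ≤ n * (n + 1) ^ m := by
      rw [pow_succ, mul_comm]
      exact Nat.mul_le_mul_left _ (Nat.pow_le_pow_left (by omega) m)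
    calc _ ≤ (n + 1) ^ m + n * (n + 1) ^ m := by omega
      _ = (n + 1) ^ (m + 1) := by ring

theorem brun {Ω ι : Type*} [DecidableEq ι] (s : Finset Ω) (P : Finset ι) (h : ι → Ω → ℝ) (η : ι → ℝ)
    (hh : ∀ i ∈ P, ∀ ω ∈ s, 0 ≤ h i ω ∧ h i ω ≤ 1) (hη : ∀ i ∈ P, 0 ≤ η i ∧ η i ≤ 1)
    (r : ℕ) (V δ : ℝ) (hV : 0 ≤ V) (hδ : 0 ≤ δ)
    (happ : ∀ S ⊆ P, S.card ≤ 2 * r → |∑ ω ∈ s, ∏ i ∈ S, h i ω - V * ∏ i ∈ S, η i| ≤ δ) :
    ∑ ω ∈ s, ∏ i ∈ P, (1 - h i ω) ≤
      V * (∏ i ∈ P, (1 - η i) + (∑ i ∈ P, η i) ^ (2 * r + 1) / (2 * r + 1).factorial)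
        + ((P.card : ℝ) + 1) ^ (2 * r) * δ := by
  have h1 : ∑ ω ∈ s, ∏ i ∈ P, (1 - h i ω) ≤ ∑ ω ∈ s, bb P (fun i => h i ω) (2 * r) := by
    apply sum_le_sum
    intro ω hω
    have := (bonferroni P (fun i => h i ω) (fun i hi => hh i hi ω hω) (2 * r)).1
    rw [pow_mul] at this
    norm_num at this
    linarith
  have h2 : ∑ ω ∈ s, bb P (fun i => h i ω) (2 * r)
      = ∑ k ∈ range (2 * r + 1), (-1 : ℝ) ^ k * ∑ S ∈ P.powersetCard k, ∑ ω ∈ s, ∏ i ∈ S, h i ω := by
    unfold bb ee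
    rw [sum_comm]
    apply sum_congr rfl
    intro k _
    rw [← mul_sum, sum_comm]
  have h3 : ∑ k ∈ range (2 * r + 1), (-1 : ℝ) ^ k * ∑ S ∈ P.powersetCard k, ∑ ω ∈ s, ∏ i ∈ S, h i ω
      - V * bb P η (2 * r) ≤ ((P.card : ℝ) + 1) ^ (2 * r) * δ := by
    have e1 : ∑ k ∈ range (2 * r + 1), (-1 : ℝ) ^ k * ∑ S ∈ P.powersetCard k, ∑ ω ∈ s, ∏ i ∈ S, h i ω
      - V * bb P η (2 * r) = ∑ k ∈ range (2 * r + 1), ∑ S ∈ P.powersetCard k,
        (-1 : ℝ) ^ k * (∑ ω ∈ s, ∏ i ∈ S, h i ω - V * ∏ i ∈ S, η i) := by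
      unfold bb ee
      rw [mul_sum, ← sum_sub_distrib]
      apply sum_congr rfl
      intro k _
      rw [← mul_sum, sum_sub_distrib, ← mul_sum]
      ring
    rw [e1]
    calc _ ≤ ∑ k ∈ range (2 * r + 1), ∑ S ∈ P.powersetCard k, δ := by
          apply sum_le_sum
          intro k hk
          apply sum_le_sum
          intro S hS
          have := happ S (mem_powersetCard.1 hS).1 (by
            rw [(mem_powersetCard.1 hS).2]; have := mem_range.1 hk; omega)
          calc _ ≤ |(-1 : ℝ) ^ k * (∑ ω ∈ s, ∏ i ∈ S, h i ω - V * ∏ i ∈ S, η i)| := le_abs_self _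
            _ = |∑ ω ∈ s, ∏ i ∈ S, h i ω - V * ∏ i ∈ S, η i| := by
              rw [abs_mul, abs_pow, abs_neg, abs_one, one_pow, one_mul]
            _ ≤ δ := this
      _ = (∑ k ∈ range (2 * r + 1), P.card.choose k : ℕ) * δ := by
          push_cast
          rw [sum_mul]
          apply sum_congr rfl
          intro k _
          rw [sum_const, card_powersetCard, nsmul_eq_mul]
      _ ≤ _ := by
          apply mul_le_mul_of_nonneg_right _ hδ
          have := sum_choose_le P.card (2 * r)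
          exact_mod_cast this
  have h4 : bb P η (2 * r) ≤ ∏ i ∈ P, (1 - η i) + (∑ i ∈ P, η i) ^ (2 * r + 1) / (2 * r + 1).factorial := by
    have a1 := (bonferroni P η hη (2 * r)).2
    rw [pow_mul] at a1
    norm_num at a1
    have a2 := ee_le P η (fun i hi => (hη i hi).1) (2 * r + 1)
    have a3 : (0 : ℝ) < (2 * r + 1).factorial := by positivity
    have a4 : ee P η (2 * r + 1) ≤ (∑ i ∈ P, η i) ^ (2 * r + 1) / (2 * r + 1).factorial := by
      rw [le_div_iff₀ a3]; linarith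
    linarith
  have h5 := mul_le_mul_of_nonneg_left h4 hV
  linarith [h1, h2, h3, h5]

end Pool.Agent.H177R2.SD
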