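import Pool.Agent.H177R2.SD.Defs

set_option autoImplicit false

open Finset

namespace Pool.Agent.H177R2.SD
namespace LocalAux

open Classical in
/-- indicator -/
noncomputable def ind (P : Prop) : ℝ := if P then 1 else 0

lemma ind_nonneg (P : Prop) : 0 ≤ ind P := by
  unfold ind; split_ifs <;> norm_num

lemma ind_le_one (P : Prop) : ind P ≤ 1 := by
  unfold ind; split_ifs <;> norm_num

lemma ind_true {P : Prop} (h : P) : ind P = 1 := by
  unfold ind; rw [if_pos h]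

lemma ind_false {P : Prop} (h : ¬ P) : ind P = 0 := by
  unfold ind; rw [if_neg h]

lemma ind_mono {P Q : Prop} (h : P → Q) : ind P ≤ ind Q := by
  by_cases hP : P
  · rw [ind_true hP, ind_true (h hP)]
  · rw [ind_false hP]; exact ind_nonneg Q

lemma ind_congr {P Q : Prop} (h : P ↔ Q) : ind P = ind Q := by
  by_cases hP : P
  · rw [ind_true hP, ind_true (h.1 hP)]
  · rw [ind_false hP, ind_false (fun hQ => hP (h.2 hQ))]

lemma ind_and (P Q : Prop) : ind (P ∧ Q) = ind P * ind Q := by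
  by_cases hP : P
  · by_cases hQ : Q
    · rw [ind_true ⟨hP, hQ⟩, ind_true hP, ind_true hQ]; ring
    · rw [ind_false (fun h => hQ h.2), ind_false hQ]; ring
  · rw [ind_false (fun h => hP h.1), ind_false hP]; ring

lemma sum_range_zmod (q : ℕ) [NeZero q] (f : ZMod q → ℝ) :
    ∑ n ∈ range q, f (n : ZMod q) = ∑ x : ZMod q, f x := by
  refine Finset.sum_bij' (fun n _ => (n : ZMod q)) (fun x _ => x.val) ?_ ?_ ?_ ?_ ?_
  · intro n _; exact mem_univ _
  · intro x _; exact mem_range.2 (ZMod.val_lt x)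
  · intro n hn; exact ZMod.val_cast_of_lt (mem_range.1 hn)
  · intro x _; exact ZMod.natCast_zmod_val x
  · intro n _; rfl

lemma sum_range_mul_zmod (q k : ℕ) [NeZero q] (f : ZMod q → ℝ) :
    ∑ n ∈ range (k * q), f (n : ZMod q) = k * ∑ x : ZMod q, f x := by
  induction k with
  | zero => simp
  | succ k ih =>
    rw [Nat.succ_mul, Finset.sum_range_add, ih]
    have : ∑ x ∈ range q, f ((k * q + x : ℕ) : ZMod q) = ∑ n ∈ range q, f (n : ZMod q) := by
      refine Finset.sum_congr rfl fun n _ => ?_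
      congr 1
      push_cast
      simp
    rw [this, sum_range_zmod]
    push_cast
    ring

lemma sum_affine (q : ℕ) [NeZero q] (u v : ZMod q) (hu : IsUnit u) (f : ZMod q → ℝ) :
    ∑ x : ZMod q, f (u * x + v) = ∑ x : ZMod q, f x := by
  obtain ⟨u, rfl⟩ := hu
  refine Fintype.sum_bijective (fun x => (u : ZMod q) * x + v) ?_ _ _ fun x => rfl
  constructor
  · intro x y hxy
    simp only [add_left_inj] at hxy
    exact u.isUnit.mul_left_cancel hxy
  · intro y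
    refine ⟨(u⁻¹ : (ZMod q)ˣ) * (y - v), ?_⟩
    simp

section prime
variable {p : ℕ} (hp : p.Prime)

include hp in
lemma sum_dvd : ∑ n ∈ range (p ^ 2), ind (p ∣ n) = p := by
  have := NeZero.mk hp.ne_zero
  have h : ∀ n ∈ range (p ^ 2), ind (p ∣ n) = (fun x : ZMod p => ind (x = 0)) (n : ZMod p) := by
    intro n _
    exact ind_congr (ZMod.natCast_eq_zero_iff n p).symm
  rw [Finset.sum_congr rfl h, sq, sum_range_mul_zmod p p (fun x : ZMod p => ind (x = 0))]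
  have : ∑ x : ZMod p, ind (x = 0) = 1 := by
    rw [Finset.sum_eq_single (0 : ZMod p)]
    · exact ind_true rfl
    · intro x _ hx; exact ind_false hx
    · intro h; exact absurd (mem_univ _) h
  rw [this, mul_one]

include hp in
lemma sum_exact : ∑ n ∈ range (p ^ 2), ind (p ∣ n ∧ ¬ p ^ 2 ∣ n) = (p : ℝ) - 1 := by
  have h : ∀ n ∈ range (p ^ 2), ind (p ∣ n ∧ ¬ p ^ 2 ∣ n) = ind (p ∣ n) - ind (n = 0) := by
    intro n hn
    rw [mem_range] at hn
    rcases Nat.eq_zero_or_pos n with h0 | h0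
    · subst h0
      rw [ind_false (by simp), ind_true (dvd_zero p), ind_true rfl]; ring
    · rw [ind_false (by omega : ¬ n = 0), sub_zero]
      apply ind_congr
      constructor
      · exact fun h => h.1
      · intro h
        refine ⟨h, fun h2 => ?_⟩
        have := Nat.le_of_dvd h0 h2
        omega
  rw [Finset.sum_congr rfl h, Finset.sum_sub_distrib, sum_dvd hp]
  congr 1
  rw [Finset.sum_eq_single 0]
  · exact ind_true rfl
  · intro x _ hx; exact ind_false hx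
  · intro h
    exact absurd (mem_range.2 (by have := hp.pos; positivity)) h

include hp in
lemma isUnit_of_not_dvd {u : ℤ} (hu : ¬ (p : ℤ) ∣ u) : IsUnit ((u : ℤ) : ZMod (p ^ 2)) := by
  rw [ZMod.coe_int_isUnit_iff_isCoprime]
  have h1 : IsCoprime (p : ℤ) u := (Prime.coprime_iff_not_dvd (Nat.prime_iff_prime_int.1 hp)).2 hu
  push_cast
  exact (h1.pow_left)

include hp in
/-- number of `b` with `p ∥ b u + 1` -/
lemma sum_lin_exact {u : ℤ} (hu : ¬ (p : ℤ) ∣ u) :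
    ∑ b ∈ range (p ^ 2), ind ((p : ℤ) ∣ (b : ℤ) * u + 1 ∧ ¬ (p : ℤ) ^ 2 ∣ (b : ℤ) * u + 1) =
      (p : ℝ) - 1 := by
  have : NeZero (p ^ 2) := ⟨pow_ne_zero 2 hp.ne_zero⟩
  have hp0 : (p : ℤ) ≠ 0 := by exact_mod_cast hp.ne_zero
  have key : ∀ n : ℤ, ((p : ℤ) ∣ n ∧ ¬ (p : ℤ) ^ 2 ∣ n) ↔
      ((p : ZMod (p ^ 2)) * (n : ZMod (p ^ 2)) = 0 ∧ (n : ZMod (p ^ 2)) ≠ 0) := by
    intro n
    have e1 : (p : ℤ) ∣ n ↔ (p : ZMod (p ^ 2)) * (n : ZMod (p ^ 2)) = 0 := by
      have : (p : ZMod (p ^ 2)) * (n : ZMod (p ^ 2)) = (((p : ℤ) * n : ℤ) : ZMod (p ^ 2)) := by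
        push_cast; rfl
      rw [this, ZMod.intCast_zmod_eq_zero_iff_dvd]
      push_cast
      rw [sq, mul_dvd_mul_iff_left hp0]
    have e2 : (p : ℤ) ^ 2 ∣ n ↔ (n : ZMod (p ^ 2)) = 0 := by
      rw [ZMod.intCast_zmod_eq_zero_iff_dvd]
      push_cast
      rfl
    rw [e1, e2]
  set F : ZMod (p ^ 2) → ℝ := fun x => ind ((p : ZMod (p ^ 2)) * x = 0 ∧ x ≠ 0) with hF
  have h1 : ∀ b ∈ range (p ^ 2),
      ind ((p : ℤ) ∣ (b : ℤ) * u + 1 ∧ ¬ (p : ℤ) ^ 2 ∣ (b : ℤ) * u + 1) =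
      (fun x : ZMod (p ^ 2) => F ((u : ZMod (p ^ 2)) * x + 1)) (b : ZMod (p ^ 2)) := by
    intro b _
    rw [ind_congr (key _), hF]
    simp only
    congr 1
    push_cast
    rw [mul_comm (b : ZMod (p ^ 2))]
  rw [Finset.sum_congr rfl h1, sum_range_zmod (p ^ 2) (fun x => F ((u : ZMod (p ^ 2)) * x + 1)),
    sum_affine _ _ _ (isUnit_of_not_dvd hp hu), ← sum_range_zmod, ← sum_exact hp]
  refine Finset.sum_congr rfl fun n _ => ?_
  rw [hF]
  simp only
  have := key (n : ℤ)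
  push_cast at this
  rw [← ind_congr this]
  apply ind_congr
  have e1 : (p : ℤ) ∣ (n : ℤ) ↔ p ∣ n := Int.natCast_dvd_natCast
  have e2 : (p : ℤ) ^ 2 ∣ (n : ℤ) ↔ p ^ 2 ∣ n := by
    rw [← Int.natCast_dvd_natCast]; push_cast; rfl
  rw [e1, e2]

include hp in
/-- number of `b` with `p ∣ b u + 1` is at most `p` -/
lemma sum_lin_le (u : ℤ) :
    ∑ b ∈ range (p ^ 2), ind ((p : ℤ) ∣ (b : ℤ) * u + 1) ≤ (p : ℝ) := by
  have := NeZero.mk hp.ne_zero
  have := Fact.mk hp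
  by_cases hu : (p : ℤ) ∣ u
  · have h : ∀ b ∈ range (p ^ 2), ind ((p : ℤ) ∣ (b : ℤ) * u + 1) = 0 := by
      intro b _
      apply ind_false
      intro h
      have h1 : (p : ℤ) ∣ 1 := (Int.dvd_add_right (hu.mul_left _)).1 h
      have h2 : (p : ℤ) ≤ 1 := Int.le_of_dvd (by norm_num) h1
      have h3 := hp.two_le
      omega
    rw [Finset.sum_congr rfl h, Finset.sum_const_zero]
    positivity
  · have hu' : (u : ZMod p) ≠ 0 := by
      rw [Ne, ZMod.intCast_zmod_eq_zero_iff_dvd]; exact hu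
    have h : ∀ b ∈ range (p ^ 2), ind ((p : ℤ) ∣ (b : ℤ) * u + 1) =
        (fun x : ZMod p => (fun y : ZMod p => ind (y = 0)) ((u : ZMod p) * x + 1)) (b : ZMod p) := by
      intro b _
      simp only
      apply ind_congr
      rw [← ZMod.intCast_zmod_eq_zero_iff_dvd]
      push_cast
      rw [mul_comm (b : ZMod p)]
    rw [Finset.sum_congr rfl h, sq, sum_range_mul_zmod p p
      (fun x : ZMod p => (fun y : ZMod p => ind (y = 0)) ((u : ZMod p) * x + 1)),
      sum_affine _ (u : ZMod p) 1 (isUnit_iff_ne_zero.2 hu') (fun y : ZMod p => ind (y = 0))]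
    have : ∑ x : ZMod p, ind (x = 0) = 1 := by
      rw [Finset.sum_eq_single (0 : ZMod p)]
      · exact ind_true rfl
      · intro x _ hx; exact ind_false hx
      · intro h; exact absurd (mem_univ _) h
    rw [this, mul_one]

/-- number of nonresidues -/
lemma sum_nonsq (hp2 : p ≠ 2) [Fact p.Prime] : ∑ x : ZMod p, ind (¬ IsSquare x) = ((p : ℝ) - 1) / 2 := by
  have h1 := quadraticChar_sum_zero (F := ZMod p) (by
    rw [ZMod.ringChar_zmod_n]; exact hp2)
  have h2 : ∀ x : ZMod p, ind (¬ IsSquare x) = (1 - ((quadraticChar (ZMod p) x : ℤ) : ℝ)) / 2 -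
      ind (x = 0) / 2 := by
    intro x
    by_cases hx : x = 0
    · subst hx
      rw [ind_false (by simp), ind_true rfl, MulChar.map_zero]
      norm_num
    · rw [ind_false hx]
      by_cases hs : IsSquare x
      · rw [ind_false (not_not.2 hs), (quadraticChar_one_iff_isSquare hx).2 hs]
        norm_num
      · rw [ind_true hs, quadraticChar_neg_one_iff_not_isSquare.2 hs]
        norm_num
  rw [Finset.sum_congr rfl fun x _ => h2 x, Finset.sum_sub_distrib, ← Finset.sum_div,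
    ← Finset.sum_div, Finset.sum_sub_distrib]
  have h3 : ∑ x : ZMod p, ((quadraticChar (ZMod p) x : ℤ) : ℝ) = 0 := by
    exact_mod_cast h1
  have h4 : ∑ x : ZMod p, ind (x = 0) = 1 := by
    rw [Finset.sum_eq_single (0 : ZMod p)]
    · exact ind_true rfl
    · intro x _ hx; exact ind_false hx
    · intro h; exact absurd (mem_univ _) h
  rw [h3, h4]
  simp [ZMod.card]
  ring

/-- number of `x` with `s x (x - d)` a nonresidue -/
lemma sum_quad (hp2 : p ≠ 2) [Fact p.Prime] {s d : ZMod p} (hs : s * s = 1) (hd : d ≠ 0) :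
    ((p : ℝ) - 3) / 2 ≤ ∑ x : ZMod p, ind (¬ IsSquare (s * (x * (x - d)))) := by
  classical
  have hs0 : s ≠ 0 := by
    rintro rfl
    simp at hs
  have h1 := sum_nonsq hp2
  -- the nonresidues different from `s`
  set W : Finset (ZMod p) := univ.filter fun w => ¬ IsSquare w ∧ w ≠ s with hW
  set X : Finset (ZMod p) := univ.filter fun x => ¬ IsSquare (s * (x * (x - d))) with hX
  have hXs : ∑ x : ZMod p, ind (¬ IsSquare (s * (x * (x - d)))) = (X.card : ℝ) := by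
    rw [hX, Finset.card_filter]
    push_cast
    refine Finset.sum_congr rfl fun x _ => ?_
    unfold ind
    split_ifs <;> simp
  have hWs : ((p : ℝ) - 3) / 2 ≤ (W.card : ℝ) := by
    have h2 : ∑ w : ZMod p, ind (¬ IsSquare w) ≤ ∑ w : ZMod p, ((if ¬ IsSquare w ∧ w ≠ s then 1 else 0) +
        (if w = s then 1 else 0) : ℝ) := by
      refine Finset.sum_le_sum fun w _ => ?_
      by_cases h : IsSquare w
      · rw [ind_false (not_not.2 h)]
        split_ifs <;> norm_num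
      · rw [ind_true h]
        by_cases h' : w = s
        · rw [if_neg (by simp [h']), if_pos h']; norm_num
        · rw [if_pos ⟨h, h'⟩, if_neg h']; norm_num
    rw [h1, Finset.sum_add_distrib] at h2
    have h3 : ∑ w : ZMod p, (if w = s then 1 else 0 : ℝ) = 1 := by simp
    rw [h3] at h2
    have h4 : (W.card : ℝ) = ∑ w : ZMod p, (if ¬ IsSquare w ∧ w ≠ s then 1 else 0 : ℝ) := by
      rw [hW, Finset.card_filter]
      push_cast
      rfl
    rw [h4]
    linarith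
  have hinj : W.card ≤ X.card := by
    have hne : ∀ w : ZMod p, w ≠ s → 1 - s * w ≠ 0 := by
      intro w hw h
      apply hw
      have h2 : s * w = 1 := (sub_eq_zero.1 h).symm
      calc w = (s * s) * w := by rw [hs, one_mul]
        _ = s * (s * w) := by ring
        _ = s := by rw [h2, mul_one]
    refine Finset.card_le_card_of_injOn (fun w => d / (1 - s * w)) ?_ ?_
    · intro w hw
      rw [hW, Finset.coe_filter] at hw
      obtain ⟨-, hw1, hw2⟩ := hw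
      rw [hX, Finset.coe_filter]
      refine ⟨mem_univ _, ?_⟩
      have h2 := hne w hw2
      intro hsq
      apply hw1
      have e : s * (d / (1 - s * w) * (d / (1 - s * w) - d)) = (d / (1 - s * w)) ^ 2 * w := by
        field_simp
        linear_combination w * hs
      simp only at hsq
      rw [e] at hsq
      have h3 : d / (1 - s * w) ≠ 0 := div_ne_zero hd h2
      obtain ⟨r, hr⟩ := hsq
      refine ⟨r / (d / (1 - s * w)), ?_⟩
      field_simp
      field_simp at hr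
      linear_combination hr
    · intro w hw w' hw' h
      rw [hW, Finset.coe_filter] at hw hw'
      have h2 := hne w hw.2.2
      have h3 := hne w' hw'.2.2
      simp only at h
      rw [div_eq_div_iff h2 h3] at h
      have h4 := mul_left_cancel₀ hd h
      have h5 : s * w' = s * w := by linear_combination -h4
      exact (mul_left_cancel₀ hs0 h5).symm
  rw [hXs]
  refine hWs.trans ?_
  exact_mod_cast hinj

end prime

/-! ### the weight -/

section weight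
variable {p : ℕ}

lemma T1_iff {s : ℤ} {d a b : ℕ} (hd : ¬ p ∣ d) : T1 s p d a b ↔
    (¬ IsSquare ((s * ((a : ℤ) * ((a : ℤ) - d)) : ℤ) : ZMod p)) ∧
      ((p : ℤ) ∣ (b : ℤ) * ((d : ℤ) - a) + 1 ∧ ¬ (p : ℤ) ^ 2 ∣ (b : ℤ) * ((d : ℤ) - a) + 1) := by
  unfold T1
  tauto

lemma T2_iff {s : ℤ} {d a b : ℕ} (hd : ¬ p ∣ d) : T2 s p d a b ↔
    (p ∣ a ∧ ¬ p ^ 2 ∣ a) ∧ ¬ IsSquare ((s * ((b : ℤ) * d + 1) : ℤ) : ZMod p) := by
  unfold T2
  tauto

lemma T1_not_dvd_b (hp : p.Prime) {s : ℤ} {d a b : ℕ} (h : T1 s p d a b) : ¬ p ∣ b := by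
  intro hb
  obtain ⟨-, h1, -⟩ := h
  have h2 : (p : ℤ) ∣ (b : ℤ) * ((d : ℤ) - a) := (Int.natCast_dvd_natCast.2 hb).mul_right _
  have h3 : (p : ℤ) ∣ 1 := (Int.dvd_add_right h2).1 h1
  have h4 : (p : ℤ) ≤ 1 := Int.le_of_dvd (by norm_num) h3
  have h5 := hp.two_le
  omega

lemma nonsq_ne {s : ℤ} {d a : ℕ}
    (h : ¬ IsSquare ((s * ((a : ℤ) * ((a : ℤ) - d)) : ℤ) : ZMod p)) :
    ¬ p ∣ a ∧ ¬ (p : ℤ) ∣ (d : ℤ) - a := by
  constructor
  · intro ha
    apply h
    have : ((a : ℤ) : ZMod p) = 0 := by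
      rw [ZMod.intCast_zmod_eq_zero_iff_dvd]; exact Int.natCast_dvd_natCast.2 ha
    rw [Int.cast_mul, Int.cast_mul, this, zero_mul, mul_zero]
    exact ⟨0, by simp⟩
  · intro ha
    apply h
    have : (((a : ℤ) - d : ℤ) : ZMod p) = 0 := by
      rw [ZMod.intCast_zmod_eq_zero_iff_dvd]
      have := (dvd_neg (α := ℤ)).2 ha
      rwa [neg_sub] at this
    rw [Int.cast_mul, Int.cast_mul, this, mul_zero, mul_zero]
    exact ⟨0, by simp⟩

lemma one_sub_g_lower (hp : p.Prime) {s : ℤ} {d a b : ℕ} (hd : ¬ p ∣ d) :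
    1 / 2 * ind (p ∣ b ∧ ¬ p ∣ a) + ind (T1 s p d a b) + ind (T2 s p d a b) ≤ 1 - g s p d a b := by
  unfold g
  rw [if_neg hd]
  by_cases h1 : T1 s p d a b
  · rw [if_pos (Or.inl h1), ind_true h1, ind_false (fun h => T1_not_dvd_b hp h1 h.1)]
    have : ¬ T2 s p d a b := by
      intro h2
      exact (nonsq_ne ((T1_iff hd).1 h1).1).1 ((T2_iff hd).1 h2).1.1
    rw [ind_false this]
    norm_num
  · by_cases h2 : T2 s p d a b
    · rw [if_pos (Or.inr h2), ind_false h1, ind_true h2,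
        ind_false (fun h => h.2 ((T2_iff hd).1 h2).1.1)]
      norm_num
    · rw [if_neg (by tauto), ind_false h1, ind_false h2]
      split_ifs with hb
      · have := ind_le_one (p ∣ b ∧ ¬ p ∣ a)
        linarith
      · rw [ind_false (fun h => hb h.1)]
        norm_num

lemma one_sub_g_upper {s : ℤ} {d a b : ℕ} (hd : ¬ p ∣ d) :
    1 - g s p d a b ≤ 1 / 2 * ind (p ∣ b) + ind (T1 s p d a b) + ind (T2 s p d a b) := by
  unfold g
  rw [if_neg hd]
  have i1 := ind_nonneg (T1 s p d a b)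
  have i2 := ind_nonneg (T2 s p d a b)
  have i3 := ind_nonneg (p ∣ b)
  by_cases h : T1 s p d a b ∨ T2 s p d a b
  · rw [if_pos h]
    rcases h with h | h
    · rw [ind_true h]; linarith
    · rw [ind_true h]; linarith
  · rw [if_neg h]
    split_ifs with hb
    · rw [ind_true hb]; linarith
    · linarith

lemma sum_T1 (hp : p.Prime) (hp2 : p ≠ 2) {s : ℤ} (hs : s = 1 ∨ s = -1) {d : ℕ} (hd : ¬ p ∣ d) :
    ((p : ℝ) - 1) * (p * (((p : ℝ) - 3) / 2)) ≤
      ∑ a ∈ range (p ^ 2), ∑ b ∈ range (p ^ 2), ind (T1 s p d a b) := by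
  have := Fact.mk hp
  have := NeZero.mk hp.ne_zero
  have h1 : ∀ a ∈ range (p ^ 2), ∑ b ∈ range (p ^ 2), ind (T1 s p d a b) =
      (fun x : ZMod p => ((p : ℝ) - 1) * ind (¬ IsSquare ((s : ZMod p) * (x * (x - (d : ZMod p))))))
        (a : ZMod p) := by
    intro a _
    have e : ∀ b : ℕ, ind (T1 s p d a b) =
        ind (¬ IsSquare ((s * ((a : ℤ) * ((a : ℤ) - d)) : ℤ) : ZMod p)) *
        ind ((p : ℤ) ∣ (b : ℤ) * ((d : ℤ) - a) + 1 ∧ ¬ (p : ℤ) ^ 2 ∣ (b : ℤ) * ((d : ℤ) - a) + 1) := by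
      intro b
      rw [← ind_and]
      exact ind_congr (T1_iff hd)
    rw [Finset.sum_congr rfl fun b _ => e b, ← Finset.mul_sum]
    simp only
    have e2 : ((s * ((a : ℤ) * ((a : ℤ) - d)) : ℤ) : ZMod p) =
        (s : ZMod p) * ((a : ZMod p) * ((a : ZMod p) - (d : ZMod p))) := by push_cast; ring
    by_cases h : IsSquare ((s * ((a : ℤ) * ((a : ℤ) - d)) : ℤ) : ZMod p)
    · have h' := h
      rw [e2] at h'
      rw [ind_false (not_not.2 h), ind_false (not_not.2 h')]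
      ring
    · have h' := h
      rw [e2] at h'
      rw [ind_true h, ind_true h', sum_lin_exact hp (nonsq_ne h).2]
      ring
  rw [Finset.sum_congr rfl h1, sq, sum_range_mul_zmod p p
    (fun x : ZMod p => ((p : ℝ) - 1) * ind (¬ IsSquare ((s : ZMod p) * (x * (x - (d : ZMod p)))))),
    ← Finset.mul_sum]
  have hss : (s : ZMod p) * (s : ZMod p) = 1 := by
    rcases hs with rfl | rfl <;> simp
  have hd0 : (d : ZMod p) ≠ 0 := by
    rw [Ne, ZMod.natCast_eq_zero_iff]; exact hd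
  have h2 := sum_quad hp2 hss hd0
  have hp1 : (1 : ℝ) ≤ p := by exact_mod_cast hp.one_le
  have h3 : 0 ≤ (p : ℝ) - 1 := by linarith
  calc ((p : ℝ) - 1) * (p * (((p : ℝ) - 3) / 2))
      ≤ ((p : ℝ) - 1) * (p * ∑ x : ZMod p, ind (¬ IsSquare ((s : ZMod p) * (x * (x - (d : ZMod p)))))) := by
        gcongr
    _ = _ := by ring

lemma sum_T2 (hp : p.Prime) (hp2 : p ≠ 2) {s : ℤ} (hs : s = 1 ∨ s = -1) {d : ℕ} (hd : ¬ p ∣ d) :
    ∑ a ∈ range (p ^ 2), ∑ b ∈ range (p ^ 2), ind (T2 s p d a b) =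
      ((p : ℝ) - 1) * (p * (((p : ℝ) - 1) / 2)) := by
  have := Fact.mk hp
  have := NeZero.mk hp.ne_zero
  have hss : (s : ZMod p) * (s : ZMod p) = 1 := by
    rcases hs with rfl | rfl <;> simp
  have hs0 : (s : ZMod p) ≠ 0 := by
    intro h
    rw [h] at hss
    simp at hss
  have hd0 : (d : ZMod p) ≠ 0 := by
    rw [Ne, ZMod.natCast_eq_zero_iff]; exact hd
  have h0 : ∑ b ∈ range (p ^ 2), ind (¬ IsSquare ((s * ((b : ℤ) * d + 1) : ℤ) : ZMod p)) =
      p * (((p : ℝ) - 1) / 2) := by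
    have h1 : ∀ b ∈ range (p ^ 2), ind (¬ IsSquare ((s * ((b : ℤ) * d + 1) : ℤ) : ZMod p)) =
        (fun x : ZMod p => (fun y : ZMod p => ind (¬ IsSquare y)) ((s : ZMod p) * (d : ZMod p) * x + (s : ZMod p)))
          (b : ZMod p) := by
      intro b _
      simp only
      congr 3
      push_cast
      ring
    rw [Finset.sum_congr rfl h1, sq, sum_range_mul_zmod p p
      (fun x : ZMod p => (fun y : ZMod p => ind (¬ IsSquare y)) ((s : ZMod p) * (d : ZMod p) * x + (s : ZMod p))),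
      sum_affine _ ((s : ZMod p) * (d : ZMod p)) (s : ZMod p) (isUnit_iff_ne_zero.2 (mul_ne_zero hs0 hd0))
        (fun y : ZMod p => ind (¬ IsSquare y)), sum_nonsq hp2]
  have h1 : ∀ a ∈ range (p ^ 2), ∑ b ∈ range (p ^ 2), ind (T2 s p d a b) =
      ind (p ∣ a ∧ ¬ p ^ 2 ∣ a) * (p * (((p : ℝ) - 1) / 2)) := by
    intro a _
    rw [← h0, Finset.mul_sum]
    refine Finset.sum_congr rfl fun b _ => ?_
    rw [← ind_and]
    exact ind_congr (T2_iff hd)
  rw [Finset.sum_congr rfl h1, ← Finset.sum_mul, sum_exact hp]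

lemma sum_b0 (hp : p.Prime) :
    ∑ a ∈ range (p ^ 2), ∑ b ∈ range (p ^ 2), ind (p ∣ b ∧ ¬ p ∣ a) = ((p : ℝ) ^ 2 - p) * p := by
  have h1 : ∀ a ∈ range (p ^ 2), ∑ b ∈ range (p ^ 2), ind (p ∣ b ∧ ¬ p ∣ a) =
      (1 - ind (p ∣ a)) * p := by
    intro a _
    have h2 : ∀ b ∈ range (p ^ 2), ind (p ∣ b ∧ ¬ p ∣ a) = (1 - ind (p ∣ a)) * ind (p ∣ b) := by
      intro b _
      rw [ind_and, mul_comm]
      congr 1
      by_cases h : p ∣ a
      · rw [ind_false (not_not.2 h), ind_true h]; ring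
      · rw [ind_true h, ind_false h]; ring
    rw [Finset.sum_congr rfl h2, ← Finset.mul_sum, sum_dvd hp]
  rw [Finset.sum_congr rfl h1, ← Finset.sum_mul, Finset.sum_sub_distrib, sum_dvd hp,
    Finset.sum_const, Finset.card_range, nsmul_eq_mul]
  push_cast
  ring

end weight

/-! ### periodicity -/

lemma intCast_add_sq (p : ℕ) (x y : ℤ) : ((x + y * (p : ℤ) ^ 2 : ℤ) : ZMod p) = (x : ZMod p) := by
  push_cast
  simp

lemma dvd_add_sq (p : ℕ) (x y : ℤ) : (p : ℤ) ∣ x + y * (p : ℤ) ^ 2 ↔ (p : ℤ) ∣ x := by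
  have : (p : ℤ) ∣ y * (p : ℤ) ^ 2 := ⟨y * p, by ring⟩
  exact Int.dvd_add_left this

lemma sq_dvd_add_sq (p : ℕ) (x y : ℤ) : (p : ℤ) ^ 2 ∣ x + y * (p : ℤ) ^ 2 ↔ (p : ℤ) ^ 2 ∣ x := by
  have : (p : ℤ) ^ 2 ∣ y * (p : ℤ) ^ 2 := ⟨y, by ring⟩
  exact Int.dvd_add_left this

lemma nat_dvd_add_sq (p n : ℕ) : p ∣ n + p ^ 2 ↔ p ∣ n :=
  (Nat.dvd_add_left ⟨p, by ring⟩)

lemma nat_sq_dvd_add_sq (p n : ℕ) : p ^ 2 ∣ n + p ^ 2 ↔ p ^ 2 ∣ n :=
  (Nat.dvd_add_left (dvd_refl _))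

lemma g_congr {s : ℤ} {p d a b d' a' b' : ℕ} (hd : p ∣ d ↔ p ∣ d')
    (h1 : T1 s p d a b ↔ T1 s p d' a' b') (h2 : T2 s p d a b ↔ T2 s p d' a' b')
    (hb : p ∣ b ↔ p ∣ b') : g s p d a b = g s p d' a' b' := by
  unfold g
  by_cases c1 : p ∣ d
  · rw [if_pos c1, if_pos (hd.1 c1)]
  · rw [if_neg c1, if_neg (fun h => c1 (hd.2 h))]
    by_cases c2 : T1 s p d a b ∨ T2 s p d a b
    · rw [if_pos c2, if_pos (Or.imp h1.1 h2.1 c2)]
    · rw [if_neg c2, if_neg (fun h => c2 (Or.imp h1.2 h2.2 h))]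
      by_cases c3 : p ∣ b
      · rw [if_pos c3, if_pos (hb.1 c3)]
      · rw [if_neg c3, if_neg (fun h => c3 (hb.2 h))]

end LocalAux

open LocalAux

theorem g_mem (s : ℤ) (p d a b : ℕ) : 0 ≤ g s p d a b ∧ g s p d a b ≤ 1 := by
  unfold g
  split_ifs <;> norm_num

theorem g_d (s : ℤ) (p d a b : ℕ) : g s p (d + p ^ 2) a b = g s p d a b := by
  apply g_congr
  · exact nat_dvd_add_sq p d
  · unfold T1
    rw [nat_dvd_add_sq]
    have e1 : (b : ℤ) * (((d + p ^ 2 : ℕ) : ℤ) - a) + 1 =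
        ((b : ℤ) * ((d : ℤ) - a) + 1) + b * (p : ℤ) ^ 2 := by push_cast; ring
    have e2 : s * ((a : ℤ) * ((a : ℤ) - ((d + p ^ 2 : ℕ) : ℤ))) =
        s * ((a : ℤ) * ((a : ℤ) - d)) + (-(s * a)) * (p : ℤ) ^ 2 := by push_cast; ring
    rw [e1, e2, dvd_add_sq, sq_dvd_add_sq, intCast_add_sq]
  · unfold T2
    rw [nat_dvd_add_sq]
    have e1 : s * ((b : ℤ) * ((d + p ^ 2 : ℕ) : ℤ) + 1) =
        s * ((b : ℤ) * d + 1) + (s * b) * (p : ℤ) ^ 2 := by push_cast; ring
    rw [e1, intCast_add_sq]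
  · rfl

theorem g_a (s : ℤ) (p d a b : ℕ) : g s p d (a + p ^ 2) b = g s p d a b := by
  apply g_congr
  · rfl
  · unfold T1
    have e1 : (b : ℤ) * ((d : ℤ) - ((a + p ^ 2 : ℕ) : ℤ)) + 1 =
        ((b : ℤ) * ((d : ℤ) - a) + 1) + (-b) * (p : ℤ) ^ 2 := by push_cast; ring
    have e2 : s * (((a + p ^ 2 : ℕ) : ℤ) * (((a + p ^ 2 : ℕ) : ℤ) - d)) =
        s * ((a : ℤ) * ((a : ℤ) - d)) + (s * (2 * a - d + (p : ℤ) ^ 2)) * (p : ℤ) ^ 2 := by
      push_cast; ring
    rw [e1, e2, dvd_add_sq, sq_dvd_add_sq, intCast_add_sq]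
  · unfold T2
    rw [nat_dvd_add_sq, nat_sq_dvd_add_sq]
  · rfl

theorem g_b (s : ℤ) (p d a b : ℕ) : g s p d a (b + p ^ 2) = g s p d a b := by
  apply g_congr
  · rfl
  · unfold T1
    have e1 : ((b + p ^ 2 : ℕ) : ℤ) * ((d : ℤ) - a) + 1 =
        ((b : ℤ) * ((d : ℤ) - a) + 1) + ((d : ℤ) - a) * (p : ℤ) ^ 2 := by push_cast; ring
    rw [e1, dvd_add_sq, sq_dvd_add_sq]
  · unfold T2
    have e1 : s * (((b + p ^ 2 : ℕ) : ℤ) * d + 1) =
        s * ((b : ℤ) * d + 1) + (s * d) * (p : ℤ) ^ 2 := by push_cast; ring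
    rw [e1, intCast_add_sq]
  · exact nat_dvd_add_sq p b

theorem g_lin (s : ℤ) {p : ℕ} (hp : p.Prime) (d a b : ℕ) :
    ∑ t ∈ range (p ^ 2), (1 - g s p d a (b + d * t)) = ∑ b ∈ range (p ^ 2), (1 - g s p d a b) := by
  by_cases hd : p ∣ d
  · have h : ∀ n : ℕ, g s p d a n = 1 / 2 := by
      intro n; unfold g; rw [if_pos hd]
    simp only [h]
  · have : NeZero (p ^ 2) := ⟨pow_ne_zero 2 hp.ne_zero⟩
    -- the function factors through `ZMod (p^2)`
    have hper : ∀ n k : ℕ, g s p d a (n + k * p ^ 2) = g s p d a n := by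
      intro n k
      induction k with
      | zero => simp
      | succ k ih =>
        have : n + (k + 1) * p ^ 2 = (n + k * p ^ 2) + p ^ 2 := by ring
        rw [this, g_b, ih]
    have hmod : ∀ n : ℕ, g s p d a n = g s p d a (n % p ^ 2) := by
      intro n
      conv_lhs => rw [← Nat.mod_add_div n (p ^ 2), mul_comm (p ^ 2)]
      exact hper _ _
    set F : ZMod (p ^ 2) → ℝ := fun x => 1 - g s p d a x.val with hF
    have hF2 : ∀ n : ℕ, 1 - g s p d a n = F (n : ZMod (p ^ 2)) := by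
      intro n
      rw [hF]
      simp only
      rw [ZMod.val_natCast, ← hmod]
    have hunit : IsUnit ((d : ZMod (p ^ 2))) := by
      have := isUnit_of_not_dvd hp (u := (d : ℤ)) (by rwa [Int.natCast_dvd_natCast])
      simpa using this
    have h1 : ∀ t ∈ range (p ^ 2), (1 - g s p d a (b + d * t)) =
        (fun x : ZMod (p ^ 2) => F ((d : ZMod (p ^ 2)) * x + (b : ZMod (p ^ 2)))) (t : ZMod (p ^ 2)) := by
      intro t _
      rw [hF2]
      simp only
      congr 1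
      push_cast
      ring
    have h2 : ∀ t ∈ range (p ^ 2), (1 - g s p d a t) = F (t : ZMod (p ^ 2)) := fun t _ => hF2 t
    rw [Finset.sum_congr rfl h1, Finset.sum_congr rfl h2, sum_range_zmod _ F,
      sum_range_zmod _ (fun x : ZMod (p ^ 2) => F ((d : ZMod (p ^ 2)) * x + (b : ZMod (p ^ 2)))),
      sum_affine _ _ _ hunit F]

/-- splitting the sum over `d` -/
lemma eta_split {s : ℤ} {p : ℕ} (hp : p.Prime) :
    eta s p * ((p : ℝ) ^ 2) ^ 3 = ∑ d ∈ range (p ^ 2), (if p ∣ d then (p : ℝ) ^ 4 / 2 else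
      ∑ a ∈ range (p ^ 2), ∑ b ∈ range (p ^ 2), (1 - g s p d a b)) := by
  have hp0 : (0 : ℝ) < p := by exact_mod_cast hp.pos
  unfold eta
  rw [div_mul_cancel₀ _ (by positivity)]
  refine Finset.sum_congr rfl fun d _ => ?_
  split_ifs with hd
  · have h : ∀ a b : ℕ, 1 - g s p d a b = 1 / 2 := by
      intro a b; unfold g; rw [if_pos hd]; norm_num
    simp only [h, Finset.sum_const, Finset.card_range, nsmul_eq_mul]
    push_cast
    ring
  · rfl

lemma sum_dd {p : ℕ} (hp : p.Prime) (x y : ℝ) :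
    ∑ d ∈ range (p ^ 2), (if p ∣ d then x else y) = p * x + ((p : ℝ) ^ 2 - p) * y := by
  have h : ∀ d ∈ range (p ^ 2), (if p ∣ d then x else y) = ind (p ∣ d) * (x - y) + y := by
    intro d _
    split_ifs with h
    · rw [ind_true h]; ring
    · rw [ind_false h]; ring
  rw [Finset.sum_congr rfl h, Finset.sum_add_distrib, ← Finset.sum_mul, sum_dvd hp,
    Finset.sum_const, Finset.card_range, nsmul_eq_mul]
  push_cast
  ring

theorem eta_lower (s : ℤ) (hs : s = 1 ∨ s = -1) {p : ℕ} (hp : p.Prime) (hp5 : 5 ≤ p) :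
    2 / (p : ℝ) - 5 / (p : ℝ) ^ 2 ≤ eta s p := by
  have hp0 : (0 : ℝ) < p := by exact_mod_cast hp.pos
  have hp5' : (5 : ℝ) ≤ p := by exact_mod_cast hp5
  have hp2 : p ≠ 2 := by omega
  have h1 : ∑ d ∈ range (p ^ 2), (if p ∣ d then (p : ℝ) ^ 4 / 2 else
      (p : ℝ) * (p - 1) * (3 * p - 4) / 2) ≤ eta s p * ((p : ℝ) ^ 2) ^ 3 := by
    rw [eta_split hp]
    refine Finset.sum_le_sum fun d _ => ?_
    split_ifs with hd
    · exact le_rfl
    · have h2 : ∑ a ∈ range (p ^ 2), ∑ b ∈ range (p ^ 2),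
          (1 / 2 * ind (p ∣ b ∧ ¬ p ∣ a) + ind (T1 s p d a b) + ind (T2 s p d a b)) ≤
          ∑ a ∈ range (p ^ 2), ∑ b ∈ range (p ^ 2), (1 - g s p d a b) :=
        Finset.sum_le_sum fun a _ => Finset.sum_le_sum fun b _ => one_sub_g_lower hp hd
      refine le_trans ?_ h2
      simp only [Finset.sum_add_distrib, ← Finset.mul_sum]
      rw [sum_b0 hp, sum_T2 hp hp2 hs hd]
      have h3 := sum_T1 hp hp2 hs hd
      nlinarith
  rw [sum_dd hp] at h1
  have h4 : 2 / (p : ℝ) - 5 / (p : ℝ) ^ 2 = (2 * (p : ℝ) ^ 5 - 5 * (p : ℝ) ^ 4) / ((p : ℝ) ^ 2) ^ 3 := by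
    field_simp
  rw [h4, div_le_iff₀ (by positivity)]
  refine le_trans ?_ h1
  have h5 : 0 ≤ (p : ℝ) ^ 2 * (11 * p - 4) := by
    have : 0 ≤ 11 * (p : ℝ) - 4 := by linarith
    positivity
  nlinarith

theorem eta_upper (s : ℤ) {p : ℕ} (hp : p.Prime) (hp5 : 5 ≤ p) :
    eta s p ≤ 3 / (p : ℝ) := by
  have hp0 : (0 : ℝ) < p := by exact_mod_cast hp.pos
  have hp5' : (5 : ℝ) ≤ p := by exact_mod_cast hp5
  have h1 : eta s p * ((p : ℝ) ^ 2) ^ 3 ≤ ∑ d ∈ range (p ^ 2), (if p ∣ d then (p : ℝ) ^ 4 / 2 else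
      5 / 2 * (p : ℝ) ^ 3) := by
    rw [eta_split hp]
    refine Finset.sum_le_sum fun d _ => ?_
    split_ifs with hd
    · exact le_rfl
    · have h2 : ∑ a ∈ range (p ^ 2), ∑ b ∈ range (p ^ 2), (1 - g s p d a b) ≤
          ∑ a ∈ range (p ^ 2), ∑ b ∈ range (p ^ 2),
          (1 / 2 * ind (p ∣ b) + ind ((p : ℤ) ∣ (b : ℤ) * ((d : ℤ) - a) + 1) + ind (p ∣ a)) := by
        refine Finset.sum_le_sum fun a _ => Finset.sum_le_sum fun b _ =>
          (one_sub_g_upper hd).trans ?_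
        have i1 : ind (T1 s p d a b) ≤ ind ((p : ℤ) ∣ (b : ℤ) * ((d : ℤ) - a) + 1) :=
          ind_mono fun h => ((T1_iff hd).1 h).2.1
        have i2 : ind (T2 s p d a b) ≤ ind (p ∣ a) := ind_mono fun h => ((T2_iff hd).1 h).1.1
        linarith
      refine h2.trans ?_
      have h3 : ∀ a ∈ range (p ^ 2), ∑ b ∈ range (p ^ 2),
          (1 / 2 * ind (p ∣ b) + ind ((p : ℤ) ∣ (b : ℤ) * ((d : ℤ) - a) + 1) + ind (p ∣ a)) ≤
          3 / 2 * p + (p : ℝ) ^ 2 * ind (p ∣ a) := by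
        intro a _
        rw [Finset.sum_add_distrib, Finset.sum_add_distrib, ← Finset.mul_sum, sum_dvd hp,
          Finset.sum_const, Finset.card_range, nsmul_eq_mul]
        have := sum_lin_le hp ((d : ℤ) - a)
        push_cast
        linarith
      refine (Finset.sum_le_sum h3).trans (le_of_eq ?_)
      have e5 : ∑ a ∈ range (p ^ 2), (p : ℝ) ^ 2 * ind (p ∣ a) = (p : ℝ) ^ 2 * p := by
        rw [← Finset.mul_sum, sum_dvd hp]
      rw [Finset.sum_add_distrib, e5, Finset.sum_const,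
        Finset.card_range, nsmul_eq_mul]
      push_cast
      ring
  rw [sum_dd hp] at h1
  rw [le_div_iff₀ hp0]
  have h2 : (p : ℝ) * ((p : ℝ) ^ 4 / 2) + ((p : ℝ) ^ 2 - p) * (5 / 2 * (p : ℝ) ^ 3) ≤
      3 * (p : ℝ) ^ 5 := by
    have : 0 ≤ (p : ℝ) ^ 4 := by positivity
    nlinarith
  have h3 : eta s p * p * (p : ℝ) ^ 5 ≤ 3 * (p : ℝ) ^ 5 := by
    calc eta s p * p * (p : ℝ) ^ 5 = eta s p * ((p : ℝ) ^ 2) ^ 3 := by ring
      _ ≤ _ := h1.trans h2
  exact le_of_mul_le_mul_right h3 (by positivity)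

end Pool.Agent.H177R2.SD
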