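import Pool.Agent.H177R2.SD.Defs
import Pool.Agent.Helper256.KM.Mertens

/-!
Mertens bounds for the sieving primes `PR r`.
-/

set_option autoImplicit false

namespace Pool.Agent.H177R2.SD

open Finset Filter Topology

theorem mert_upper : ∃ C : ℝ, ∀ r : ℕ, 1 ≤ r → ∑ p ∈ PR r, (1 : ℝ) / p ≤ r * Real.log 2 + C := by
  obtain ⟨C, hC⟩ := Pool.Agent.Helper256.KM.mertens_inv
  have hC0 : 0 ≤ C := (abs_nonneg _).trans (hC 3 le_rfl)
  refine ⟨C, fun r hr => ?_⟩
  have hl2 : 0 < Real.log 2 := Real.log_pos (by norm_num)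
  have hr0 : (0 : ℝ) < r := by exact_mod_cast hr
  have hr1 : (1 : ℝ) ≤ r := by exact_mod_cast hr
  by_cases hy : yy r < 3
  · have : PR r = ∅ := by
      unfold PR PP
      rw [Finset.Ioc_eq_empty (by omega)]
      simp
    rw [this, sum_empty]
    positivity
  · push Not at hy
    have h1 := (abs_le.mp (hC (yy r) hy)).2
    have h2 : ∑ p ∈ PR r, (1 : ℝ) / p ≤ ∑ p ∈ (Finset.Icc 1 (yy r)).filter Nat.Prime, (1 : ℝ) / p := by
      refine sum_le_sum_of_subset_of_nonneg ?_ (fun p _ _ => by positivity)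
      intro p hp
      unfold PR PP at hp
      rw [mem_filter, mem_Ioc] at hp
      rw [mem_filter, mem_Icc]
      exact ⟨⟨by omega, hp.1.2⟩, hp.2⟩
    have hy3 : (3 : ℝ) ≤ yy r := by exact_mod_cast hy
    have h3 : Real.log (yy r) ≤ (2 : ℝ) ^ r / (72 * r) := by
      have h4 : (yy r : ℝ) ≤ Real.exp ((2 : ℝ) ^ r / (72 * r)) := Nat.floor_le (Real.exp_pos _).le
      have := Real.log_le_log (by linarith) h4
      rwa [Real.log_exp] at this
    have h5 : (2 : ℝ) ^ r / (72 * r) ≤ 2 ^ r := by
      apply div_le_self (by positivity)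
      linarith
    have h6 : 0 < Real.log (yy r) := Real.log_pos (by linarith)
    have h7 : Real.log (Real.log (yy r)) ≤ r * Real.log 2 := by
      rw [← Real.log_pow]
      exact Real.log_le_log h6 (h3.trans h5)
    linarith

theorem mert_lower : ∃ C : ℝ, ∀ r : ℕ, 1 ≤ r →
    r * Real.log 2 - Real.log r - C ≤ ∑ p ∈ PR r, (1 : ℝ) / p := by
  obtain ⟨C, hC⟩ := Pool.Agent.Helper256.KM.mertens_inv
  have hC0 : 0 ≤ C := (abs_nonneg _).trans (hC 3 le_rfl)
  set C10 : ℝ := ∑ p ∈ (Finset.Icc 1 10).filter Nat.Prime, (1 : ℝ) / ((p : ℕ) : ℝ) with hC10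
  have hC10' : 0 ≤ C10 := sum_nonneg (fun p _ => by positivity)
  refine ⟨C + C10 + Real.log 216, fun r hr => ?_⟩
  have hl2 : 0 < Real.log 2 := Real.log_pos (by norm_num)
  have hr0 : (0 : ℝ) < r := by exact_mod_cast hr
  set x : ℝ := (2 : ℝ) ^ r / (72 * r) with hx
  have hx0 : 0 < x := by positivity
  have hlogx : Real.log x = r * Real.log 2 - Real.log r - Real.log 72 := by
    rw [hx, Real.log_div (by positivity) (by positivity), Real.log_pow,
      Real.log_mul (by norm_num) (by positivity)]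
    ring
  have h216 : Real.log 216 = Real.log 72 + Real.log 3 := by
    rw [← Real.log_mul (by norm_num) (by norm_num)]; norm_num
  by_cases h3 : x < 3
  · have : Real.log x < Real.log 3 := Real.log_lt_log hx0 h3
    have h0 : 0 ≤ ∑ p ∈ PR r, (1 : ℝ) / p := sum_nonneg (fun p _ => by positivity)
    linarith
  · push Not at h3
    have hexp : (20 : ℝ) ≤ Real.exp x := by
      have h1 : Real.exp 3 ≤ Real.exp x := Real.exp_le_exp.mpr h3
      have h2 : (2.7182818283 : ℝ) < Real.exp 1 := Real.exp_one_gt_d9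
      have h4 : Real.exp 3 = Real.exp 1 ^ 3 := by
        rw [← Real.exp_nat_mul]; norm_num
      have h5 : (2.7182818283 : ℝ) ^ 3 ≤ Real.exp 1 ^ 3 := pow_le_pow_left₀ (by norm_num) h2.le 3
      have h6 : (20 : ℝ) ≤ (2.7182818283 : ℝ) ^ 3 := by norm_num
      linarith
    have hyf : Real.exp x - 1 < (yy r : ℝ) := by
      have := Nat.lt_floor_add_one (Real.exp x)
      unfold yy
      rw [← hx]
      linarith
    have hy19 : (19 : ℝ) < yy r := by linarith
    have hy19' : 19 < yy r := by exact_mod_cast hy19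
    have h1 := (abs_le.mp (hC (yy r) (by omega))).1
    have h2 : ∑ p ∈ (Finset.Icc 1 (yy r)).filter Nat.Prime, (1 : ℝ) / p
        = C10 + ∑ p ∈ PR r, (1 : ℝ) / p := by
      rw [hC10, ← sum_union]
      · apply sum_congr _ (fun _ _ => rfl)
        ext p
        unfold PR PP
        rw [mem_union, mem_filter, mem_filter, mem_filter, mem_Icc, mem_Icc, mem_Ioc]
        constructor
        · rintro ⟨⟨h1, h2⟩, h3⟩
          by_cases hp : p ≤ 10
          · left; exact ⟨⟨h1, hp⟩, h3⟩
          · right; exact ⟨⟨by omega, h2⟩, h3⟩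
        · rintro (⟨⟨h1, h2⟩, h3⟩ | ⟨⟨h1, h2⟩, h3⟩)
          · exact ⟨⟨h1, by omega⟩, h3⟩
          · exact ⟨⟨by omega, h2⟩, h3⟩
      · rw [disjoint_left]
        intro p hp hp'
        unfold PR PP at hp'
        rw [mem_filter, mem_Icc] at hp
        rw [mem_filter, mem_Ioc] at hp'
        omega
    have h3' : x / 2 ≤ Real.log (yy r) := by
      have ha : Real.exp x / 2 ≤ (yy r : ℝ) := by linarith
      have hb := Real.log_le_log (by positivity) ha
      rw [Real.log_div (by positivity) (by norm_num), Real.log_exp] at hb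
      have : Real.log 2 < 0.6931471808 := Real.log_two_lt_d9
      linarith
    have h4 : Real.log x - Real.log 2 ≤ Real.log (Real.log (yy r)) := by
      rw [← Real.log_div hx0.ne' (by norm_num)]
      exact Real.log_le_log (by positivity) h3'
    have h23 : Real.log 2 ≤ Real.log 3 := Real.log_le_log (by norm_num) (by norm_num)
    linarith

end Pool.Agent.H177R2.SD
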