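import Pool.Agent.H177R2.SD.Err
import Pool.Agent.H177R2.SD.Brun
import Pool.Agent.H177R2.SD.Avg
import Pool.Agent.H177R2.SD.Mert
import Pool.Agent.H177R2.SD.Local

/-!
Block estimate (helper862).
-/

set_option autoImplicit false

namespace Pool.Agent.H177R2.SD

open Finset Filter Topology

theorem coprime_pow_PR {r : ℕ} {S : Finset ℕ} (hS : S ⊆ PR r) (k : ℕ) :
    (S : Set ℕ).Pairwise fun p p' => Nat.Coprime (p ^ k) (p' ^ k) := fun _ hp _ hq hne =>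
  Nat.Coprime.pow k k ((Nat.coprime_primes (mem_PR (hS hp)).1 (mem_PR (hS hq)).1).2 hne)

theorem approx3 {r : ℕ} (s : ℤ) (M D A T : ℕ) (b0 : ℕ → ℕ → ℕ) {S : Finset ℕ} (hS : S ⊆ PR r)
    (hc : S.card ≤ 2 * (6 * r)) :
    |∑ x ∈ (Ico M (M + D)) ×ˢ (range A) ×ˢ (range T),
        ∏ p ∈ S, (1 - g s p x.1 x.2.1 (b0 x.1 x.2.1 + x.1 * x.2.2))
      - (D * A * T : ℝ) * ∏ p ∈ S, eta s p|
      ≤ ((yy r : ℝ) + 1) ^ (24 * r) * (D * A + D * T + A * T) := by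
  have h := avg3 S (fun p => p ^ 2) (fun p hp => pow_pos (mem_PR (hS hp)).1.pos 2)
    (coprime_pow_PR hS 2) (fun p d a b => 1 - g s p d a b)
    (fun p _ d a b => by
      have := g_mem s p d a b
      constructor <;> linarith)
    (fun p _ d a b => by simp only [g_d])
    (fun p _ d a b => by simp only [g_a])
    (fun p _ d a b => by simp only [g_b])
    (fun p hp d a b => g_lin s (mem_PR (hS hp)).1 d a b) b0 M D A T
  simp only [Nat.cast_pow] at h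
  have e : ∀ p ∈ S, (∑ d ∈ range (p ^ 2), ∑ a ∈ range (p ^ 2), ∑ b ∈ range (p ^ 2),
    (1 - g s p d a b)) / ((p : ℝ) ^ 2) ^ 3 = eta s p := fun p _ => rfl
  rw [prod_congr rfl e] at h
  refine h.trans ?_
  have h2 := prod_le hS hc 2
  have e2 : 2 * (12 * r) = 24 * r := by ring
  rw [e2] at h2
  exact mul_le_mul_of_nonneg_right h2 (by positivity)

theorem block : ∃ C : ℝ, ∃ r0 : ℕ, 0 < C ∧ 1 ≤ r0 ∧ ∀ r ≥ r0, ∀ s : ℤ, (s = 1 ∨ s = -1) →
    ∀ M D A T : ℕ,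
    2 ^ 2 ^ r ≤ D → 2 ^ 2 ^ r ≤ A → 2 ^ 2 ^ r ≤ T → ∀ b0 : ℕ → ℕ → ℕ,
    ∑ x ∈ (Ico M (M + D)) ×ˢ (range A) ×ˢ (range T),
      ∏ p ∈ PR r, g s p x.1 x.2.1 (b0 x.1 x.2.1 + x.1 * x.2.2)
      ≤ C * (r : ℝ) ^ 2 / 4 ^ r * (D * A * T) := by
  obtain ⟨C1, hup⟩ := mert_upper
  obtain ⟨C2, hlo⟩ := mert_lower
  obtain ⟨r1, hr1, herr⟩ := err_small
  refine ⟨Real.exp (2 * C2 + 1 / 2) + 2, max r1 ⌈4 * |C1|⌉₊, by positivity,
    hr1.trans (le_max_left _ _), ?_⟩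
  intro r hr s hs M D A T hD hA hT b0
  have hrr1 : r1 ≤ r := (le_max_left _ _).trans hr
  have hr0 : 1 ≤ r := hr1.trans hrr1
  have hrC : 4 * |C1| ≤ r :=
    (Nat.le_ceil _).trans (by exact_mod_cast (le_max_right _ _).trans hr)
  have hlog : Real.log 2 ≤ 0.7 := by linarith [Real.log_two_lt_d9]
  have hr0' : (1 : ℝ) ≤ r := by exact_mod_cast hr0
  have hp5 : ∀ p ∈ PR r, 5 ≤ p := fun p hp => by have := (mem_PR hp).2.1; omega
  have hpR : ∀ p ∈ PR r, (10 : ℝ) < p := fun p hp => by exact_mod_cast (mem_PR hp).2.1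
  have hη0 : ∀ p ∈ PR r, 2 / (p : ℝ) - 5 / (p : ℝ) ^ 2 ≤ eta s p := fun p hp =>
    eta_lower s hs (mem_PR hp).1 (hp5 p hp)
  have hη1 : ∀ p ∈ PR r, eta s p ≤ 3 / (p : ℝ) := fun p hp =>
    eta_upper s (mem_PR hp).1 (hp5 p hp)
  have hη : ∀ p ∈ PR r, 0 ≤ eta s p ∧ eta s p ≤ 1 := fun p hp => by
    have h0 := hpR p hp
    constructor
    · refine le_trans ?_ (hη0 p hp)
      have e : 2 / (p : ℝ) - 5 / (p : ℝ) ^ 2 = (2 * p - 5) / (p : ℝ) ^ 2 := by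
        field_simp
      rw [e]
      exact div_nonneg (by linarith) (by positivity)
    · refine (hη1 p hp).trans ?_
      rw [div_le_one (by linarith)]
      linarith
  have hb := brun ((Ico M (M + D)) ×ˢ (range A) ×ˢ (range T)) (PR r)
    (fun p x => 1 - g s p x.1 x.2.1 (b0 x.1 x.2.1 + x.1 * x.2.2)) (fun p => eta s p)
    (fun p _ x _ => by
      have := g_mem s p x.1 x.2.1 (b0 x.1 x.2.1 + x.1 * x.2.2)
      constructor <;> linarith) hη (6 * r) (D * A * T)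
    (((yy r : ℝ) + 1) ^ (24 * r) * (D * A + D * T + A * T)) (by positivity) (by positivity)
    (fun S hS hc => approx3 s M D A T b0 hS hc)
  simp only [sub_sub_cancel] at hb
  refine hb.trans ?_
  -- the three terms
  have s1 : ∑ p ∈ PR r, eta s p ≤ 3 * r := by
    have h1 : ∑ p ∈ PR r, eta s p ≤ 3 * ∑ p ∈ PR r, (1 : ℝ) / p := by
      rw [mul_sum]
      exact sum_le_sum fun p hp => (hη1 p hp).trans (le_of_eq (by ring))
    have h2 := hup r hr0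
    have h3 : r * Real.log 2 ≤ r * 0.7 := mul_le_mul_of_nonneg_left hlog (by linarith)
    have h4 := le_abs_self C1
    linarith
  have s2 : 2 * (r * Real.log 2 - Real.log r - C2) - 1 / 2 ≤ ∑ p ∈ PR r, eta s p := by
    have h1 : 2 * ∑ p ∈ PR r, (1 : ℝ) / p - 5 * ∑ p ∈ PR r, (1 : ℝ) / (p : ℝ) ^ 2
        ≤ ∑ p ∈ PR r, eta s p := by
      rw [mul_sum, mul_sum, ← sum_sub_distrib]
      exact sum_le_sum fun p hp => le_trans (le_of_eq (by ring)) (hη0 p hp)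
    have h2 := hlo r hr0
    have h3 := sum_inv_sq r
    linarith
  have t1 : ∏ p ∈ PR r, (1 - eta s p) ≤ Real.exp (2 * C2 + 1 / 2) * (r : ℝ) ^ 2 / 4 ^ r := by
    refine (prod_one_sub_le _ _ fun p hp => (hη p hp).2).trans ?_
    have h1 : -∑ p ∈ PR r, eta s p ≤ (2 * C2 + 1 / 2) + 2 * Real.log r - r * (2 * Real.log 2) := by
      linarith
    refine (Real.exp_le_exp.2 h1).trans (le_of_eq ?_)
    have e4 : (2 : ℝ) * Real.log 2 = Real.log 4 := by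
      rw [show (4 : ℝ) = 2 ^ 2 by norm_num, Real.log_pow]; norm_num
    have e5 : (2 : ℝ) * Real.log r = Real.log (r ^ 2) := by rw [Real.log_pow]; norm_num
    rw [e4, e5, Real.exp_sub, Real.exp_add, Real.exp_log (by positivity), Real.exp_nat_mul,
      Real.exp_log (by norm_num)]
  have t2 : (∑ p ∈ PR r, eta s p) ^ (2 * (6 * r) + 1) / (2 * (6 * r) + 1).factorial
      ≤ 1 / 4 ^ r := tail_small (sum_nonneg fun p hp => (hη p hp).1) s1
  have t3 : (((PR r).card : ℝ) + 1) ^ (2 * (6 * r))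
      * (((yy r : ℝ) + 1) ^ (24 * r) * (D * A + D * T + A * T)) ≤ 1 / 4 ^ r * (D * A * T) := by
    have h1 : (((PR r).card : ℝ) + 1) ^ (2 * (6 * r)) ≤ ((yy r : ℝ) + 1) ^ (12 * r) := by
      rw [show 2 * (6 * r) = 12 * r by ring]
      exact pow_le_pow_left₀ (by positivity) (by linarith [card_PR r]) _
    have hD' : (2 : ℝ) ^ 2 ^ r ≤ D := by exact_mod_cast hD
    have hA' : (2 : ℝ) ^ 2 ^ r ≤ A := by exact_mod_cast hA
    have hT' : (2 : ℝ) ^ 2 ^ r ≤ T := by exact_mod_cast hT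
    set E : ℝ := 2 ^ 2 ^ r with hE
    have hE0 : 0 < E := by positivity
    have h2 : ((D : ℝ) * A + D * T + A * T) * E ≤ 3 * (D * A * T) := by
      have a1 : (D : ℝ) * A * E ≤ D * A * T := by gcongr
      have a2 : (D : ℝ) * T * E ≤ D * T * A := by gcongr
      have a3 : (A : ℝ) * T * E ≤ A * T * D := by gcongr
      linarith
    have h3 := herr r hrr1
    have h4 : ((D : ℝ) * A + D * T + A * T) ≤ 3 * (D * A * T) / E := by
      rw [le_div_iff₀ hE0]; exact h2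
    calc (((PR r).card : ℝ) + 1) ^ (2 * (6 * r))
      * (((yy r : ℝ) + 1) ^ (24 * r) * (D * A + D * T + A * T))
        ≤ ((yy r : ℝ) + 1) ^ (12 * r) * (((yy r : ℝ) + 1) ^ (24 * r) * (3 * (D * A * T) / E)) := by
          gcongr
      _ = (3 * ((yy r : ℝ) + 1) ^ (36 * r) / E) * (D * A * T) := by
          rw [show 36 * r = 12 * r + 24 * r by ring, pow_add]
          ring
      _ ≤ 1 / 4 ^ r * (D * A * T) := by gcongr
  have hV : (0 : ℝ) ≤ D * A * T := by positivity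
  have h5 : (D * A * T : ℝ) * (∏ p ∈ PR r, (1 - eta s p)
      + (∑ p ∈ PR r, eta s p) ^ (2 * (6 * r) + 1) / (2 * (6 * r) + 1).factorial)
      ≤ D * A * T * (Real.exp (2 * C2 + 1 / 2) * (r : ℝ) ^ 2 / 4 ^ r + 1 / 4 ^ r) :=
    mul_le_mul_of_nonneg_left (add_le_add t1 t2) hV
  have h6 : (1 : ℝ) / 4 ^ r * (D * A * T) ≤ (r : ℝ) ^ 2 / 4 ^ r * (D * A * T) := by
    have : (1 : ℝ) ≤ (r : ℝ) ^ 2 := one_le_pow₀ hr0'
    gcongr
  refine (add_le_add h5 t3).trans ?_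
  have e : (D * A * T : ℝ) * (Real.exp (2 * C2 + 1 / 2) * (r : ℝ) ^ 2 / 4 ^ r + 1 / 4 ^ r)
      + 1 / 4 ^ r * (D * A * T) = Real.exp (2 * C2 + 1 / 2) * (r : ℝ) ^ 2 / 4 ^ r * (D * A * T)
        + 2 * (1 / 4 ^ r * (D * A * T)) := by ring
  have e' : (Real.exp (2 * C2 + 1 / 2) + 2) * (r : ℝ) ^ 2 / 4 ^ r * (D * A * T)
      = Real.exp (2 * C2 + 1 / 2) * (r : ℝ) ^ 2 / 4 ^ r * (D * A * T)
        + 2 * ((r : ℝ) ^ 2 / 4 ^ r * (D * A * T)) := by ring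
  rw [e, e']
  linarith

end Pool.Agent.H177R2.SD
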