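import Pool.Agent.H177R2.SD.Defs2
import Pool.Agent.H177R2.SD.Local

set_option autoImplicit false

open Finset

namespace Pool.Agent.H177R2.SD
namespace LocalAux

lemma g2_congr {s : ℤ} {p d a b d' a' b' : ℕ}
    (h1 : T1 s p d a b ↔ T1 s p d' a' b') (h2 : T2 s p d a b ↔ T2 s p d' a' b') :
    g2 s p d a b = g2 s p d' a' b' := by
  unfold g2
  by_cases c2 : T1 s p d a b ∨ T2 s p d a b
  · rw [if_pos c2, if_pos (Or.imp h1.1 h2.1 c2)]
  · rw [if_neg c2, if_neg (fun h => c2 (Or.imp h1.2 h2.2 h))]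

lemma g2_dvd {s : ℤ} {p d a b : ℕ} (hd : p ∣ d) : g2 s p d a b = 1 := by
  unfold g2
  rw [if_neg]
  rintro (h | h)
  · exact h.1 hd
  · exact h.1 hd

lemma one_sub_g2_lower {p : ℕ} {s : ℤ} {d a b : ℕ} (hd : ¬ p ∣ d) :
    ind (T1 s p d a b) + ind (T2 s p d a b) ≤ 1 - g2 s p d a b := by
  unfold g2
  by_cases h1 : T1 s p d a b
  · rw [if_pos (Or.inl h1), ind_true h1]
    have : ¬ T2 s p d a b := by
      intro h2
      exact (nonsq_ne ((T1_iff hd).1 h1).1).1 ((T2_iff hd).1 h2).1.1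
    rw [ind_false this]
    norm_num
  · by_cases h2 : T2 s p d a b
    · rw [if_pos (Or.inr h2), ind_false h1, ind_true h2]
      norm_num
    · rw [if_neg (by tauto), ind_false h1, ind_false h2]
      norm_num

lemma one_sub_g2_upper {p : ℕ} {s : ℤ} {d a b : ℕ} :
    1 - g2 s p d a b ≤ ind (T1 s p d a b) + ind (T2 s p d a b) := by
  unfold g2
  have i1 := ind_nonneg (T1 s p d a b)
  have i2 := ind_nonneg (T2 s p d a b)
  by_cases h : T1 s p d a b ∨ T2 s p d a b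
  · rw [if_pos h]
    rcases h with h | h
    · rw [ind_true h]; linarith
    · rw [ind_true h]; linarith
  · rw [if_neg h]
    linarith

end LocalAux

open LocalAux

theorem g2_mem (s : ℤ) (p d a b : ℕ) : 0 ≤ g2 s p d a b ∧ g2 s p d a b ≤ 1 := by
  unfold g2
  split_ifs <;> norm_num

theorem g2_d (s : ℤ) (p d a b : ℕ) : g2 s p (d + p ^ 2) a b = g2 s p d a b := by
  apply g2_congr
  · unfold T1
    rw [nat_dvd_add_sq]
    have e1 : (b : ℤ) * (((d + p ^ 2 : ℕ) : ℤ) - a) + 1 =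
        ((b : ℤ) * ((d : ℤ) - a) + 1) + b * (p : ℤ) ^ 2 := by push_cast; ring
    have e2 : s * ((a : ℤ) * ((a : ℤ) - ((d + p ^ 2 : ℕ) : ℤ))) =
        s * ((a : ℤ) * ((a : ℤ) - d)) + (-(s * a)) * (p : ℤ) ^ 2 := by push_cast; ring
    rw [e1, e2, dvd_add_sq, sq_dvd_add_sq, intCast_add_sq]
  · unfold T2
    rw [nat_dvd_add_sq]
    have e1 : s * ((b : ℤ) * ((d + p ^ 2 : ℕ) : ℤ) + 1) =
        s * ((b : ℤ) * d + 1) + (s * b) * (p : ℤ) ^ 2 := by push_cast; ring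
    rw [e1, intCast_add_sq]

theorem g2_a (s : ℤ) (p d a b : ℕ) : g2 s p d (a + p ^ 2) b = g2 s p d a b := by
  apply g2_congr
  · unfold T1
    have e1 : (b : ℤ) * ((d : ℤ) - ((a + p ^ 2 : ℕ) : ℤ)) + 1 =
        ((b : ℤ) * ((d : ℤ) - a) + 1) + (-b) * (p : ℤ) ^ 2 := by push_cast; ring
    have e2 : s * (((a + p ^ 2 : ℕ) : ℤ) * (((a + p ^ 2 : ℕ) : ℤ) - d)) =
        s * ((a : ℤ) * ((a : ℤ) - d)) + (s * (2 * a - d + (p : ℤ) ^ 2)) * (p : ℤ) ^ 2 := by
      push_cast; ring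
    rw [e1, e2, dvd_add_sq, sq_dvd_add_sq, intCast_add_sq]
  · unfold T2
    rw [nat_dvd_add_sq, nat_sq_dvd_add_sq]

theorem g2_b (s : ℤ) (p d a b : ℕ) : g2 s p d a (b + p ^ 2) = g2 s p d a b := by
  apply g2_congr
  · unfold T1
    have e1 : ((b + p ^ 2 : ℕ) : ℤ) * ((d : ℤ) - a) + 1 =
        ((b : ℤ) * ((d : ℤ) - a) + 1) + ((d : ℤ) - a) * (p : ℤ) ^ 2 := by push_cast; ring
    rw [e1, dvd_add_sq, sq_dvd_add_sq]
  · unfold T2
    have e1 : s * (((b + p ^ 2 : ℕ) : ℤ) * d + 1) =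
        s * ((b : ℤ) * d + 1) + (s * d) * (p : ℤ) ^ 2 := by push_cast; ring
    rw [e1, intCast_add_sq]

theorem g2_lin (s : ℤ) {p : ℕ} (hp : p.Prime) (d a b : ℕ) :
    ∑ t ∈ range (p ^ 2), (1 - g2 s p d a (b + d * t)) = ∑ b ∈ range (p ^ 2), (1 - g2 s p d a b) := by
  by_cases hd : p ∣ d
  · have h : ∀ n : ℕ, g2 s p d a n = 1 := fun n => g2_dvd hd
    simp only [h]
  · have : NeZero (p ^ 2) := ⟨pow_ne_zero 2 hp.ne_zero⟩
    -- the function factors through `ZMod (p^2)`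
    have hper : ∀ n k : ℕ, g2 s p d a (n + k * p ^ 2) = g2 s p d a n := by
      intro n k
      induction k with
      | zero => simp
      | succ k ih =>
        have : n + (k + 1) * p ^ 2 = (n + k * p ^ 2) + p ^ 2 := by ring
        rw [this, g2_b, ih]
    have hmod : ∀ n : ℕ, g2 s p d a n = g2 s p d a (n % p ^ 2) := by
      intro n
      conv_lhs => rw [← Nat.mod_add_div n (p ^ 2), mul_comm (p ^ 2)]
      exact hper _ _
    set F : ZMod (p ^ 2) → ℝ := fun x => 1 - g2 s p d a x.val with hF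
    have hF2 : ∀ n : ℕ, 1 - g2 s p d a n = F (n : ZMod (p ^ 2)) := by
      intro n
      rw [hF]
      simp only
      rw [ZMod.val_natCast, ← hmod]
    have hunit : IsUnit ((d : ZMod (p ^ 2))) := by
      have := isUnit_of_not_dvd hp (u := (d : ℤ)) (by rwa [Int.natCast_dvd_natCast])
      simpa using this
    have h1 : ∀ t ∈ range (p ^ 2), (1 - g2 s p d a (b + d * t)) =
        (fun x : ZMod (p ^ 2) => F ((d : ZMod (p ^ 2)) * x + (b : ZMod (p ^ 2)))) (t : ZMod (p ^ 2)) := by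
      intro t _
      rw [hF2]
      simp only
      congr 1
      push_cast
      ring
    have h2 : ∀ t ∈ range (p ^ 2), (1 - g2 s p d a t) = F (t : ZMod (p ^ 2)) := fun t _ => hF2 t
    rw [Finset.sum_congr rfl h1, Finset.sum_congr rfl h2, sum_range_zmod _ F,
      sum_range_zmod _ (fun x : ZMod (p ^ 2) => F ((d : ZMod (p ^ 2)) * x + (b : ZMod (p ^ 2)))),
      sum_affine _ _ _ hunit F]

/-- splitting the sum over `d` -/
lemma eta2_split {s : ℤ} {p : ℕ} (hp : p.Prime) :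
    eta2 s p * ((p : ℝ) ^ 2) ^ 3 = ∑ d ∈ range (p ^ 2), (if p ∣ d then 0 else
      ∑ a ∈ range (p ^ 2), ∑ b ∈ range (p ^ 2), (1 - g2 s p d a b)) := by
  have hp0 : (0 : ℝ) < p := by exact_mod_cast hp.pos
  unfold eta2
  rw [div_mul_cancel₀ _ (by positivity)]
  refine Finset.sum_congr rfl fun d _ => ?_
  split_ifs with hd
  · have h : ∀ a b : ℕ, 1 - g2 s p d a b = 0 := by
      intro a b; rw [g2_dvd hd]; norm_num
    simp only [h, Finset.sum_const_zero]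
  · rfl

theorem eta2_lower (s : ℤ) (hs : s = 1 ∨ s = -1) {p : ℕ} (hp : p.Prime) (hp5 : 5 ≤ p) :
    1 / (p : ℝ) - 5 / (p : ℝ) ^ 2 ≤ eta2 s p := by
  have hp0 : (0 : ℝ) < p := by exact_mod_cast hp.pos
  have hp5' : (5 : ℝ) ≤ p := by exact_mod_cast hp5
  have hp2 : p ≠ 2 := by omega
  have h1 : ∑ d ∈ range (p ^ 2), (if p ∣ d then 0 else
      (p : ℝ) * (p - 1) * (p - 2)) ≤ eta2 s p * ((p : ℝ) ^ 2) ^ 3 := by
    rw [eta2_split hp]
    refine Finset.sum_le_sum fun d _ => ?_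
    split_ifs with hd
    · exact le_rfl
    · have h2 : ∑ a ∈ range (p ^ 2), ∑ b ∈ range (p ^ 2),
          (ind (T1 s p d a b) + ind (T2 s p d a b)) ≤
          ∑ a ∈ range (p ^ 2), ∑ b ∈ range (p ^ 2), (1 - g2 s p d a b) :=
        Finset.sum_le_sum fun a _ => Finset.sum_le_sum fun b _ => one_sub_g2_lower hd
      refine le_trans ?_ h2
      simp only [Finset.sum_add_distrib]
      rw [sum_T2 hp hp2 hs hd]
      have h3 := sum_T1 hp hp2 hs hd
      nlinarith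
  rw [sum_dd hp] at h1
  have h4 : 1 / (p : ℝ) - 5 / (p : ℝ) ^ 2 = ((p : ℝ) ^ 5 - 5 * (p : ℝ) ^ 4) / ((p : ℝ) ^ 2) ^ 3 := by
    field_simp
  rw [h4, div_le_iff₀ (by positivity)]
  refine le_trans ?_ h1
  have h5 : 0 ≤ (p : ℝ) ^ 2 * ((p : ℝ) ^ 2 + 5 * p - 2) := by
    have : 0 ≤ (p : ℝ) ^ 2 + 5 * p - 2 := by nlinarith
    positivity
  nlinarith

theorem eta2_upper (s : ℤ) {p : ℕ} (hp : p.Prime) (hp5 : 5 ≤ p) :
    eta2 s p ≤ 3 / (p : ℝ) := by
  have hp0 : (0 : ℝ) < p := by exact_mod_cast hp.pos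
  have hp5' : (5 : ℝ) ≤ p := by exact_mod_cast hp5
  have h1 : eta2 s p * ((p : ℝ) ^ 2) ^ 3 ≤ ∑ d ∈ range (p ^ 2), (if p ∣ d then 0 else
      2 * (p : ℝ) ^ 3) := by
    rw [eta2_split hp]
    refine Finset.sum_le_sum fun d _ => ?_
    split_ifs with hd
    · exact le_rfl
    · have h2 : ∑ a ∈ range (p ^ 2), ∑ b ∈ range (p ^ 2), (1 - g2 s p d a b) ≤
          ∑ a ∈ range (p ^ 2), ∑ b ∈ range (p ^ 2),
          (ind ((p : ℤ) ∣ (b : ℤ) * ((d : ℤ) - a) + 1) + ind (p ∣ a)) := by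
        refine Finset.sum_le_sum fun a _ => Finset.sum_le_sum fun b _ =>
          one_sub_g2_upper.trans ?_
        have i1 : ind (T1 s p d a b) ≤ ind ((p : ℤ) ∣ (b : ℤ) * ((d : ℤ) - a) + 1) :=
          ind_mono fun h => ((T1_iff hd).1 h).2.1
        have i2 : ind (T2 s p d a b) ≤ ind (p ∣ a) := ind_mono fun h => ((T2_iff hd).1 h).1.1
        linarith
      refine h2.trans ?_
      have h3 : ∀ a ∈ range (p ^ 2), ∑ b ∈ range (p ^ 2),
          (ind ((p : ℤ) ∣ (b : ℤ) * ((d : ℤ) - a) + 1) + ind (p ∣ a)) ≤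
          p + (p : ℝ) ^ 2 * ind (p ∣ a) := by
        intro a _
        rw [Finset.sum_add_distrib,
          Finset.sum_const, Finset.card_range, nsmul_eq_mul]
        have := sum_lin_le hp ((d : ℤ) - a)
        push_cast
        linarith
      refine (Finset.sum_le_sum h3).trans (le_of_eq ?_)
      have e5 : ∑ a ∈ range (p ^ 2), (p : ℝ) ^ 2 * ind (p ∣ a) = (p : ℝ) ^ 2 * p := by
        rw [← Finset.mul_sum, sum_dvd hp]
      rw [Finset.sum_add_distrib, e5, Finset.sum_const,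
        Finset.card_range, nsmul_eq_mul]
      push_cast
      ring
  rw [sum_dd hp] at h1
  rw [le_div_iff₀ hp0]
  have h2 : (p : ℝ) * 0 + ((p : ℝ) ^ 2 - p) * (2 * (p : ℝ) ^ 3) ≤
      3 * (p : ℝ) ^ 5 := by
    have : 0 ≤ (p : ℝ) ^ 4 := by positivity
    nlinarith
  have h3 : eta2 s p * p * (p : ℝ) ^ 5 ≤ 3 * (p : ℝ) ^ 5 := by
    calc eta2 s p * p * (p : ℝ) ^ 5 = eta2 s p * ((p : ℝ) ^ 2) ^ 3 := by ring
      _ ≤ _ := h1.trans h2
  exact le_of_mul_le_mul_right h3 (by positivity)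

end Pool.Agent.H177R2.SD
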