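import Pool.Agent.H177R2.SD.BlockA
import Pool.Agent.H177R2.SD.Local2

/-!
Block estimate for the weight `g2`.
-/

set_option autoImplicit false

namespace Pool.Agent.H177R2.SD

open Finset Filter Topology

theorem block2 : ∃ C : ℝ, ∃ r0 : ℕ, 0 < C ∧ 1 ≤ r0 ∧ ∀ r ≥ r0, ∀ s : ℤ, (s = 1 ∨ s = -1) → ∀ M D A T : ℕ,
    2 ^ 2 ^ r ≤ D → 2 ^ 2 ^ r ≤ A → 2 ^ 2 ^ r ≤ T → ∀ b0 : ℕ → ℕ → ℕ,
    ∑ x ∈ (Ico M (M + D)) ×ˢ (range A) ×ˢ (range T),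
      ∏ p ∈ PR r, g2 s p x.1 x.2.1 (b0 x.1 x.2.1 + x.1 * x.2.2)
      ≤ C * (r : ℝ) / 2 ^ r * (D * A * T) := by
  obtain ⟨C, r0, hC, hr0, h⟩ := block_core g2 eta2 1 (by norm_num) (fun s p => rfl) g2_mem g2_d g2_a g2_b
    (fun s p hp => g2_lin s hp) (fun s p hp hp5 => eta2_upper s hp hp5)
    (fun s hs p hp hp5 => by have := eta2_lower s hs hp hp5; push_cast; exact this)
  refine ⟨C, r0, hC, hr0, ?_⟩
  intro r hr s hs M D A T hD hA hT b0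
  refine (h r hr s hs M D A T hD hA hT b0).trans (le_of_eq ?_)
  rw [pow_one]
  ring

end Pool.Agent.H177R2.SD
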