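import Pool.Agent.H177R2.SD.BlockGen
import Pool.Agent.H177R2.SD.Local

/-!
Block estimate for the weight `g`.
-/

set_option autoImplicit false

namespace Pool.Agent.H177R2.SD

open Finset Filter Topology

theorem ratio_le (r : ℕ) (hr : 1 ≤ r) (κ : ℕ) (hκ : κ ≤ 2) : (1 : ℝ) / 4 ^ r ≤ ((r : ℝ) / 2 ^ r) ^ κ := by
  have h1 : (1 : ℝ) / 2 ^ r ≤ (r : ℝ) / 2 ^ r := by
    apply div_le_div_of_nonneg_right _ (by positivity)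
    exact_mod_cast hr
  have h2 : ((1 : ℝ) / 2 ^ r) ^ κ ≤ ((r : ℝ) / 2 ^ r) ^ κ := pow_le_pow_left₀ (by positivity) h1 _
  refine le_trans ?_ h2
  have h3 : (1 : ℝ) / 4 ^ r = ((1 : ℝ) / 2 ^ r) ^ 2 := by
    rw [div_pow, one_pow, ← pow_mul, mul_comm r 2, pow_mul]; norm_num
  rw [h3]
  apply pow_le_pow_of_le_one (by positivity) _ hκ
  rw [div_le_one (by positivity)]
  exact one_le_pow₀ (by norm_num)

theorem block_core (G : ℤ → ℕ → ℕ → ℕ → ℕ → ℝ) (η : ℤ → ℕ → ℝ) (κ : ℕ) (hκ : κ ≤ 2)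
    (hη : ∀ s p, η s p = (∑ d ∈ range (p ^ 2), ∑ a ∈ range (p ^ 2), ∑ b ∈ range (p ^ 2), (1 - G s p d a b))
      / ((p : ℝ) ^ 2) ^ 3)
    (h01 : ∀ s p d a b, 0 ≤ G s p d a b ∧ G s p d a b ≤ 1)
    (hd : ∀ s p d a b, G s p (d + p ^ 2) a b = G s p d a b)
    (ha : ∀ s p d a b, G s p d (a + p ^ 2) b = G s p d a b)
    (hb : ∀ s p d a b, G s p d a (b + p ^ 2) = G s p d a b)
    (hlin : ∀ s p, p.Prime → ∀ d a b, ∑ t ∈ range (p ^ 2), (1 - G s p d a (b + d * t))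
      = ∑ b ∈ range (p ^ 2), (1 - G s p d a b))
    (hup : ∀ s p, p.Prime → 5 ≤ p → η s p ≤ 3 / (p : ℝ))
    (hlow : ∀ s : ℤ, (s = 1 ∨ s = -1) → ∀ p : ℕ, p.Prime → 5 ≤ p → (κ : ℝ) / p - 5 / (p : ℝ) ^ 2 ≤ η s p) :
    ∃ C : ℝ, ∃ r0 : ℕ, 0 < C ∧ 1 ≤ r0 ∧ ∀ r ≥ r0, ∀ s : ℤ, (s = 1 ∨ s = -1) → ∀ M D A T : ℕ,
    2 ^ 2 ^ r ≤ D → 2 ^ 2 ^ r ≤ A → 2 ^ 2 ^ r ≤ T → ∀ b0 : ℕ → ℕ → ℕ,
    ∑ x ∈ (Ico M (M + D)) ×ˢ (range A) ×ˢ (range T),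
      ∏ p ∈ PR r, G s p x.1 x.2.1 (b0 x.1 x.2.1 + x.1 * x.2.2)
      ≤ C * ((r : ℝ) / 2 ^ r) ^ κ * (D * A * T) := by
  obtain ⟨C1, hupM⟩ := mert_upper
  obtain ⟨C2, hloM⟩ := mert_lower
  obtain ⟨r1, hr1, herr⟩ := err_small
  refine ⟨Real.exp (κ * C2 + 1 / 2) + 2, max r1 ⌈4 * |C1|⌉₊, by positivity,
    hr1.trans (le_max_left _ _), ?_⟩
  intro r hr s hs M D A T hD hA hT b0
  have hrr1 : r1 ≤ r := (le_max_left _ _).trans hr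
  have hr0 : 1 ≤ r := hr1.trans hrr1
  have hrC : 4 * |C1| ≤ r :=
    (Nat.le_ceil _).trans (by exact_mod_cast (le_max_right _ _).trans hr)
  have hlog : Real.log 2 ≤ 0.7 := by linarith [Real.log_two_lt_d9]
  have hr0' : (1 : ℝ) ≤ r := by exact_mod_cast hr0
  have h2 := hupM r hr0
  have h3 : r * Real.log 2 ≤ r * 0.7 := mul_le_mul_of_nonneg_left hlog (by linarith)
  have h4 := le_abs_self C1
  have hmert : ∑ p ∈ PR r, (1 : ℝ) / p ≤ r := by linarith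
  have hmain := block_gen (G s) (η s) (hη s) (h01 s) (hd s) (ha s) (hb s) (hlin s) (hup s) hr0
    (herr r hrr1) hmert hD hA hT b0 (M := M)
  refine hmain.trans ?_
  have h1 : ∀ p ∈ PR r, η s p ≤ 1 := by
    intro p hp
    have h5 := hup s p (mem_PR hp).1 (by have := (mem_PR hp).2.1; omega)
    refine h5.trans ?_
    have : (10 : ℝ) < p := by exact_mod_cast (mem_PR hp).2.1
    rw [div_le_one (by linarith)]; linarith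
  have h5 := prod_eta_le (η s) κ hr0 (hlow s hs) h1 (hloM r hr0)
  have h6 := ratio_le r hr0 κ hκ
  have hV : (0 : ℝ) ≤ (D : ℝ) * A * T := by positivity
  calc ((D : ℝ) * A * T) * (∏ p ∈ PR r, (1 - η s p) + 2 / 4 ^ r)
      ≤ ((D : ℝ) * A * T) * (Real.exp (κ * C2 + 1 / 2) * ((r : ℝ) / 2 ^ r) ^ κ + 2 * ((r : ℝ) / 2 ^ r) ^ κ) := by
        apply mul_le_mul_of_nonneg_left _ hV
        have : (2 : ℝ) / 4 ^ r = 2 * (1 / 4 ^ r) := by ring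
        rw [this]
        linarith
    _ = _ := by ring

theorem block : ∃ C : ℝ, ∃ r0 : ℕ, 0 < C ∧ 1 ≤ r0 ∧ ∀ r ≥ r0, ∀ s : ℤ, (s = 1 ∨ s = -1) → ∀ M D A T : ℕ,
    2 ^ 2 ^ r ≤ D → 2 ^ 2 ^ r ≤ A → 2 ^ 2 ^ r ≤ T → ∀ b0 : ℕ → ℕ → ℕ,
    ∑ x ∈ (Ico M (M + D)) ×ˢ (range A) ×ˢ (range T),
      ∏ p ∈ PR r, g s p x.1 x.2.1 (b0 x.1 x.2.1 + x.1 * x.2.2)
      ≤ C * (r : ℝ) ^ 2 / 4 ^ r * (D * A * T) := by
  obtain ⟨C, r0, hC, hr0, h⟩ := block_core g eta 2 le_rfl (fun s p => rfl) g_mem g_d g_a g_b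
    (fun s p hp => g_lin s hp) (fun s p hp hp5 => eta_upper s hp hp5)
    (fun s hs p hp hp5 => by have := eta_lower s hs hp hp5; push_cast; exact this)
  refine ⟨C, r0, hC, hr0, ?_⟩
  intro r hr s hs M D A T hD hA hT b0
  refine (h r hr s hs M D A T hD hA hT b0).trans (le_of_eq ?_)
  rw [div_pow, ← pow_mul, mul_comm r 2, pow_mul, show ((2 : ℝ) ^ 2) = 4 by norm_num]
  ring

end Pool.Agent.H177R2.SD
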