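import Pool.Agent.H177R2.SD.Err
import Pool.Agent.H177R2.SD.Brun
import Pool.Agent.H177R2.SD.Avg
import Pool.Agent.H177R2.SD.Mert

/-!
Block estimate for a general local weight.
-/

set_option autoImplicit false

namespace Pool.Agent.H177R2.SD

open Finset Filter Topology

theorem block_gen (G : ℕ → ℕ → ℕ → ℕ → ℝ) (η : ℕ → ℝ)
    (hη : ∀ p, η p = (∑ d ∈ range (p ^ 2), ∑ a ∈ range (p ^ 2), ∑ b ∈ range (p ^ 2), (1 - G p d a b))
      / ((p : ℝ) ^ 2) ^ 3)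
    (h01 : ∀ p d a b, 0 ≤ G p d a b ∧ G p d a b ≤ 1)
    (hd : ∀ p d a b, G p (d + p ^ 2) a b = G p d a b)
    (ha : ∀ p d a b, G p d (a + p ^ 2) b = G p d a b)
    (hb : ∀ p d a b, G p d a (b + p ^ 2) = G p d a b)
    (hlin : ∀ p, p.Prime → ∀ d a b, ∑ t ∈ range (p ^ 2), (1 - G p d a (b + d * t))
      = ∑ b ∈ range (p ^ 2), (1 - G p d a b))
    (hup : ∀ p, p.Prime → 5 ≤ p → η p ≤ 3 / (p : ℝ)) {r : ℕ} (hr : 1 ≤ r)
    (herr : 3 * ((yy r : ℝ) + 1) ^ (36 * r) / 2 ^ 2 ^ r ≤ 1 / 4 ^ r)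
    (hmert : ∑ p ∈ PR r, (1 : ℝ) / p ≤ r) {M D A T : ℕ}
    (hD : 2 ^ 2 ^ r ≤ D) (hA : 2 ^ 2 ^ r ≤ A) (hT : 2 ^ 2 ^ r ≤ T) (b0 : ℕ → ℕ → ℕ) :
    ∑ x ∈ (Ico M (M + D)) ×ˢ (range A) ×ˢ (range T),
      ∏ p ∈ PR r, G p x.1 x.2.1 (b0 x.1 x.2.1 + x.1 * x.2.2)
      ≤ (D * A * T) * (∏ p ∈ PR r, (1 - η p) + 2 / 4 ^ r) := by
  have hη0 : ∀ p ∈ PR r, 0 ≤ η p := by
    intro p _
    rw [hη]
    exact div_nonneg (sum_nonneg fun d _ => sum_nonneg fun a _ => sum_nonneg fun b _ =>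
      sub_nonneg.2 (h01 p d a b).2) (by positivity)
  have hη3 : ∀ p ∈ PR r, η p ≤ 3 / (p : ℝ) := fun p hp =>
    hup p (mem_PR hp).1 (by have := (mem_PR hp).2.1; omega)
  have hη1 : ∀ p ∈ PR r, 0 ≤ η p ∧ η p ≤ 1 := by
    intro p hp
    refine ⟨hη0 p hp, (hη3 p hp).trans ?_⟩
    have : (10 : ℝ) < p := by exact_mod_cast (mem_PR hp).2.1
    rw [div_le_one (by linarith)]; linarith
  set Y : ℝ := (yy r : ℝ) + 1 with hY
  have hY1 : 1 ≤ Y := by
    have : (0 : ℝ) ≤ yy r := Nat.cast_nonneg _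
    rw [hY]; linarith
  set E : ℝ := 2 ^ 2 ^ r with hE
  have hE0 : 0 < E := by positivity
  have hD' : E ≤ (D : ℝ) := by rw [hE]; exact_mod_cast hD
  have hA' : E ≤ (A : ℝ) := by rw [hE]; exact_mod_cast hA
  have hT' : E ≤ (T : ℝ) := by rw [hE]; exact_mod_cast hT
  have happ : ∀ S ⊆ PR r, S.card ≤ 2 * (6 * r) →
      |∑ x ∈ (Ico M (M + D)) ×ˢ (range A) ×ˢ (range T),
        ∏ p ∈ S, (1 - G p x.1 x.2.1 (b0 x.1 x.2.1 + x.1 * x.2.2)) - ((D : ℝ) * A * T) * ∏ p ∈ S, η p|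
      ≤ Y ^ (24 * r) * (D * A + D * T + A * T) := by
    intro S hS hc
    have h := avg3 S (fun p => p ^ 2) (fun p hp => pow_pos (mem_PR (hS hp)).1.pos 2)
      (fun p hp q hq hne => Nat.Coprime.pow 2 2
        ((Nat.coprime_primes (mem_PR (hS hp)).1 (mem_PR (hS hq)).1).2 hne))
      (fun p d a b => 1 - G p d a b)
      (fun p _ d a b => ⟨by linarith [(h01 p d a b).2], by linarith [(h01 p d a b).1]⟩)
      (fun p _ d a b => by simp only [hd]) (fun p _ d a b => by simp only [ha])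
      (fun p _ d a b => by simp only [hb])
      (fun p hp d a b => hlin p (mem_PR (hS hp)).1 d a b) b0 M D A T
    have e : ∀ p ∈ S, (∑ d ∈ range (p ^ 2), ∑ a ∈ range (p ^ 2), ∑ b ∈ range (p ^ 2), (1 - G p d a b))
        / (((p ^ 2 : ℕ) : ℝ)) ^ 3 = η p := by
      intro p _
      rw [hη]; push_cast; rfl
    rw [prod_congr rfl e] at h
    refine h.trans ?_
    apply mul_le_mul_of_nonneg_right _ (by positivity)
    have h2 := prod_le hS hc 2
    have e2 : ∏ p ∈ S, (((p ^ 2 : ℕ)) : ℝ) = ∏ p ∈ S, (p : ℝ) ^ 2 := by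
      apply prod_congr rfl; intro p _; push_cast; rfl
    rw [e2]
    refine h2.trans (le_of_eq ?_)
    rw [hY]; congr 1; ring
  have hbrun := brun ((Ico M (M + D)) ×ˢ (range A) ×ˢ (range T)) (PR r)
    (fun p x => 1 - G p x.1 x.2.1 (b0 x.1 x.2.1 + x.1 * x.2.2)) η
    (fun p _ x _ => ⟨by linarith [(h01 p x.1 x.2.1 (b0 x.1 x.2.1 + x.1 * x.2.2)).2],
      by linarith [(h01 p x.1 x.2.1 (b0 x.1 x.2.1 + x.1 * x.2.2)).1]⟩) hη1 (6 * r) ((D : ℝ) * A * T)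
    (Y ^ (24 * r) * (D * A + D * T + A * T)) (by positivity) (by positivity) happ
  simp only [sub_sub_cancel] at hbrun
  refine hbrun.trans ?_
  have s1 : ∑ p ∈ PR r, η p ≤ 3 * r := by
    calc ∑ p ∈ PR r, η p ≤ ∑ p ∈ PR r, 3 * ((1 : ℝ) / p) := by
          apply sum_le_sum
          intro p hp
          have := hη3 p hp
          rwa [mul_one_div]
      _ = 3 * ∑ p ∈ PR r, (1 : ℝ) / p := by rw [mul_sum]
      _ ≤ 3 * r := by linarith
  have t2 := tail_small (r := r) (sum_nonneg hη0) s1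
  have t3 : (((PR r).card : ℝ) + 1) ^ (2 * (6 * r)) * (Y ^ (24 * r) * (D * A + D * T + A * T))
      ≤ 1 / 4 ^ r * ((D : ℝ) * A * T) := by
    have h1 : (((PR r).card : ℝ) + 1) ^ (2 * (6 * r)) ≤ Y ^ (12 * r) := by
      rw [show 2 * (6 * r) = 12 * r by ring]
      exact pow_le_pow_left₀ (by positivity) (by rw [hY]; linarith [card_PR r]) _
    have hD0 : (0 : ℝ) ≤ D := Nat.cast_nonneg _
    have hA0 : (0 : ℝ) ≤ A := Nat.cast_nonneg _
    have hT0 : (0 : ℝ) ≤ T := Nat.cast_nonneg _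
    have h5 : ((D : ℝ) * A + D * T + A * T) * E ≤ 3 * (D * A * T) := by
      have a1 : (D : ℝ) * A * E ≤ D * A * T := mul_le_mul_of_nonneg_left hT' (by positivity)
      have a2 : (D : ℝ) * T * E ≤ D * A * T := by
        calc (D : ℝ) * T * E ≤ D * T * A := mul_le_mul_of_nonneg_left hA' (by positivity)
          _ = _ := by ring
      have a3 : (A : ℝ) * T * E ≤ D * A * T := by
        calc (A : ℝ) * T * E ≤ A * T * D := mul_le_mul_of_nonneg_left hD' (by positivity)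
          _ = _ := by ring
      linarith
    have h6 : Y ^ (12 * r) * Y ^ (24 * r) = Y ^ (36 * r) := by
      rw [← pow_add]; congr 1; ring
    calc (((PR r).card : ℝ) + 1) ^ (2 * (6 * r)) * (Y ^ (24 * r) * (D * A + D * T + A * T))
        ≤ Y ^ (12 * r) * (Y ^ (24 * r) * (D * A + D * T + A * T)) :=
          mul_le_mul_of_nonneg_right h1 (by positivity)
      _ = Y ^ (36 * r) / E * (((D : ℝ) * A + D * T + A * T) * E) := by
          rw [← h6]; field_simp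
      _ ≤ Y ^ (36 * r) / E * (3 * (D * A * T)) := mul_le_mul_of_nonneg_left h5 (by positivity)
      _ = (3 * Y ^ (36 * r) / E) * ((D : ℝ) * A * T) := by ring
      _ ≤ 1 / 4 ^ r * ((D : ℝ) * A * T) := mul_le_mul_of_nonneg_right herr (by positivity)
  have hV : (0 : ℝ) ≤ (D : ℝ) * A * T := by positivity
  have t4 := mul_le_mul_of_nonneg_left t2 hV
  calc _ ≤ ((D : ℝ) * A * T) * (∏ p ∈ PR r, (1 - η p)) + ((D : ℝ) * A * T) * (1 / 4 ^ r)
        + 1 / 4 ^ r * ((D : ℝ) * A * T) := by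
          rw [mul_add]
          linarith
    _ = _ := by ring

/-- combination with Mertens: `∏ (1 - η) ≤ C (r / 2^r)^κ` for natural `κ` -/
theorem prod_eta_le (η : ℕ → ℝ) (κ : ℕ) {r : ℕ} (hr : 1 ≤ r) {C : ℝ}
    (hlow : ∀ p : ℕ, p.Prime → 5 ≤ p → (κ : ℝ) / p - 5 / (p : ℝ) ^ 2 ≤ η p)
    (h1 : ∀ p ∈ PR r, η p ≤ 1)
    (hm : r * Real.log 2 - Real.log r - C ≤ ∑ p ∈ PR r, (1 : ℝ) / p) :
    ∏ p ∈ PR r, (1 - η p) ≤ Real.exp (κ * C + 1 / 2) * ((r : ℝ) / 2 ^ r) ^ κ := by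
  refine (prod_one_sub_le _ _ h1).trans ?_
  have hs : ∑ p ∈ PR r, ((κ : ℝ) * (1 / p) - 5 * (1 / (p : ℝ) ^ 2)) ≤ ∑ p ∈ PR r, η p := by
    apply sum_le_sum
    intro p hp
    have := hlow p (mem_PR hp).1 (by have := (mem_PR hp).2.1; omega)
    rw [mul_one_div, mul_one_div]; exact this
  rw [sum_sub_distrib, ← mul_sum, ← mul_sum] at hs
  have h2 := sum_inv_sq r
  have h3 : (κ : ℝ) * (r * Real.log 2 - Real.log r - C) ≤ κ * ∑ p ∈ PR r, (1 : ℝ) / p :=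
    mul_le_mul_of_nonneg_left hm (Nat.cast_nonneg _)
  have h4 : -∑ p ∈ PR r, η p ≤ (κ * C + 1 / 2) + κ * (Real.log r - r * Real.log 2) := by
    nlinarith
  refine (Real.exp_le_exp.2 h4).trans (le_of_eq ?_)
  have hr0 : (0 : ℝ) < r := by exact_mod_cast hr
  rw [Real.exp_add]
  congr 1
  rw [← Real.log_pow, ← Real.log_div (by positivity) (by positivity), Real.exp_nat_mul,
    Real.exp_log (by positivity)]

end Pool.Agent.H177R2.SD

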