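import Pool.Agent.H177R2.SD.Defs

/-!
Blueprint (statements only): symmetric designs on almost all numbers of points (MP_3038d1_co).
-/

set_option autoImplicit false

namespace Pool.Agent.H177R2.SD.Stub

open Finset Filter Topology Pool.Agent.H177R2.SD

/-! ### Task A (Brc.lean): Bruck-Ryser-Chowla, local form -/

theorem brc_local {v k l p : ℕ} (hd : IsSymmetricDesign v k l) (hk : 2 ≤ k) (hkv : k + 2 ≤ v)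
    (hp : p.Prime) (hp2 : p ≠ 2) (h1 : p ∣ k - l) (h2 : ¬ p ^ 2 ∣ k - l) (h3 : ¬ p ∣ l) :
    v % 2 = 1 ∧ IsSquare (((-1) ^ ((v - 1) / 2) * (l : ℤ) : ℤ) : ZMod p) := sorry

/-! ### Task B (Quad.lean): parametrisation -/

theorem quad_of_design {v k l : ℕ} (hd : IsSymmetricDesign v k l) (hk : 2 ≤ k) (hkv : k + 2 ≤ v) :
    ∃ a b c d : ℕ, 1 ≤ a ∧ a < d ∧ d < b ∧ a * b = c * d + 1 ∧ v = b * d + 1 ∧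
      (k = a * b ∨ v - k = a * b) ∧
      ∀ s : ℤ, (s = if v % 4 = 3 then -1 else 1) → ∀ p : ℕ, p.Prime → p ≠ 2 →
        ¬ T1 s p d a b ∧ ¬ T2 s p d a b := sorry

/-! ### Task C (Brun.lean): weighted pure Brun sieve -/

theorem brun {Ω ι : Type*} [DecidableEq ι] (s : Finset Ω) (P : Finset ι) (h : ι → Ω → ℝ) (η : ι → ℝ)
    (hh : ∀ i ∈ P, ∀ ω ∈ s, 0 ≤ h i ω ∧ h i ω ≤ 1) (hη : ∀ i ∈ P, 0 ≤ η i ∧ η i ≤ 1)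
    (r : ℕ) (V δ : ℝ) (hV : 0 ≤ V) (hδ : 0 ≤ δ)
    (happ : ∀ S ⊆ P, S.card ≤ 2 * r → |∑ ω ∈ s, ∏ i ∈ S, h i ω - V * ∏ i ∈ S, η i| ≤ δ) :
    ∑ ω ∈ s, ∏ i ∈ P, (1 - h i ω) ≤
      V * (∏ i ∈ P, (1 - η i) + (∑ i ∈ P, η i) ^ (2 * r + 1) / (2 * r + 1).factorial)
        + ((P.card : ℝ) + 1) ^ (2 * r) * δ := sorry

/-! ### Task D (Avg.lean): averages of products of periodic functions -/

theorem avg1 (S : Finset ℕ) (q : ℕ → ℕ) (hq : ∀ p ∈ S, 0 < q p)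
    (hcop : (S : Set ℕ).Pairwise fun p p' => Nat.Coprime (q p) (q p'))
    (f : ℕ → ℕ → ℝ) (hf : ∀ p ∈ S, ∀ n, 0 ≤ f p n ∧ f p n ≤ 1)
    (hper : ∀ p ∈ S, ∀ n, f p (n + q p) = f p n) (M N : ℕ) :
    |∑ n ∈ Ico M (M + N), ∏ p ∈ S, f p n - N * ∏ p ∈ S, ((∑ n ∈ range (q p), f p n) / q p)|
      ≤ ∏ p ∈ S, (q p : ℝ) := sorry

theorem avg3 (S : Finset ℕ) (q : ℕ → ℕ) (hq : ∀ p ∈ S, 0 < q p)
    (hcop : (S : Set ℕ).Pairwise fun p p' => Nat.Coprime (q p) (q p'))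
    (h : ℕ → ℕ → ℕ → ℕ → ℝ) (h01 : ∀ p ∈ S, ∀ d a b, 0 ≤ h p d a b ∧ h p d a b ≤ 1)
    (hd : ∀ p ∈ S, ∀ d a b, h p (d + q p) a b = h p d a b)
    (ha : ∀ p ∈ S, ∀ d a b, h p d (a + q p) b = h p d a b)
    (hb : ∀ p ∈ S, ∀ d a b, h p d a (b + q p) = h p d a b)
    (hlin : ∀ p ∈ S, ∀ d a b, ∑ t ∈ range (q p), h p d a (b + d * t) = ∑ b ∈ range (q p), h p d a b)
    (b0 : ℕ → ℕ → ℕ) (M D A T : ℕ) :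
    |∑ x ∈ (Ico M (M + D)) ×ˢ (range A) ×ˢ (range T), ∏ p ∈ S, h p x.1 x.2.1 (b0 x.1 x.2.1 + x.1 * x.2.2)
      - (D * A * T) * ∏ p ∈ S, ((∑ d ∈ range (q p), ∑ a ∈ range (q p), ∑ b ∈ range (q p), h p d a b)
          / (q p : ℝ) ^ 3)|
      ≤ (∏ p ∈ S, (q p : ℝ)) * (D * A + D * T + A * T) := sorry

/-! ### Task E (Local.lean): local densities -/

theorem g_mem (s : ℤ) (p d a b : ℕ) : 0 ≤ g s p d a b ∧ g s p d a b ≤ 1 := sorry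
theorem g_d (s : ℤ) (p d a b : ℕ) : g s p (d + p ^ 2) a b = g s p d a b := sorry
theorem g_a (s : ℤ) (p d a b : ℕ) : g s p d (a + p ^ 2) b = g s p d a b := sorry
theorem g_b (s : ℤ) (p d a b : ℕ) : g s p d a (b + p ^ 2) = g s p d a b := sorry
theorem g_lin (s : ℤ) {p : ℕ} (hp : p.Prime) (d a b : ℕ) :
    ∑ t ∈ range (p ^ 2), (1 - g s p d a (b + d * t)) = ∑ b ∈ range (p ^ 2), (1 - g s p d a b) := sorry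
theorem eta_lower (s : ℤ) (hs : s = 1 ∨ s = -1) {p : ℕ} (hp : p.Prime) (hp5 : 5 ≤ p) :
    2 / (p : ℝ) - 5 / (p : ℝ) ^ 2 ≤ eta s p := sorry
theorem eta_upper (s : ℤ) {p : ℕ} (hp : p.Prime) (hp5 : 5 ≤ p) :
    eta s p ≤ 3 / (p : ℝ) := sorry

/-! ### Task F (Small.lean): a fixed pair (a, d) -/

open Classical in
theorem small (s : ℤ) (hs : s = 1 ∨ s = -1) (a d : ℕ) (ha : 1 ≤ a) (had : a < d)
    (hsq : ¬ IsSquare (s * ((a : ℤ) * ((a : ℤ) - d)))) (ε : ℝ) (hε : 0 < ε) :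
    ∃ X0 : ℕ, ∀ X ≥ X0,
      ({m ∈ Icc 1 X | ∃ b c : ℕ, m = b * d ∧ a * b = c * d + 1 ∧
        ∀ p : ℕ, p.Prime → p ≠ 2 → ¬ T1 s p d a b}.card : ℝ) ≤ ε * X := sorry

/-! ### Task M (Mert.lean): Mertens for PR r -/

theorem mert_upper : ∃ C : ℝ, ∀ r : ℕ, 1 ≤ r → ∑ p ∈ PR r, (1 : ℝ) / p ≤ r * Real.log 2 + C := sorry
theorem mert_lower : ∃ C : ℝ, ∀ r : ℕ, 1 ≤ r →
    r * Real.log 2 - Real.log r - C ≤ ∑ p ∈ PR r, (1 : ℝ) / p := sorry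

/-! ### Task G (Block.lean): one block -/

theorem block : ∃ C : ℝ, ∃ r0 : ℕ, 0 < C ∧ 1 ≤ r0 ∧ ∀ r ≥ r0, ∀ s : ℤ, (s = 1 ∨ s = -1) → ∀ M D A T : ℕ,
    2 ^ 2 ^ r ≤ D → 2 ^ 2 ^ r ≤ A → 2 ^ 2 ^ r ≤ T → ∀ b0 : ℕ → ℕ → ℕ,
    ∑ x ∈ (Ico M (M + D)) ×ˢ (range A) ×ˢ (range T),
      ∏ p ∈ PR r, g s p x.1 x.2.1 (b0 x.1 x.2.1 + x.1 * x.2.2)
      ≤ C * (r : ℝ) ^ 2 / 4 ^ r * (D * A * T) := sorry

/-! ### Task H (Typical.lean): typical number of prime divisors -/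

theorem typical : ∃ C : ℝ, ∃ c : ℝ, 0 < C ∧ 0 < c ∧ ∀ r : ℕ, 1 ≤ r → ∀ X : ℕ,
    ({m ∈ Icc 1 X | 19 * r < 20 * om r m}.card : ℝ) ≤ C * Real.exp (-(c * r)) * X := sorry

/-! ### Task J (Near.lean): one-dimensional bound -/

theorem near : ∃ C : ℝ, ∃ r0 : ℕ, 0 < C ∧ 1 ≤ r0 ∧ ∀ r ≥ r0, ∀ N : ℕ, 2 ^ 2 ^ r ≤ N →
    (∑ n ∈ Icc 1 N, (1 / 2 : ℝ) ^ om r n) ^ 2 ≤ C * (r / 2 ^ r) * (N : ℝ) ^ 2 := sorry

/-! ### Task K (Count.lean): the counting theorem -/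

/-- `m = v - 1` is bad for the sign `s` -/
def Bad (s : ℤ) (m : ℕ) : Prop :=
  ∃ a b c d : ℕ, 1 ≤ a ∧ a < d ∧ d < b ∧ a * b = c * d + 1 ∧ m = b * d ∧
    ¬ IsSquare (s * ((a : ℤ) * ((a : ℤ) - d))) ∧
    ∀ p : ℕ, p.Prime → p ≠ 2 → ¬ T1 s p d a b ∧ ¬ T2 s p d a b

open Classical in
theorem count (s : ℤ) (hs : s = 1 ∨ s = -1) (ε : ℝ) (hε : 0 < ε) :
    ∃ X0 : ℕ, ∀ X ≥ X0, ({m ∈ Icc 1 X | Bad s m}.card : ℝ) ≤ ε * X := sorry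

end Pool.Agent.H177R2.SD.Stub
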