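import Pool.Agent.H177R2.SD.Defs2

/-!
Blueprint 2 (statements only): counting realised parameter triples.
-/

set_option autoImplicit false

namespace Pool.Agent.H177R2.SD.Stub

open Finset Filter Topology Pool.Agent.H177R2.SD

/-! ### Task E2 (Local2.lean) -/

theorem g2_mem (s : ℤ) (p d a b : ℕ) : 0 ≤ g2 s p d a b ∧ g2 s p d a b ≤ 1 := sorry
theorem g2_d (s : ℤ) (p d a b : ℕ) : g2 s p (d + p ^ 2) a b = g2 s p d a b := sorry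
theorem g2_a (s : ℤ) (p d a b : ℕ) : g2 s p d (a + p ^ 2) b = g2 s p d a b := sorry
theorem g2_b (s : ℤ) (p d a b : ℕ) : g2 s p d a (b + p ^ 2) = g2 s p d a b := sorry
theorem g2_lin (s : ℤ) {p : ℕ} (hp : p.Prime) (d a b : ℕ) :
    ∑ t ∈ range (p ^ 2), (1 - g2 s p d a (b + d * t)) = ∑ b ∈ range (p ^ 2), (1 - g2 s p d a b) := sorry
theorem eta2_lower (s : ℤ) (hs : s = 1 ∨ s = -1) {p : ℕ} (hp : p.Prime) (hp5 : 5 ≤ p) :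
    1 / (p : ℝ) - 5 / (p : ℝ) ^ 2 ≤ eta2 s p := sorry
theorem eta2_upper (s : ℤ) {p : ℕ} (hp : p.Prime) (hp5 : 5 ≤ p) :
    eta2 s p ≤ 3 / (p : ℝ) := sorry

/-! ### Task G2 (Block2.lean) -/

theorem block2 : ∃ C : ℝ, ∃ r0 : ℕ, 0 < C ∧ 1 ≤ r0 ∧ ∀ r ≥ r0, ∀ s : ℤ, (s = 1 ∨ s = -1) → ∀ M D A T : ℕ,
    2 ^ 2 ^ r ≤ D → 2 ^ 2 ^ r ≤ A → 2 ^ 2 ^ r ≤ T → ∀ b0 : ℕ → ℕ → ℕ,
    ∑ x ∈ (Ico M (M + D)) ×ˢ (range A) ×ˢ (range T),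
      ∏ p ∈ PR r, g2 s p x.1 x.2.1 (b0 x.1 x.2.1 + x.1 * x.2.2)
      ≤ C * (r : ℝ) / 2 ^ r * (D * A * T) := sorry

/-! ### Task L2 (Lower2.lean): many admissible triples -/

theorem admissible_lower : ∃ c : ℝ, 0 < c ∧ ∀ N : ℕ, 2 ≤ N → c * (N * Real.log N) - 10 * N ≤ ((Admissible N).card : ℝ) := sorry

end Pool.Agent.H177R2.SD.Stub
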