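import Pool.Agent.H177R2.SD.Defs

/-!
The local form of the Bruck-Ryser-Chowla theorem.

The extended incidence matrix `B` of a symmetric `(v, k, l)`-design satisfies `B Ψ Bᵀ = n Ψ` with
`Ψ = diag (1, …, 1, -l)` and `n = k - l`.  If `p` divides `n` exactly once and `p` does not divide
`l`, the row space and the left kernel of `B` modulo `p` are both totally isotropic, hence the row
space is totally isotropic of half of the dimension `v + 1`, and the discriminant is a square.
-/

set_option autoImplicit false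

namespace Pool.Agent.H177R2.SD

open Matrix Finset

namespace Brc

section Isotropic

variable {F : Type*} [Field F] {ι : Type*} [Fintype ι] [DecidableEq ι]

/-- totally isotropic subspaces have at most half of the dimension -/
lemma isotropic_finrank_le (Ψ : Matrix ι ι F) (hsym : Ψᵀ = Ψ) (hdet : Ψ.det ≠ 0)
    (W : Submodule F (ι → F)) (hW : ∀ x ∈ W, ∀ y ∈ W, x ⬝ᵥ Ψ *ᵥ y = 0) :
    2 * Module.finrank F W ≤ Fintype.card ι := by
  have hnd : (Matrix.toBilin' Ψ).Nondegenerate :=
    (Matrix.nondegenerate_of_det_ne_zero hdet).toBilin'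
  have h1 := LinearMap.BilinForm.finrank_orthogonal hnd W
  have h2 : W ≤ (Matrix.toBilin' Ψ).orthogonal W := by
    intro x hx
    rw [LinearMap.BilinForm.mem_orthogonal_iff]
    intro y hy
    have h5 : (Matrix.toBilin' Ψ) y x = 0 := by
      rw [Matrix.toBilin'_apply']
      exact hW y hy x hx
    exact h5
  have h3 := Submodule.finrank_mono h2
  have h4 := Submodule.finrank_le W
  rw [h1] at h3
  rw [Module.finrank_fintype_fun_eq_card] at h3 h4
  omega

lemma det_swap (t : ℕ) : (fromBlocks (0 : Matrix (Fin t) (Fin t) F) (1 : Matrix (Fin t) (Fin t) F)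
    (1 : Matrix (Fin t) (Fin t) F) 0).det = (-1) ^ t := by
  have e : fromBlocks (0 : Matrix (Fin t) (Fin t) F) (1 : Matrix (Fin t) (Fin t) F)
      (1 : Matrix (Fin t) (Fin t) F) 0 *
      fromBlocks (1 : Matrix (Fin t) (Fin t) F) 0 (1 : Matrix (Fin t) (Fin t) F)
        (1 : Matrix (Fin t) (Fin t) F) =
      fromBlocks (1 : Matrix (Fin t) (Fin t) F) (1 : Matrix (Fin t) (Fin t) F)
        (1 : Matrix (Fin t) (Fin t) F) 0 := by
    rw [fromBlocks_multiply]
    simp
  have h := congrArg Matrix.det e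
  rw [det_mul, det_fromBlocks_zero₁₂, det_one, one_mul, mul_one, det_fromBlocks_one₁₁] at h
  rw [h]
  simp [det_neg]

lemma det_zero_block (t : ℕ) (A A' D : Matrix (Fin t) (Fin t) F) :
    (fromBlocks 0 A A' D).det = (-1) ^ t * (A.det * A'.det) := by
  have e : fromBlocks 0 A A' D * fromBlocks (0 : Matrix (Fin t) (Fin t) F)
      (1 : Matrix (Fin t) (Fin t) F) (1 : Matrix (Fin t) (Fin t) F) 0 =
      fromBlocks A 0 D A' := by
    rw [fromBlocks_multiply]
    simp
  have h := congrArg Matrix.det e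
  rw [det_mul, det_fromBlocks_zero₁₂, det_swap] at h
  have h2 : ((-1 : F) ^ t) * (-1) ^ t = 1 := by
    rw [← mul_pow]
    simp
  calc (fromBlocks 0 A A' D).det = (fromBlocks 0 A A' D).det * ((-1 : F) ^ t * (-1) ^ t) := by
        rw [h2, mul_one]
    _ = (-1) ^ t * ((fromBlocks 0 A A' D).det * (-1) ^ t) := by ring
    _ = (-1) ^ t * (A.det * A'.det) := by rw [h]

/-- if there is a totally isotropic subspace of half of the dimension, the discriminant is a
square -/
lemma isotropic_square (Ψ : Matrix ι ι F) (hsym : Ψᵀ = Ψ)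
    (W : Submodule F (ι → F)) (hW : ∀ x ∈ W, ∀ y ∈ W, x ⬝ᵥ Ψ *ᵥ y = 0) (t : ℕ)
    (hι : Fintype.card ι = 2 * t) (ht : Module.finrank F W = t) :
    IsSquare ((-1) ^ t * Ψ.det) := by
  obtain ⟨W', hW'⟩ := Submodule.exists_isCompl W
  have ht' : Module.finrank F W' = t := by
    have := Submodule.finrank_add_eq_of_isCompl hW'
    rw [Module.finrank_fintype_fun_eq_card] at this
    omega
  set b : Module.Basis (Fin t ⊕ Fin t) F (ι → F) :=
    ((Module.finBasisOfFinrankEq F W ht).prod (Module.finBasisOfFinrankEq F W' ht')).map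
      (Submodule.prodEquivOfIsCompl W W' hW') with hb
  have hbl : ∀ i, b (Sum.inl i) ∈ W := by
    intro i
    simp [hb]
  -- the matrix of the basis
  set P : Matrix (Fin t ⊕ Fin t) ι F := Matrix.of fun i j => b i j with hP
  obtain ⟨Q, hQ⟩ : ∃ Q : Matrix ι (Fin t ⊕ Fin t) F, P * Q = 1 := by
    refine ⟨(b.toMatrix (Pi.basisFun F ι))ᵀ, ?_⟩
    have h1 := b.toMatrix_mul_toMatrix_flip (Pi.basisFun F ι)
    have h2 : P = ((Pi.basisFun F ι).toMatrix b)ᵀ := by
      ext i j
      simp [hP, Module.Basis.toMatrix_apply]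
    rw [h2, ← transpose_mul, h1, transpose_one]
  have hcard : Fintype.card (Fin t ⊕ Fin t) = Fintype.card ι := by
    rw [hι]
    simp
    ring
  set e : (Fin t ⊕ Fin t) ≃ ι := Fintype.equivOfCardEq hcard with he
  set P' : Matrix (Fin t ⊕ Fin t) (Fin t ⊕ Fin t) F := P.submatrix id e with hP'
  set Q' : Matrix (Fin t ⊕ Fin t) (Fin t ⊕ Fin t) F := Q.submatrix e id with hQ'
  set Ψ' : Matrix (Fin t ⊕ Fin t) (Fin t ⊕ Fin t) F := Ψ.submatrix e e with hΨ'
  have hPQ : P' * Q' = 1 := by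
    rw [hP', hQ', submatrix_mul_equiv, hQ]
    simp
  have hdetP : P'.det ≠ 0 := by
    intro h0
    have := congrArg Matrix.det hPQ
    rw [det_mul, h0, zero_mul, det_one] at this
    exact zero_ne_one this
  have hmul : P' * Ψ' * P'ᵀ = P * Ψ * Pᵀ := by
    rw [hP', hΨ', submatrix_mul_equiv, transpose_submatrix, submatrix_mul_equiv]
    simp
  -- block form
  set G := P * Ψ * Pᵀ with hG
  have hGT : Gᵀ = G := by
    rw [hG, transpose_mul, transpose_mul, transpose_transpose, hsym, Matrix.mul_assoc]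
  have h11 : G.toBlocks₁₁ = 0 := by
    ext i j
    rw [toBlocks₁₁, of_apply]
    have : G (Sum.inl i) (Sum.inl j) = b (Sum.inl i) ⬝ᵥ Ψ *ᵥ b (Sum.inl j) := by
      rw [hG, Matrix.mul_assoc, mul_apply]
      rfl
    rw [this, hW _ (hbl i) _ (hbl j)]
    rfl
  have h21 : G.toBlocks₂₁ = G.toBlocks₁₂ᵀ := by
    ext i j
    have := congrFun (congrFun hGT (Sum.inr i)) (Sum.inl j)
    rw [transpose_apply] at this
    rw [toBlocks₂₁, toBlocks₁₂, transpose_apply, of_apply, of_apply, this]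
  have hdetG : G.det = (-1) ^ t * (G.toBlocks₁₂.det * G.toBlocks₁₂.det) := by
    conv_lhs => rw [← fromBlocks_toBlocks G]
    rw [h11, h21, det_zero_block, det_transpose]
  have hdetG' : G.det = P'.det * Ψ.det * P'.det := by
    rw [← hmul, det_mul, det_mul, det_transpose, hΨ', det_submatrix_equiv_self]
  refine ⟨G.toBlocks₁₂.det / P'.det, ?_⟩
  have h2 : ((-1 : F) ^ t) * (-1) ^ t = 1 := by
    rw [← mul_pow]
    simp
  have h3 : (-1) ^ t * Ψ.det * (P'.det * P'.det) = G.toBlocks₁₂.det * G.toBlocks₁₂.det := by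
    calc (-1) ^ t * Ψ.det * (P'.det * P'.det) = (-1) ^ t * (P'.det * Ψ.det * P'.det) := by ring
      _ = (-1) ^ t * ((-1) ^ t * (G.toBlocks₁₂.det * G.toBlocks₁₂.det)) := by
          rw [← hdetG', hdetG]
      _ = ((-1 : F) ^ t * (-1) ^ t) * (G.toBlocks₁₂.det * G.toBlocks₁₂.det) := by ring
      _ = _ := by rw [h2, one_mul]
  field_simp
  rw [pow_two, pow_two]
  linear_combination h3

end Isotropic

/-- Similitudes with a multiplier divisible by `p` exactly once. -/
lemma similitude {ι : Type*} [Fintype ι] [DecidableEq ι] (B Ψ : Matrix ι ι ℤ) (n : ℤ) (p : ℕ)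
    (hp : p.Prime) (hsym : Ψᵀ = Ψ) (h : B * Ψ * Bᵀ = n • Ψ) (h1 : (p : ℤ) ∣ n)
    (h2 : ¬ (p : ℤ) ^ 2 ∣ n) (hdet : ¬ (p : ℤ) ∣ Ψ.det) :
    ∃ t, Fintype.card ι = 2 * t ∧ IsSquare ((-1) ^ t * ((Ψ.det : ℤ) : ZMod p)) := by
  have : Fact p.Prime := ⟨hp⟩
  set φ := Int.castRingHom (ZMod p) with hφ
  set Bp := B.map φ with hBp
  set Ψp := Ψ.map φ with hΨp
  have hsymp : Ψpᵀ = Ψp := by
    rw [hΨp, ← transpose_map, hsym]
  have hdetp : Ψp.det = ((Ψ.det : ℤ) : ZMod p) := by
    rw [hΨp]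
    exact (RingHom.map_det φ Ψ).symm
  have hdetp0 : Ψp.det ≠ 0 := by
    rw [hdetp]
    intro h0
    exact hdet ((ZMod.intCast_zmod_eq_zero_iff_dvd _ _).1 h0)
  have hzero : Bp * Ψp * Bpᵀ = 0 := by
    have h3 : (B * Ψ * Bᵀ).map φ = Bp * Ψp * Bpᵀ := by
      rw [Matrix.map_mul, Matrix.map_mul, transpose_map]
    rw [← h3, h]
    ext i j
    rw [map_apply, Matrix.smul_apply, smul_eq_mul, map_mul]
    have : φ n = 0 := (ZMod.intCast_zmod_eq_zero_iff_dvd _ _).2 h1
    rw [this, zero_mul]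
    rfl
  set f := Bpᵀ.mulVecLin with hf
  have hrn := LinearMap.finrank_range_add_finrank_ker f
  rw [Module.finrank_fintype_fun_eq_card] at hrn
  have hW : ∀ x ∈ LinearMap.range f, ∀ y ∈ LinearMap.range f, x ⬝ᵥ Ψp *ᵥ y = 0 := by
    rintro _ ⟨x, rfl⟩ _ ⟨y, rfl⟩
    rw [hf, mulVecLin_apply, mulVecLin_apply, mulVec_transpose, ← dotProduct_mulVec,
      mulVec_mulVec, mulVec_mulVec, hzero]
    simp
  have hK : ∀ x ∈ LinearMap.ker f, ∀ y ∈ LinearMap.ker f, x ⬝ᵥ Ψp *ᵥ y = 0 := by
    intro x hx y hy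
    rw [LinearMap.mem_ker, hf, mulVecLin_apply] at hx hy
    -- lift
    have lift : ∀ z : ι → ZMod p, Bpᵀ *ᵥ z = 0 → ∃ Z U : ι → ℤ, (∀ i, φ (Z i) = z i) ∧
        Bᵀ *ᵥ Z = (p : ℤ) • U := by
      intro z hz
      set Z : ι → ℤ := fun i => ((z i).val : ℤ) with hZ
      have hZz : ∀ i, φ (Z i) = z i := by
        intro i
        simp [hφ, hZ]
      have hd : ∀ i, (p : ℤ) ∣ (Bᵀ *ᵥ Z) i := by
        intro i
        rw [← ZMod.intCast_zmod_eq_zero_iff_dvd]
        have h4 := congrFun hz i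
        have h5 : φ ((Bᵀ *ᵥ Z) i) = (Bpᵀ *ᵥ z) i := by
          rw [mulVec, mulVec, dotProduct, dotProduct, map_sum]
          refine Finset.sum_congr rfl fun j _ => ?_
          rw [map_mul, hZz]
          rfl
        exact h5.trans h4
      choose U hU using hd
      exact ⟨Z, U, hZz, by ext i; rw [hU i]; rfl⟩
    obtain ⟨X, U, hX, hXU⟩ := lift x hx
    obtain ⟨Y, V, hY, hYV⟩ := lift y hy
    have e1 : X ⬝ᵥ (B * Ψ * Bᵀ) *ᵥ Y = (p : ℤ) ^ 2 * (U ⬝ᵥ Ψ *ᵥ V) := by
      rw [Matrix.mul_assoc, ← mulVec_mulVec, dotProduct_mulVec, ← mulVec_transpose, hXU,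
        ← mulVec_mulVec, hYV, mulVec_smul, dotProduct_smul, smul_dotProduct, smul_eq_mul,
        smul_eq_mul]
      ring
    have e2 : X ⬝ᵥ (B * Ψ * Bᵀ) *ᵥ Y = n * (X ⬝ᵥ Ψ *ᵥ Y) := by
      rw [h, smul_mulVec, dotProduct_smul, smul_eq_mul]
    obtain ⟨n', hn'⟩ := h1
    have hp0 : (p : ℤ) ≠ 0 := by exact_mod_cast hp.ne_zero
    have hpp : Prime (p : ℤ) := Nat.prime_iff_prime_int.1 hp
    have e3 : (p : ℤ) * (U ⬝ᵥ Ψ *ᵥ V) = n' * (X ⬝ᵥ Ψ *ᵥ Y) := by
      have : (p : ℤ) * ((p : ℤ) * (U ⬝ᵥ Ψ *ᵥ V)) = (p : ℤ) * (n' * (X ⬝ᵥ Ψ *ᵥ Y)) := by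
        have h6 := e1.symm.trans e2
        rw [hn'] at h6
        linear_combination h6
      exact mul_left_cancel₀ hp0 this
    have e4 : (p : ℤ) ∣ X ⬝ᵥ Ψ *ᵥ Y := by
      have h7 : (p : ℤ) ∣ n' * (X ⬝ᵥ Ψ *ᵥ Y) := ⟨_, e3.symm⟩
      rcases hpp.dvd_or_dvd h7 with h8 | h8
      · exfalso
        apply h2
        obtain ⟨w, hw⟩ := h8
        exact ⟨w, by rw [hn', hw]; ring⟩
      · exact h8
    have e5 : φ (X ⬝ᵥ Ψ *ᵥ Y) = x ⬝ᵥ Ψp *ᵥ y := by
      rw [dotProduct, dotProduct, map_sum]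
      refine Finset.sum_congr rfl fun i _ => ?_
      rw [map_mul, hX]
      congr 1
      rw [mulVec, mulVec, dotProduct, dotProduct, map_sum]
      refine Finset.sum_congr rfl fun j _ => ?_
      rw [map_mul, hY]
      rfl
    rw [← e5]
    exact (ZMod.intCast_zmod_eq_zero_iff_dvd _ _).2 e4
  have hW' := isotropic_finrank_le Ψp hsymp hdetp0 _ hW
  have hK' := isotropic_finrank_le Ψp hsymp hdetp0 _ hK
  refine ⟨Module.finrank (ZMod p) (LinearMap.range f), by omega, ?_⟩
  rw [← hdetp]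
  exact isotropic_square Ψp hsymp _ hW _ (by omega) rfl

end Brc

/-- **Bruck-Ryser-Chowla, local form.** -/
theorem brc_local {v k l p : ℕ} (hd : IsSymmetricDesign v k l) (hk : 2 ≤ k) (hkv : k + 2 ≤ v)
    (hp : p.Prime) (hp2 : p ≠ 2) (h1 : p ∣ k - l) (h2 : ¬ p ^ 2 ∣ k - l) (h3 : ¬ p ∣ l) :
    v % 2 = 1 ∧ IsSquare (((-1) ^ ((v - 1) / 2) * (l : ℤ) : ℤ) : ZMod p) := by
  classical
  obtain ⟨hkv', r, Bl, hcard, hr, hl⟩ := hd
  set N : Matrix (Fin v) (Fin v) ℤ := Matrix.of fun x i => if x ∈ Bl i then 1 else 0 with hN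
  have hN' : ∀ x i, N x i = if x ∈ Bl i then 1 else 0 := fun x i => rfl
  have S1 : ∀ x, ∑ i, N x i = r := by
    intro x
    simp only [hN', Finset.sum_boole, hr]
  have S2 : ∀ x y, x ≠ y → ∑ i, N x i * N y i = l := by
    intro x y hxy
    have : ∀ i, N x i * N y i = if x ∈ Bl i ∧ y ∈ Bl i then 1 else 0 := by
      intro i
      rw [hN', hN']
      split_ifs <;> simp_all
    simp only [this, Finset.sum_boole, hl x y hxy]
  have S3 : ∀ x, ∑ i, N x i * N x i = r := by
    intro x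
    have : ∀ i, N x i * N x i = N x i := by
      intro i
      rw [hN']
      split_ifs <;> simp
    simp only [this, S1]
  have S4 : ∀ i, ∑ x, N x i = k := by
    intro i
    simp only [hN', Finset.sum_boole]
    rw [← hcard i]
    congr 2
    ext x
    simp
  have hrk : (r : ℤ) = k := by
    have e1 : ∑ x, ∑ i, N x i = (v : ℤ) * r := by
      simp [S1]
    have e2 : ∑ x, ∑ i, N x i = (v : ℤ) * k := by
      have e3 : ∑ x, ∑ i, N x i = ∑ i, ∑ x, N x i := Finset.sum_comm
      rw [e3]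
      simp [S4]
    have hv : (v : ℤ) ≠ 0 := by
      have : 0 < v := by omega
      exact_mod_cast this.ne'
    exact mul_left_cancel₀ hv (e1.symm.trans e2)
  have hlk : (k : ℤ) + (v - 1) * l = k * k := by
    have hv : 0 < v := by omega
    set x : Fin v := ⟨0, hv⟩
    have e1 : ∑ y, ∑ i, N x i * N y i = (k : ℤ) * k := by
      have e3 : ∑ y, ∑ i, N x i * N y i = ∑ i, ∑ y, N x i * N y i := Finset.sum_comm
      rw [e3]
      have : ∀ i, ∑ y, N x i * N y i = N x i * k := by
        intro i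
        rw [← Finset.mul_sum, S4]
      simp only [this]
      rw [← Finset.sum_mul, S1, hrk]
    have e2 : ∑ y, ∑ i, N x i * N y i = (k : ℤ) + (v - 1) * l := by
      rw [← Finset.add_sum_erase _ _ (Finset.mem_univ x), S3, hrk]
      congr 1
      rw [Finset.sum_congr rfl (fun y hy => S2 x y (Finset.ne_of_mem_erase hy).symm)]
      rw [Finset.sum_const, Finset.card_erase_of_mem (Finset.mem_univ x), Finset.card_univ,
        Fintype.card_fin, nsmul_eq_mul, Nat.cast_sub (by omega)]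
      simp
    rw [← e2, e1]
  have hle : l ≤ k := by
    have hv : 1 < v := by omega
    set x : Fin v := ⟨0, by omega⟩ with hx
    set y : Fin v := ⟨1, hv⟩ with hy
    have hxy : x ≠ y := by
      intro h
      have := congrArg Fin.val h
      simp [hx, hy] at this
    have h4 : l ≤ r := by
      rw [← hl x y hxy, ← hr x]
      apply Finset.card_le_card
      intro i hi
      simp only [Finset.mem_filter, Finset.mem_univ, true_and] at hi ⊢
      exact hi.1
    have h5 : r = k := by exact_mod_cast hrk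
    omega
  -- the extended incidence matrix
  set B : Matrix (Fin v ⊕ Unit) (Fin v ⊕ Unit) ℤ :=
    fromBlocks N (Matrix.of fun _ _ => 1) (Matrix.of fun _ _ => (l : ℤ))
      (Matrix.of fun _ _ => (k : ℤ)) with hB
  set δ : Fin v ⊕ Unit → ℤ := Sum.elim (fun _ => 1) (fun _ => -(l : ℤ)) with hδ
  have hsim : B * diagonal δ * Bᵀ = ((k : ℤ) - l) • diagonal δ := by
    ext i j
    rw [mul_apply, Fintype.sum_sum_type]
    simp only [mul_diagonal, transpose_apply, Finset.univ_unique, Finset.sum_singleton,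
      Matrix.smul_apply, smul_eq_mul]
    rcases i with x | u
    · rcases j with y | w
      · have e : ∀ i : Fin v, B (Sum.inl x) (Sum.inl i) * δ (Sum.inl i) *
            B (Sum.inl y) (Sum.inl i) = N x i * N y i := by
          intro i
          simp [hB, hδ]
        simp only [e]
        by_cases hxy : x = y
        · subst hxy
          rw [S3, diagonal_apply_eq]
          simp [hB, hδ, hrk]
          ring
        · rw [S2 x y hxy, diagonal_apply_ne _ (by simpa using hxy)]
          simp [hB, hδ]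
      · have e : ∀ i : Fin v, B (Sum.inl x) (Sum.inl i) * δ (Sum.inl i) *
            B (Sum.inr w) (Sum.inl i) = N x i * l := by
          intro i
          simp [hB, hδ]
        simp only [e]
        rw [← Finset.sum_mul, S1, hrk, diagonal_apply_ne _ (by simp)]
        simp [hB, hδ]
        try ring
    · rcases j with y | w
      · have e : ∀ i : Fin v, B (Sum.inr u) (Sum.inl i) * δ (Sum.inl i) *
            B (Sum.inl y) (Sum.inl i) = N y i * l := by
          intro i
          simp [hB, hδ]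
          ring
        simp only [e]
        rw [← Finset.sum_mul, S1, hrk, diagonal_apply_ne _ (by simp)]
        simp [hB, hδ]
        try ring
      · have e : ∀ i : Fin v, B (Sum.inr u) (Sum.inl i) * δ (Sum.inl i) *
            B (Sum.inr w) (Sum.inl i) = (l : ℤ) * l := by
          intro i
          simp [hB, hδ]
        simp only [e]
        have huw : u = w := Subsingleton.elim _ _
        subst huw
        rw [diagonal_apply_eq]
        simp [hB, hδ]
        linear_combination (l : ℤ) * hlk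
  have hdet : (diagonal δ).det = -(l : ℤ) := by
    rw [det_diagonal, Fintype.prod_sum_type]
    simp [hδ]
  have hsub : ((k - l : ℕ) : ℤ) = (k : ℤ) - l := by
    rw [Nat.cast_sub hle]
  obtain ⟨t, ht1, ht2⟩ := Brc.similitude B (diagonal δ) ((k : ℤ) - l) p hp
    (diagonal_transpose _) hsim (by rw [← hsub]; exact_mod_cast h1)
    (by rw [← hsub]; exact_mod_cast h2)
    (by rw [hdet, dvd_neg]; exact_mod_cast h3)
  have hvt : v + 1 = 2 * t := by
    rw [← ht1]
    simp
  refine ⟨by omega, ?_⟩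
  rw [hdet] at ht2
  have ht : t = (v - 1) / 2 + 1 := by omega
  rw [ht, pow_succ] at ht2
  convert ht2 using 1
  push_cast
  ring

end Pool.Agent.H177R2.SD
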