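import Pool.Agent.H177R2.SD.CountC

/-!
Counting theorem.
-/

set_option autoImplicit false

namespace Pool.Agent.H177R2.SD

open Finset Filter Topology

open Classical in
/-- the members of `[1, X]` with a fixed pair `(a, d)` -/
noncomputable def SM (s : ℤ) (X a d : ℕ) : Finset ℕ :=
  {m ∈ Icc 1 X | ∃ b c : ℕ, m = b * d ∧ a * b = c * d + 1 ∧ ∀ p : ℕ, p.Prime → p ≠ 2 → ¬ T1 s p d a b}

lemma small_total (s : ℤ) (hs : s = 1 ∨ s = -1) (D : ℕ) (ε : ℝ) (hε : 0 < ε) :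
    ∃ X0 : ℕ, ∀ X ≥ X0,
      ∑ x ∈ ((range (D + 1)) ×ˢ (range (D + 1))).filter
        (fun x => 1 ≤ x.1 ∧ x.1 < x.2 ∧ ¬ IsSquare (s * ((x.1 : ℤ) * ((x.1 : ℤ) - x.2)))),
        ((SM s X x.1 x.2).card : ℝ) ≤ ε * X := by
  classical
  set B := ((range (D + 1)) ×ˢ (range (D + 1))).filter
        (fun x => 1 ≤ x.1 ∧ x.1 < x.2 ∧ ¬ IsSquare (s * ((x.1 : ℤ) * ((x.1 : ℤ) - x.2)))) with hB
  have h1 : ∀ x ∈ B, ∃ X0 : ℕ, ∀ X ≥ X0, ((SM s X x.1 x.2).card : ℝ) ≤ (ε / (B.card + 1)) * X := by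
    intro x hx
    rw [hB, mem_filter] at hx
    exact small s hs x.1 x.2 hx.2.1 hx.2.2.1 hx.2.2.2 _ (by positivity)
  choose! f hf using h1
  refine ⟨B.sup f, ?_⟩
  intro X hX
  calc ∑ x ∈ B, ((SM s X x.1 x.2).card : ℝ) ≤ ∑ x ∈ B, (ε / (B.card + 1)) * X := by
        apply sum_le_sum
        intro x hx
        exact hf x hx X (le_trans (le_sup (f := f) hx) hX)
    _ = (B.card / (B.card + 1)) * (ε * X) := by
        rw [sum_const, nsmul_eq_mul]; ring
    _ ≤ 1 * (ε * X) := by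
        apply mul_le_mul_of_nonneg_right _ (by positivity)
        rw [div_le_one (by positivity)]
        linarith
    _ = ε * X := one_mul _

lemma near_total : ∃ C : ℝ, ∃ rn : ℕ, 0 < C ∧ 1 ≤ rn ∧ ∀ R ≥ rn, ∀ r0 : ℕ, ∀ s : ℤ, ∀ X : ℕ,
    4 ^ (2 ^ r0 + 2 ^ R) ≤ X →
    ∑ j ∈ (range (X + 1)).filter (fun j => 4 ^ j ≤ X ∧ LL X j < 2 ^ r0), ((BS s X j R).card : ℝ)
      ≤ 2 ^ r0 * (C * (R / 2 ^ R) * (2 : ℝ) ^ ((19 : ℝ) / 20 * R)) * X := by
  obtain ⟨C, rn, hC, hrn, h⟩ := near_count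
  refine ⟨C, rn, hC, hrn, ?_⟩
  intro R hR r0 s X hX
  set J := (range (X + 1)).filter (fun j => 4 ^ j ≤ X ∧ LL X j < 2 ^ r0) with hJ
  have hX0 : X ≠ 0 := by
    have : 0 < 4 ^ (2 ^ r0 + 2 ^ R) := by positivity
    omega
  set L := Nat.log 4 X with hL
  have hLX : 2 ^ r0 + 2 ^ R ≤ L := Nat.le_log_of_pow_le (by norm_num) hX
  have hJsub : J ⊆ Ioc (L - 2 ^ r0) L := by
    intro j hj
    rw [hJ, mem_filter] at hj
    obtain ⟨-, h4, hl⟩ := hj
    rw [mem_Ioc]
    constructor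
    · have h1 : TT X j < 2 ^ 2 ^ r0 := by
        unfold LL at hl
        exact Nat.lt_pow_of_log_lt (by norm_num) hl
      have h2 : X / 4 ^ j < 2 ^ 2 ^ r0 := by
        unfold TT at h1
        exact lt_of_lt_of_le (Nat.lt_succ_self _) h1.le
      have h3 : X < 2 ^ 2 ^ r0 * 4 ^ j := by
        rwa [Nat.div_lt_iff_lt_mul (by positivity)] at h2
      have h5 : 4 ^ L ≤ X := Nat.pow_log_le_self 4 hX0
      have h6 : 4 ^ L < 4 ^ (2 ^ r0 + j) := by
        calc 4 ^ L ≤ X := h5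
          _ < 2 ^ 2 ^ r0 * 4 ^ j := h3
          _ ≤ 4 ^ 2 ^ r0 * 4 ^ j := Nat.mul_le_mul_right _ (Nat.pow_le_pow_left (by norm_num) _)
          _ = 4 ^ (2 ^ r0 + j) := by rw [pow_add]
      have h7 := (Nat.pow_lt_pow_iff_right (by norm_num)).1 h6
      have h8 : 0 < 2 ^ R := by positivity
      have h9 : 0 < 2 ^ r0 := by positivity
      omega
    · exact Nat.le_log_of_pow_le (by norm_num) h4
  have hcard : (J.card : ℝ) ≤ 2 ^ r0 := by
    have h1 := card_le_card hJsub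
    rw [Nat.card_Ioc] at h1
    have h9 : 0 < 2 ^ r0 := by positivity
    have : J.card ≤ 2 ^ r0 := by omega
    exact_mod_cast this
  have hterm : ∀ j ∈ J, ((BS s X j R).card : ℝ) ≤ C * (R / 2 ^ R) * (2 : ℝ) ^ ((19 : ℝ) / 20 * R) * X := by
    intro j hj
    have h1 := mem_Ioc.1 (hJsub hj)
    rw [hJ, mem_filter] at hj
    have h8 : 0 < 2 ^ R := by positivity
    have h9 : 0 < 2 ^ r0 := by positivity
    exact h R hR s X j (by omega) hj.2.1
  calc ∑ j ∈ J, ((BS s X j R).card : ℝ) ≤ ∑ j ∈ J, C * (R / 2 ^ R) * (2 : ℝ) ^ ((19 : ℝ) / 20 * R) * X :=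
        sum_le_sum hterm
    _ = J.card * (C * (R / 2 ^ R) * (2 : ℝ) ^ ((19 : ℝ) / 20 * R) * X) := by
        rw [sum_const, nsmul_eq_mul]
    _ ≤ 2 ^ r0 * (C * (R / 2 ^ R) * (2 : ℝ) ^ ((19 : ℝ) / 20 * R) * X) :=
        mul_le_mul_of_nonneg_right hcard (by positivity)
    _ = _ := by ring

lemma near_tendsto : Tendsto (fun R : ℕ => ((R : ℝ) / 2 ^ R) * (2 : ℝ) ^ ((19 : ℝ) / 20 * R)) atTop (𝓝 0) := by
  have h1 : Tendsto (fun n : ℕ => (n : ℝ) ^ 1 * ((2 : ℝ) ^ (-(1 : ℝ) / 20)) ^ n) atTop (𝓝 0) := by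
    apply tendsto_pow_const_mul_const_pow_of_abs_lt_one
    rw [abs_of_pos (by positivity)]
    exact Real.rpow_lt_one_of_one_lt_of_neg (by norm_num) (by norm_num)
  refine h1.congr ?_
  intro R
  have e1 : ((2 : ℝ) ^ (-(1 : ℝ) / 20)) ^ R = (2 : ℝ) ^ (-(1 : ℝ) / 20 * R) := by
    rw [← Real.rpow_natCast, ← Real.rpow_mul (by norm_num)]
  have e2 : (2 : ℝ) ^ R = (2 : ℝ) ^ (R : ℝ) := by rw [Real.rpow_natCast]
  have e3 : (R : ℝ) / (2 : ℝ) ^ (R : ℝ) = R * (2 : ℝ) ^ (-(R : ℝ)) := by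
    rw [Real.rpow_neg (by norm_num), div_eq_mul_inv]
  rw [e1, pow_one, e2, e3, mul_assoc, ← Real.rpow_add (by norm_num)]
  congr 2; ring

open Classical in
theorem count (s : ℤ) (hs : s = 1 ∨ s = -1) (ε : ℝ) (hε : 0 < ε) :
    ∃ X0 : ℕ, ∀ X ≥ X0, (((Icc 1 X).filter (fun m => Bad s m)).card : ℝ) ≤ ε * X := by
  obtain ⟨r1, hr1, hblocks⟩ := blocks_total (ε / 8) (by positivity)
  obtain ⟨r2, hr2, htyp⟩ := typical_total (ε / 8) (by positivity)
  obtain ⟨Cn, rn, hCn, hrn, hnear⟩ := near_total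
  set r0 := max r1 r2 with hr0
  have hr01 : r1 ≤ r0 := le_max_left _ _
  have hr02 : r2 ≤ r0 := le_max_right _ _
  -- choose R
  have hlim : Tendsto (fun R : ℕ => 2 ^ r0 * (Cn * (((R : ℝ) / 2 ^ R) * (2 : ℝ) ^ ((19 : ℝ) / 20 * R))))
      atTop (𝓝 0) := by
    have := (near_tendsto.const_mul Cn).const_mul ((2 : ℝ) ^ r0)
    simpa using this
  obtain ⟨R, hRs, hR1⟩ : ∃ R : ℕ, 2 ^ r0 * (Cn * (((R : ℝ) / 2 ^ R) * (2 : ℝ) ^ ((19 : ℝ) / 20 * R))) ≤ ε / 8
      ∧ max rn r0 ≤ R := by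
    have h1 := hlim.eventually (eventually_le_nhds (show (0 : ℝ) < ε / 8 by positivity))
    exact (h1.and (eventually_ge_atTop (max rn r0))).exists
  have hRn : rn ≤ R := (le_max_left _ _).trans hR1
  have hRr : r0 ≤ R := (le_max_right _ _).trans hR1
  set D0 := 2 ^ 2 ^ r0 with hD0
  obtain ⟨X1, hX1⟩ := small_total s hs D0 (ε / 8) (by positivity)
  refine ⟨max X1 (4 ^ (2 ^ r0 + 2 ^ R) + R + 1), ?_⟩
  intro X hX
  have hXX1 : X ≥ X1 := le_trans (le_max_left _ _) hX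
  have hXX2 : 4 ^ (2 ^ r0 + 2 ^ R) + R + 1 ≤ X := le_trans (le_max_right _ _) hX
  have hRX : R + 1 ≤ X := by
    refine le_trans ?_ hXX2
    rw [add_assoc]
    exact Nat.le_add_left _ _
  set B := ((range (D0 + 1)) ×ˢ (range (D0 + 1))).filter
        (fun x => 1 ≤ x.1 ∧ x.1 < x.2 ∧ ¬ IsSquare (s * ((x.1 : ℤ) * ((x.1 : ℤ) - x.2)))) with hB
  set J1 := (range (X + 1)).filter (fun j => 4 ^ j ≤ X ∧ 2 ^ r0 ≤ ii X j) with hJ1
  set J2 := (range (X + 1)).filter (fun j => 4 ^ j ≤ X ∧ LL X j < 2 ^ r0) with hJ2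
  have hsub : (Icc 1 X).filter (fun m => Bad s m) ⊆
      (B.biUnion fun x => SM s X x.1 x.2) ∪ ((Ico r0 (X + 1)).biUnion fun r => TY X r) ∪
      (J1.biUnion fun j => BS s X j (rr X j)) ∪ (J2.biUnion fun j => BS s X j R) := by
    intro m hm
    rw [mem_filter] at hm
    obtain ⟨hmI, a, b, c, d, ha, had, hdb, hab, hmbd, hsq, hpass⟩ := hm
    rw [mem_union, mem_union, mem_union]
    by_cases hd : d ≤ D0
    · left; left; left
      rw [mem_biUnion]
      refine ⟨(a, d), ?_, ?_⟩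
      · rw [hB, mem_filter, mem_product, mem_range, mem_range]
        exact ⟨⟨by simp only; omega, by simp only; omega⟩, ha, had, hsq⟩
      · unfold SM
        rw [mem_filter]
        exact ⟨hmI, b, c, hmbd, hab, fun p hp hp2 => (hpass p hp hp2).1⟩
    · push Not at hd
      set j := Nat.log 2 (d - 1) with hj
      have hd1 : 2 ^ j < d := by
        have := Nat.pow_log_le_self 2 (show d - 1 ≠ 0 by omega)
        rw [← hj] at this; omega
      have hd2 : d ≤ 2 ^ (j + 1) := by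
        have := Nat.lt_pow_succ_log_self (show 1 < 2 by norm_num) (d - 1)
        rw [← hj] at this
        have e : j.succ = j + 1 := rfl
        omega
      have hblk : InBlock s j m := ⟨a, b, c, d, ha, had, hdb, hab, hmbd, hd1, hd2, hpass⟩
      have hmX := (mem_Icc.1 hmI).2
      have h4j : 4 ^ j ≤ X := by
        calc 4 ^ j = 2 ^ j * 2 ^ j := by rw [← mul_pow]; norm_num
          _ ≤ b * d := Nat.mul_le_mul (by omega) hd1.le
          _ ≤ X := by omega
      have hjX : j ≤ X := by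
        have h1 : j < 4 ^ j := Nat.lt_pow_self (by norm_num)
        omega
      have hj0 : 2 ^ r0 ≤ j := by
        apply Nat.le_log_of_pow_le (by norm_num)
        rw [hD0] at hd; omega
      by_cases hL : LL X j < 2 ^ r0
      · by_cases ht : 20 * om R m ≤ 19 * R
        · right
          rw [mem_biUnion]
          refine ⟨j, ?_, ?_⟩
          · rw [hJ2, mem_filter, mem_range]; exact ⟨by omega, h4j, hL⟩
          · unfold BS; rw [mem_filter]; exact ⟨hmI, ht, hblk⟩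
        · left; left; right
          rw [mem_biUnion]
          refine ⟨R, ?_, ?_⟩
          · rw [mem_Ico]; exact ⟨hRr, Nat.lt_succ_of_lt hRX⟩
          · unfold TY; rw [mem_filter]; exact ⟨hmI, by omega⟩
      · push Not at hL
        have hi : 2 ^ r0 ≤ ii X j := le_min hj0 hL
        have hr : r0 ≤ rr X j := rr_le hi
        have hrX : rr X j ≤ X := by
          have h1 : rr X j ≤ ii X j := Nat.log_le_self 2 _
          have h2 : ii X j ≤ j := min_le_left _ _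
          omega
        by_cases ht : 20 * om (rr X j) m ≤ 19 * rr X j
        · left; right
          rw [mem_biUnion]
          refine ⟨j, ?_, ?_⟩
          · rw [hJ1, mem_filter, mem_range]; exact ⟨by omega, h4j, hi⟩
          · unfold BS; rw [mem_filter]; exact ⟨hmI, ht, hblk⟩
        · left; left; right
          rw [mem_biUnion]
          refine ⟨rr X j, ?_, ?_⟩
          · rw [mem_Ico]; exact ⟨hr, by omega⟩
          · unfold TY; rw [mem_filter]; exact ⟨hmI, by omega⟩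
  have hcard := (card_le_card hsub).trans ((card_union_le _ _).trans (Nat.add_le_add_right
    ((card_union_le _ _).trans (Nat.add_le_add_right (card_union_le _ _) _)) _))
  have c1 : ((B.biUnion fun x => SM s X x.1 x.2).card : ℝ) ≤ ε / 8 * X := by
    refine le_trans ?_ (hX1 X hXX1)
    have := card_biUnion_le (s := B) (t := fun x => SM s X x.1 x.2)
    exact_mod_cast this
  have c2 : (((Ico r0 (X + 1)).biUnion fun r => TY X r).card : ℝ) ≤ ε / 8 * X := by
    refine le_trans ?_ (htyp r0 hr02 X (X + 1))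
    have := card_biUnion_le (s := Ico r0 (X + 1)) (t := fun r => TY X r)
    exact_mod_cast this
  have c3 : ((J1.biUnion fun j => BS s X j (rr X j)).card : ℝ) ≤ ε / 8 * X := by
    refine le_trans ?_ (hblocks r0 hr01 s hs X)
    have := card_biUnion_le (s := J1) (t := fun j => BS s X j (rr X j))
    exact_mod_cast this
  have c4 : ((J2.biUnion fun j => BS s X j R).card : ℝ) ≤ ε / 8 * X := by
    have h1 := hnear R hRn r0 s X (by omega)
    have h2 : ((J2.biUnion fun j => BS s X j R).card : ℝ) ≤ ∑ j ∈ J2, ((BS s X j R).card : ℝ) := by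
      have := card_biUnion_le (s := J2) (t := fun j => BS s X j R)
      exact_mod_cast this
    refine (h2.trans h1).trans ?_
    apply mul_le_mul_of_nonneg_right _ (by positivity)
    calc _ = 2 ^ r0 * (Cn * (((R : ℝ) / 2 ^ R) * (2 : ℝ) ^ ((19 : ℝ) / 20 * R))) := by ring
      _ ≤ ε / 8 := hRs
  have hc : (((Icc 1 X).filter (fun m => Bad s m)).card : ℝ) ≤
      ((B.biUnion fun x => SM s X x.1 x.2).card : ℝ) + (((Ico r0 (X + 1)).biUnion fun r => TY X r).card : ℝ)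
      + ((J1.biUnion fun j => BS s X j (rr X j)).card : ℝ) + ((J2.biUnion fun j => BS s X j R).card : ℝ) := by
    exact_mod_cast hcard
  have hX0 : (0 : ℝ) ≤ ε * X := by positivity
  calc _ ≤ ε / 8 * X + ε / 8 * X + ε / 8 * X + ε / 8 * X := by linarith
    _ ≤ ε * X := by linarith

end Pool.Agent.H177R2.SD
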