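import Pool.Agent.H177R2.SD.CountC
import Pool.Agent.H177R2.SD.Block2

/-!
Counting realised parameter triples: blocks.
-/

set_option autoImplicit false

namespace Pool.Agent.H177R2.SD

open Finset Filter Topology

open Classical in
/-- pairs `(d, b)` in a dyadic block passing all tests -/
noncomputable def GJ (s : ℤ) (X j : ℕ) : Finset (ℕ × ℕ) :=
  ((Icc 1 X) ×ˢ (Icc 1 X)).filter (fun y => y.2 * y.1 ≤ X ∧ 2 ^ j < y.1 ∧ y.1 ≤ 2 ^ (j + 1) ∧
    ∃ a c : ℕ, 1 ≤ a ∧ a < y.1 ∧ y.1 < y.2 ∧ a * y.2 = c * y.1 + 1 ∧ Pass s y.1 a y.2)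

lemma prod_g2 {s : ℤ} {a b d : ℕ} (r : ℕ) (ht : Pass s d a b) :
    ∏ p ∈ PR r, g2 s p d a b = 1 := by
  apply prod_eq_one
  intro p hp
  obtain ⟨hp10, hpp⟩ := mem_PRa hp
  have h2 := ht p hpp (by omega)
  unfold g2
  rw [if_neg (by tauto)]

lemma GJ_sum (s : ℤ) (X j r : ℕ) : ((GJ s X j).card : ℝ) ≤
    ∑ x ∈ (Ico (2 ^ j + 1) (2 ^ j + 1 + 2 ^ j)) ×ˢ (range (2 ^ (j + 1))) ×ˢ (range (X / 4 ^ j + 1)),
      ∏ p ∈ PR r, g2 s p x.1 x.2.1 (b0 x.1 x.2.1 + x.1 * x.2.2) := by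
  set box := (Ico (2 ^ j + 1) (2 ^ j + 1 + 2 ^ j)) ×ˢ (range (2 ^ (j + 1))) ×ˢ (range (X / 4 ^ j + 1)) with hbox
  set w : ℕ × ℕ × ℕ → ℝ := fun x => ∏ p ∈ PR r, g2 s p x.1 x.2.1 (b0 x.1 x.2.1 + x.1 * x.2.2) with hw
  have key : ∀ y ∈ GJ s X j, ∃ x ∈ box, (x.1, b0 x.1 x.2.1 + x.1 * x.2.2) = y ∧ w x = 1 := by
    rintro ⟨d, b⟩ hy
    simp only [GJ, mem_filter, mem_product, mem_Icc] at hy
    obtain ⟨⟨⟨hd1, hdX⟩, ⟨hb1, hbX⟩⟩, hbd, hj1, hj2, a, c, ha, had, hdb, hab, hpass⟩ := hy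
    have hb : b0 d a + d * (b / d) = b := by
      have h1 : a * b ≡ 1 [MOD d] := by
        rw [hab]
        have : c * d + 1 = 1 + d * c := by ring
        rw [this]
        exact Nat.ModEq.trans (by simp [Nat.ModEq]) (Nat.ModEq.refl 1)
      rw [← b0_spec h1]
      exact Nat.mod_add_div b d
    refine ⟨(d, a, b / d), ?_, ?_, ?_⟩
    · rw [hbox, mem_product, mem_product, mem_Ico, mem_range, mem_range]
      refine ⟨⟨by simpa using hj1, by simp only; rw [pow_succ] at hj2; omega⟩, by simp only; omega, ?_⟩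
      simp only
      have h2 : b / d = (b * d) / (d * d) := by
        rw [Nat.mul_div_mul_right _ _ (by omega)]
      rw [h2]
      have h3 : 4 ^ j ≤ d * d := by
        calc 4 ^ j = 2 ^ j * 2 ^ j := by rw [← mul_pow]; norm_num
          _ ≤ d * d := Nat.mul_le_mul hj1.le hj1.le
      have h4 : (b * d) / (d * d) ≤ X / 4 ^ j := Nat.div_le_div hbd h3 (by positivity)
      omega
    · simp only
      rw [hb]
    · simp only [hw]
      rw [hb, prod_g2 r hpass]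
  choose! f hf using key
  have hinj : Set.InjOn f (GJ s X j) := by
    intro m hm m' hm' h
    rw [← (hf m hm).2.1, ← (hf m' hm').2.1, h]
  have hw0 : ∀ x, 0 ≤ w x := fun x => prod_nonneg fun p _ => (g2_mem s p _ _ _).1
  calc ((GJ s X j).card : ℝ) = ∑ m ∈ GJ s X j, w (f m) := by
        rw [card_eq_sum_ones]
        push_cast
        apply sum_congr rfl
        intro m hm
        rw [(hf m hm).2.2]
    _ = ∑ x ∈ (GJ s X j).image f, w x := by
        rw [sum_image hinj]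
    _ ≤ ∑ x ∈ box, w x := by
        apply sum_le_sum_of_subset_of_nonneg
        · intro x hx
          obtain ⟨m, hm, rfl⟩ := mem_image.1 hx
          exact (hf m hm).1
        · intro x _ _
          exact hw0 x

lemma vol_le {X j : ℕ} (hX : 4 ^ j ≤ X) :
    (((2 ^ j : ℕ) : ℝ) * ((2 ^ (j + 1) : ℕ) : ℝ) * ((X / 4 ^ j + 1 : ℕ) : ℝ)) ≤ 4 * X := by
  have : 2 ^ j * 2 ^ (j + 1) * (X / 4 ^ j + 1) ≤ 4 * X := by
    have e : 2 ^ j * 2 ^ (j + 1) = 2 * 4 ^ j := by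
      rw [show (4 : ℕ) = 2 * 2 by norm_num, mul_pow, pow_succ]; ring
    rw [e]
    have := Nat.mul_div_le X (4 ^ j)
    nlinarith
  exact_mod_cast this

lemma GJ_trivial (s : ℤ) {X j : ℕ} (hX : 4 ^ j ≤ X) : ((GJ s X j).card : ℝ) ≤ 4 * X := by
  refine (GJ_sum s X j 0).trans ?_
  refine le_trans (sum_le_card_nsmul _ _ 1 ?_) ?_
  · intro x _
    exact prod_le_one (fun p _ => (g2_mem s p _ _ _).1) (fun p _ => (g2_mem s p _ _ _).2)
  · rw [card_product, card_product, Nat.card_Ico, card_range, card_range, nsmul_eq_mul, mul_one]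
    have := vol_le hX
    refine le_trans (le_of_eq ?_) this
    push_cast
    rw [show (2 ^ j + 1 + 2 ^ j - (2 ^ j + 1) : ℕ) = 2 ^ j from Nat.add_sub_cancel_left _ _]
    push_cast
    ring

lemma GJ_block : ∃ C : ℝ, ∃ r0 : ℕ, 0 < C ∧ 1 ≤ r0 ∧ ∀ s : ℤ, (s = 1 ∨ s = -1) → ∀ X j : ℕ,
    2 ^ r0 ≤ ii X j → 4 ^ j ≤ X →
    ((GJ s X j).card : ℝ) ≤ C * ((Nat.log 2 (ii X j) : ℝ) / ii X j) * X := by
  obtain ⟨C, r0, hC, hr0, h⟩ := block2
  refine ⟨8 * C, r0, by positivity, hr0, ?_⟩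
  intro s hs X j hi hX
  have hr := rr_le hi
  have hi1 : 1 ≤ ii X j := le_trans Nat.one_le_two_pow hi
  have hpow := pow_rr_le (X := X) (j := j) (by omega)
  have hjr : 2 ^ rr X j ≤ j := hpow.trans (min_le_left _ _)
  have h1 := h (rr X j) hr s hs (2 ^ j + 1) (2 ^ j) (2 ^ (j + 1)) (X / 4 ^ j + 1)
    (Nat.pow_le_pow_right (by norm_num) hjr) (Nat.pow_le_pow_right (by norm_num) (by omega)) (by
      have h2 : 2 ^ rr X j ≤ LL X j := hpow.trans (min_le_right _ _)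
      exact Nat.pow_le_of_le_log (y := TT X j) (Nat.succ_ne_zero _) h2) b0
  have h2 := (GJ_sum s X j (rr X j)).trans h1
  have h3 := vol_le hX
  have h4 : (ii X j : ℝ) ≤ 2 * 2 ^ rr X j := by
    have : ii X j < 2 ^ (rr X j + 1) := Nat.lt_pow_succ_log_self (by norm_num) _
    rw [pow_succ] at this
    have h5 : ii X j ≤ 2 * 2 ^ rr X j := by omega
    exact_mod_cast h5
  have hi0 : (0 : ℝ) < ii X j := by exact_mod_cast hi1
  have h5 : (rr X j : ℝ) / 2 ^ rr X j ≤ 2 * ((Nat.log 2 (ii X j) : ℝ) / ii X j) := by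
    have e : (Nat.log 2 (ii X j) : ℝ) = rr X j := rfl
    rw [e, div_le_iff₀ (by positivity)]
    have h6 : 1 ≤ 2 * (1 / (ii X j : ℝ)) * 2 ^ rr X j := by
      rw [mul_one_div, div_mul_eq_mul_div, le_div_iff₀ hi0]; linarith
    have h7 : (0 : ℝ) ≤ rr X j := by positivity
    calc (rr X j : ℝ) = rr X j * 1 := by ring
      _ ≤ rr X j * (2 * (1 / (ii X j : ℝ)) * 2 ^ rr X j) := mul_le_mul_of_nonneg_left h6 h7
      _ = _ := by ring
  calc ((GJ s X j).card : ℝ) ≤ C * (rr X j : ℝ) / 2 ^ rr X j *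
        (((2 ^ j : ℕ) : ℝ) * ((2 ^ (j + 1) : ℕ) : ℝ) * ((X / 4 ^ j + 1 : ℕ) : ℝ)) := h2
    _ ≤ C * (rr X j : ℝ) / 2 ^ rr X j * (4 * X) := mul_le_mul_of_nonneg_left h3 (by positivity)
    _ = 4 * C * ((rr X j : ℝ) / 2 ^ rr X j) * X := by ring
    _ ≤ 4 * C * (2 * ((Nat.log 2 (ii X j) : ℝ) / ii X j)) * X := by
        apply mul_le_mul_of_nonneg_right _ (by positivity)
        exact mul_le_mul_of_nonneg_left h5 (by positivity)
    _ = _ := by ring

end Pool.Agent.H177R2.SD
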