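import Pool.Agent.H177R2.SD.Err
import Pool.Agent.H177R2.SD.Brun
import Pool.Agent.H177R2.SD.Avg
import Pool.Agent.H177R2.SD.Mert

/-!
One-dimensional bound (helper862).
-/

set_option autoImplicit false

namespace Pool.Agent.H177R2.SD

open Finset Filter Topology

/-- half the indicator of divisibility -/
noncomputable def hv (p n : ℕ) : ℝ := if p ∣ n then 1 / 2 else 0

theorem sum_hv {p : ℕ} (hp : 0 < p) : ∑ n ∈ range p, hv p n = 1 / 2 := by
  unfold hv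
  rw [sum_eq_single 0]
  · simp
  · intro n hn h0
    rw [if_neg]
    intro hd
    have := Nat.le_of_dvd (Nat.pos_of_ne_zero h0) hd
    have := mem_range.1 hn
    omega
  · intro h
    exact absurd (mem_range.2 hp) h

theorem approx1 {r : ℕ} (N : ℕ) {S : Finset ℕ} (hS : S ⊆ PR r)
    (hc : S.card ≤ 2 * (6 * r)) :
    |∑ n ∈ Icc 1 N, ∏ p ∈ S, hv p n - (N : ℝ) * ∏ p ∈ S, (1 / (2 * (p : ℝ)))|
      ≤ ((yy r : ℝ) + 1) ^ (12 * r) := by
  have h := avg1 S (fun p => p) (fun p hp => (mem_PR (hS hp)).1.pos)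
    (fun p hp q hq hne =>
      (Nat.coprime_primes (mem_PR (hS hp)).1 (mem_PR (hS hq)).1).2 hne) hv
    (fun p _ n => by unfold hv; split_ifs <;> norm_num)
    (fun p _ n => by unfold hv; simp) 1 N
  have e : ∀ p ∈ S, (∑ n ∈ range p, hv p n) / (p : ℝ) = 1 / (2 * (p : ℝ)) := fun p hp => by
    rw [sum_hv (mem_PR (hS hp)).1.pos]
    rw [div_div]
  rw [prod_congr rfl e] at h
  have e1 : Ico 1 (1 + N) = Icc 1 N := by
    ext x; simp only [mem_Ico, mem_Icc]; omega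
  rw [e1] at h
  refine h.trans ?_
  have h2 := prod_le hS hc 1
  simp only [pow_one, one_mul] at h2
  exact h2

theorem om_eq (r n : ℕ) : (1 / 2 : ℝ) ^ om r n = ∏ p ∈ PR r, (1 - hv p n) := by
  unfold om
  rw [← prod_const, prod_filter]
  refine prod_congr rfl fun p _ => ?_
  unfold hv
  split_ifs <;> norm_num

theorem near : ∃ C : ℝ, ∃ r0 : ℕ, 0 < C ∧ 1 ≤ r0 ∧ ∀ r ≥ r0, ∀ N : ℕ, 2 ^ 2 ^ r ≤ N →
    (∑ n ∈ Icc 1 N, (1 / 2 : ℝ) ^ om r n) ^ 2 ≤ C * (r / 2 ^ r) * (N : ℝ) ^ 2 := by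
  obtain ⟨C1, hup⟩ := mert_upper
  obtain ⟨C2, hlo⟩ := mert_lower
  obtain ⟨r1, hr1, herr⟩ := err_small
  refine ⟨(Real.exp (C2 / 2) + 2) ^ 2, max r1 ⌈4 * |C1|⌉₊, by positivity,
    hr1.trans (le_max_left _ _), ?_⟩
  intro r hr N hN
  have hrr1 : r1 ≤ r := (le_max_left _ _).trans hr
  have hr0 : 1 ≤ r := hr1.trans hrr1
  have hrC : 4 * |C1| ≤ r :=
    (Nat.le_ceil _).trans (by exact_mod_cast (le_max_right _ _).trans hr)
  have hlog : Real.log 2 ≤ 0.7 := by linarith [Real.log_two_lt_d9]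
  have hr0' : (1 : ℝ) ≤ r := by exact_mod_cast hr0
  have hpR : ∀ p ∈ PR r, (10 : ℝ) < p := fun p hp => by exact_mod_cast (mem_PR hp).2.1
  have hη : ∀ p ∈ PR r, 0 ≤ 1 / (2 * (p : ℝ)) ∧ 1 / (2 * (p : ℝ)) ≤ 1 := fun p hp => by
    have h0 := hpR p hp
    refine ⟨by positivity, ?_⟩
    rw [div_le_one (by linarith)]
    linarith
  have hb := brun (Icc 1 N) (PR r) hv (fun p => 1 / (2 * (p : ℝ)))
    (fun p _ x _ => by unfold hv; split_ifs <;> norm_num) hη (6 * r) N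
    (((yy r : ℝ) + 1) ^ (12 * r)) (by positivity) (by positivity)
    (fun S hS hc => approx1 N hS hc)
  have hsum : ∑ p ∈ PR r, 1 / (2 * (p : ℝ)) = 1 / 2 * ∑ p ∈ PR r, (1 : ℝ) / p := by
    rw [mul_sum]
    exact sum_congr rfl fun p _ => by rw [one_div_mul_one_div]
  have h2 := hup r hr0
  have h3 : r * Real.log 2 ≤ r * 0.7 := mul_le_mul_of_nonneg_left hlog (by linarith)
  have h4 := le_abs_self C1
  have h7 := hlo r hr0
  have s1 : ∑ p ∈ PR r, 1 / (2 * (p : ℝ)) ≤ 3 * r := by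
    rw [hsum]
    linarith
  have hx : (0 : ℝ) < r / 2 ^ r := by positivity
  set q : ℝ := Real.sqrt (r / 2 ^ r) with hq
  have hq2 : q ^ 2 = r / 2 ^ r := Real.sq_sqrt hx.le
  have hq0 : 0 < q := Real.sqrt_pos.2 hx
  have t1 : ∏ p ∈ PR r, (1 - 1 / (2 * (p : ℝ))) ≤ Real.exp (C2 / 2) * q := by
    refine (prod_one_sub_le _ _ fun p hp => (hη p hp).2).trans ?_
    rw [hsum]
    have h1 : -(1 / 2 * ∑ p ∈ PR r, (1 : ℝ) / p)
        ≤ C2 / 2 + 1 / 2 * (Real.log r - r * Real.log 2) := by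
      linarith
    refine (Real.exp_le_exp.2 h1).trans (le_of_eq ?_)
    rw [Real.exp_add]
    congr 1
    rw [← Real.log_pow, ← Real.log_div (by positivity) (by positivity), hq, Real.sqrt_eq_rpow,
      Real.rpow_def_of_pos hx, mul_comm]
  have t2 : (∑ p ∈ PR r, 1 / (2 * (p : ℝ))) ^ (2 * (6 * r) + 1) / (2 * (6 * r) + 1).factorial
      ≤ 1 / 4 ^ r := tail_small (sum_nonneg fun p hp => (hη p hp).1) s1
  have t3 : (((PR r).card : ℝ) + 1) ^ (2 * (6 * r))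
      * (((yy r : ℝ) + 1) ^ (12 * r)) ≤ 1 / 4 ^ r * N := by
    have h1 : (((PR r).card : ℝ) + 1) ^ (2 * (6 * r)) ≤ ((yy r : ℝ) + 1) ^ (12 * r) := by
      rw [show 2 * (6 * r) = 12 * r by ring]
      exact pow_le_pow_left₀ (by positivity) (by linarith [card_PR r]) _
    have hN' : (2 : ℝ) ^ 2 ^ r ≤ N := by exact_mod_cast hN
    set E : ℝ := 2 ^ 2 ^ r with hE
    have hE0 : 0 < E := by positivity
    have h3 := herr r hrr1
    have hy1 : (1 : ℝ) ≤ (yy r : ℝ) + 1 := by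
      have : (0 : ℝ) ≤ yy r := Nat.cast_nonneg _
      linarith
    have hy : ((yy r : ℝ) + 1) ^ (12 * r) ≤ ((yy r : ℝ) + 1) ^ (24 * r) :=
      pow_le_pow_right₀ hy1 (by omega)
    calc (((PR r).card : ℝ) + 1) ^ (2 * (6 * r)) * (((yy r : ℝ) + 1) ^ (12 * r))
        ≤ ((yy r : ℝ) + 1) ^ (12 * r) * ((yy r : ℝ) + 1) ^ (24 * r) := by
          gcongr
      _ = ((yy r : ℝ) + 1) ^ (36 * r) / E * E := by
          rw [show 36 * r = 12 * r + 24 * r by ring, pow_add]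
          field_simp
      _ ≤ (3 * ((yy r : ℝ) + 1) ^ (36 * r) / E) * N := by
          have : ((yy r : ℝ) + 1) ^ (36 * r) ≤ 3 * ((yy r : ℝ) + 1) ^ (36 * r) := by
            have : 0 ≤ ((yy r : ℝ) + 1) ^ (36 * r) := by positivity
            linarith
          gcongr
      _ ≤ 1 / 4 ^ r * N := by gcongr
  have hq4 : (1 : ℝ) / 4 ^ r ≤ q := by
    rw [hq]
    apply Real.le_sqrt_of_sq_le
    have h1 : (1 : ℝ) / 4 ^ r ≤ 1 / 2 ^ r := by
      apply one_div_le_one_div_of_le (by positivity)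
      exact pow_le_pow_left₀ (by norm_num) (by norm_num) _
    have h2 : (1 : ℝ) / 4 ^ r ≤ 1 := by
      rw [div_le_one (by positivity)]
      exact one_le_pow₀ (by norm_num)
    have h5 : (1 : ℝ) / 2 ^ r ≤ r / 2 ^ r := by gcongr
    have h6 : (0 : ℝ) ≤ 1 / 4 ^ r := by positivity
    nlinarith
  have hN0 : (0 : ℝ) ≤ N := Nat.cast_nonneg _
  have hfin : ∑ n ∈ Icc 1 N, (1 / 2 : ℝ) ^ om r n ≤ (Real.exp (C2 / 2) + 2) * q * N := by
    simp only [om_eq]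
    refine hb.trans ?_
    have h5 : (N : ℝ) * (∏ p ∈ PR r, (1 - 1 / (2 * (p : ℝ)))
        + (∑ p ∈ PR r, 1 / (2 * (p : ℝ))) ^ (2 * (6 * r) + 1) / (2 * (6 * r) + 1).factorial)
        ≤ N * (Real.exp (C2 / 2) * q + q) :=
      mul_le_mul_of_nonneg_left (add_le_add t1 (t2.trans hq4)) hN0
    have h6 : (1 : ℝ) / 4 ^ r * N ≤ q * N := mul_le_mul_of_nonneg_right hq4 hN0
    refine (add_le_add h5 (t3.trans h6)).trans (le_of_eq (by ring))
  have hpos : 0 ≤ ∑ n ∈ Icc 1 N, (1 / 2 : ℝ) ^ om r n := sum_nonneg fun n _ => by positivity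
  calc (∑ n ∈ Icc 1 N, (1 / 2 : ℝ) ^ om r n) ^ 2 ≤ ((Real.exp (C2 / 2) + 2) * q * N) ^ 2 :=
        pow_le_pow_left₀ hpos hfin 2
    _ = (Real.exp (C2 / 2) + 2) ^ 2 * (r / 2 ^ r) * (N : ℝ) ^ 2 := by
        rw [mul_pow, mul_pow, hq2]

end Pool.Agent.H177R2.SD
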