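import Pool.Agent.H177R2.SD.QuadAux
import Pool.Agent.H177R2.SD.Brc

/-!
Parametrisation of symmetric designs and their local tests.
-/

set_option autoImplicit false

namespace Pool.Agent.H177R2.SD

theorem quad_of_design {v k l : ℕ} (hd : IsSymmetricDesign v k l) (hk : 2 ≤ k) (hkv : k + 2 ≤ v) :
    ∃ a b c d : ℕ, 1 ≤ a ∧ a < d ∧ d < b ∧ a * b = c * d + 1 ∧ v = b * d + 1 ∧
      (k = a * b ∨ v - k = a * b) ∧
      ∀ s : ℤ, (s = if v % 4 = 3 then -1 else 1) → ∀ p : ℕ, p.Prime → p ≠ 2 →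
        ¬ T1 s p d a b ∧ ¬ T2 s p d a b :=
  quad_of_design_of (fun hd hk hkv hp hp2 h1 h2 h3 => brc_local hd hk hkv hp hp2 h1 h2 h3) hd hk hkv

end Pool.Agent.H177R2.SD
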