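import Pool.Agent.H177R2.SD.Defs
import Pool.Agent.H177R2.SD.Avg
import Pool.Agent.Helper919.NonRes
import Pool.Agent.Helper591.APRec

/-!
A fixed pair `(a, d)`: the numbers `m = b d` passing all the tests `T1` have density zero
(symmetric designs on almost all numbers of points, MP_3038d1_co).
-/

set_option autoImplicit false

namespace Pool.Agent.H177R2.SD

open Finset Filter Topology

/-- `0` when `p` divides `n e + 1` exactly once, `1` otherwise -/
noncomputable def smallF (e p n : ℕ) : ℝ :=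
  if p ∣ n * e + 1 ∧ ¬ p ^ 2 ∣ n * e + 1 then 0 else 1

theorem smallF_mem (e p n : ℕ) : 0 ≤ smallF e p n ∧ smallF e p n ≤ 1 := by
  unfold smallF
  split_ifs <;> norm_num

theorem smallF_per (e p n : ℕ) : smallF e p (n + p ^ 2) = smallF e p n := by
  unfold smallF
  have h1 : p ∣ (n + p ^ 2) * e + 1 ↔ p ∣ n * e + 1 := by
    have : (n + p ^ 2) * e + 1 = (n * e + 1) + p * (p * e) := by ring
    rw [this]
    exact (Nat.dvd_add_left (Dvd.intro _ rfl))
  have h2 : p ^ 2 ∣ (n + p ^ 2) * e + 1 ↔ p ^ 2 ∣ n * e + 1 := by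
    have : (n + p ^ 2) * e + 1 = (n * e + 1) + p ^ 2 * e := by ring
    rw [this]
    exact (Nat.dvd_add_left (Dvd.intro _ rfl))
  simp only [h1, h2]

/-- At least `p - 1` residues modulo `p²` have `p ∥ n e + 1`. -/
theorem small_card {p e : ℕ} (hp : p.Prime) (he : ¬ p ∣ e) :
    p - 1 ≤ ((range (p ^ 2)).filter fun n => p ∣ n * e + 1 ∧ ¬ p ^ 2 ∣ n * e + 1).card := by
  have hcop : Nat.Coprime e (p ^ 2) :=
    Nat.Coprime.pow_right 2 ((Nat.Prime.coprime_iff_not_dvd hp).2 he).symm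
  have hp2 : 0 < p ^ 2 := pow_pos hp.pos 2
  -- solution of `u e = -1` modulo `p²`
  obtain ⟨u, hu⟩ : ∃ u : ℕ, p ^ 2 ∣ u * e + 1 := by
    obtain ⟨v, hv⟩ := Nat.exists_mul_mod_eq_one_of_coprime hcop (by
      have := hp.two_le
      nlinarith)
    refine ⟨(p ^ 2 - 1) * v, ?_⟩
    rw [← Nat.modEq_zero_iff_dvd]
    have h1 : e * v ≡ 1 [MOD p ^ 2] := by
      have h := hv.2
      rw [Nat.ModEq, h, Nat.mod_eq_of_lt]
      have := hp.two_le
      nlinarith
    calc (p ^ 2 - 1) * v * e + 1 = (p ^ 2 - 1) * (e * v) + 1 := by ring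
      _ ≡ (p ^ 2 - 1) * 1 + 1 [MOD p ^ 2] := Nat.ModEq.add_right 1 (Nat.ModEq.mul_left _ h1)
      _ = p ^ 2 := by rw [mul_one]; omega
      _ ≡ 0 [MOD p ^ 2] := by simp [Nat.ModEq]
  have hinj : Set.InjOn (fun j => (u + p * j) % p ^ 2) (Icc 1 (p - 1) : Finset ℕ) := by
    intro i hi j hj hij
    simp only [coe_Icc, Set.mem_Icc] at hi hj
    have h1 : u + p * i ≡ u + p * j [MOD p ^ 2] := hij
    have h2 : p * i ≡ p * j [MOD p ^ 2] := Nat.ModEq.add_left_cancel' u h1
    rw [pow_two] at h2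
    have h3 : i ≡ j [MOD p] := Nat.ModEq.mul_left_cancel' hp.ne_zero h2
    have := hp.two_le
    exact Nat.ModEq.eq_of_lt_of_lt h3 (by omega) (by omega)
  calc p - 1 = (Icc 1 (p - 1)).card := by simp
    _ = ((Icc 1 (p - 1)).image (fun j => (u + p * j) % p ^ 2)).card :=
        (card_image_of_injOn hinj).symm
    _ ≤ _ := by
        refine card_le_card ?_
        intro n hn
        simp only [mem_image, mem_Icc] at hn
        obtain ⟨j, hj, rfl⟩ := hn
        simp only [mem_filter, mem_range]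
        have hmod : (u + p * j) % p ^ 2 * e + 1 ≡ (u + p * j) * e + 1 [MOD p ^ 2] :=
          Nat.ModEq.add_right 1 (Nat.ModEq.mul_right e (Nat.mod_modEq _ _))
        have hexp : (u + p * j) * e + 1 = (u * e + 1) + p * (j * e) := by ring
        refine ⟨Nat.mod_lt _ hp2, ?_, ?_⟩
        · have hm : (u + p * j) % p ^ 2 * e + 1 ≡ (u + p * j) * e + 1 [MOD p] :=
            hmod.of_dvd (dvd_pow_self p two_ne_zero)
          rw [← Nat.modEq_zero_iff_dvd]
          refine hm.trans ?_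
          rw [Nat.modEq_zero_iff_dvd, hexp]
          exact dvd_add ((dvd_pow_self p two_ne_zero).trans hu) (Dvd.intro _ rfl)
        · intro h
          rw [← Nat.modEq_zero_iff_dvd] at h
          have h' := hmod.symm.trans h
          rw [Nat.modEq_zero_iff_dvd, hexp, Nat.dvd_add_right hu, pow_two] at h'
          have h3 : p ∣ j * e := Nat.dvd_of_mul_dvd_mul_left hp.pos h'
          rcases (Nat.Prime.dvd_mul hp).1 h3 with h4 | h4
          · have := Nat.le_of_dvd (by omega) h4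
            have := hp.two_le
            omega
          · exact he h4

theorem smallF_mean {p e : ℕ} (hp : p.Prime) (he : ¬ p ∣ e) :
    (∑ n ∈ range (p ^ 2), smallF e p n) / ((p ^ 2 : ℕ) : ℝ) ≤ Real.exp (-(1 / 2 * (1 / (p : ℝ)))) := by
  have hcard := small_card hp he
  have hp2 : 2 ≤ p := hp.two_le
  have hp0 : (0 : ℝ) < p := by exact_mod_cast hp.pos
  have hsum : ∑ n ∈ range (p ^ 2), smallF e p n =
      (p : ℝ) ^ 2 - ((range (p ^ 2)).filter fun n => p ∣ n * e + 1 ∧ ¬ p ^ 2 ∣ n * e + 1).card := by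
    have h1 : ∀ n, smallF e p n = 1 - (if p ∣ n * e + 1 ∧ ¬ p ^ 2 ∣ n * e + 1 then (1 : ℝ) else 0) := by
      intro n
      unfold smallF
      split_ifs <;> norm_num
    simp_rw [h1]
    rw [sum_sub_distrib, sum_boole]
    simp
  have hc : ((p : ℝ) - 1) ≤
      ((range (p ^ 2)).filter fun n => p ∣ n * e + 1 ∧ ¬ p ^ 2 ∣ n * e + 1).card := by
    have h : ((p - 1 : ℕ) : ℝ) ≤
      ((range (p ^ 2)).filter fun n => p ∣ n * e + 1 ∧ ¬ p ^ 2 ∣ n * e + 1).card := by
        exact_mod_cast hcard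
    rwa [Nat.cast_sub (by omega), Nat.cast_one] at h
  have hpr : (2 : ℝ) ≤ p := by exact_mod_cast hp2
  calc (∑ n ∈ range (p ^ 2), smallF e p n) / ((p ^ 2 : ℕ) : ℝ)
      ≤ ((p : ℝ) ^ 2 - (p - 1)) / ((p ^ 2 : ℕ) : ℝ) := by
        rw [hsum]
        gcongr
    _ = 1 - (p - 1) / (p : ℝ) ^ 2 := by
        push_cast
        field_simp
    _ ≤ 1 - (1 / 2 * (1 / (p : ℝ))) := by
        have : (1 / 2 * (1 / (p : ℝ))) ≤ (p - 1) / (p : ℝ) ^ 2 := by
          rw [div_mul_div_comm, div_le_div_iff₀ (by positivity) (by positivity)]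
          nlinarith
        linarith
    _ ≤ Real.exp (-(1 / 2 * (1 / (p : ℝ)))) := by
        have := Real.add_one_le_exp (-(1 / 2 * (1 / (p : ℝ))))
        linarith

/-- A finite set of primes `p > B` with `D` a nonresidue and `∑ 1/p` large. -/
theorem small_primes (D : ℤ) (hD : ¬ IsSquare D) (B : ℕ) (L : ℝ) :
    ∃ K : Finset ℕ, (∀ p ∈ K, p.Prime ∧ B < p ∧ ¬ (p : ℤ) ∣ D ∧ p ≠ 2 ∧ ¬ IsSquare ((D : ℤ) : ZMod p)) ∧
      L ≤ ∑ p ∈ K, 1 / (p : ℝ) := by
  obtain ⟨e, heo, hej⟩ := Pool.Agent.Helper919.exists_jacobi_neg_one D hD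
  have hD0 : D ≠ 0 := by
    rintro rfl
    exact hD ⟨0, by simp⟩
  set q : ℕ := 4 * D.natAbs with hq
  have hq0 : 0 < q := by
    have := Int.natAbs_pos.2 hD0
    omega
  have : NeZero q := ⟨hq0.ne'⟩
  have hcop : Nat.Coprime e q := by
    have h1 : Nat.Coprime e 4 := by
      have : Nat.Coprime e (2 ^ 2) := Nat.Coprime.pow_right 2 (Nat.coprime_two_right.2 heo)
      simpa using this
    have h2 : Nat.Coprime e D.natAbs := by
      have h3 : jacobiSym D e ≠ 0 := by rw [hej]; norm_num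
      by_contra hcon
      refine h3 ?_
      have : NeZero e := ⟨by rintro rfl; exact absurd heo (by decide)⟩
      rw [jacobiSym.eq_zero_iff_not_coprime]
      rw [Nat.Coprime, Nat.gcd_comm] at hcon
      simpa [Int.gcd] using hcon
    exact Nat.Coprime.mul_right h1 h2
  have hunit : IsUnit ((e : ℕ) : ZMod q) := (ZMod.isUnit_iff_coprime e q).2 hcop
  have hns := Pool.Agent.Helper591.APRec.not_summable_g hunit
  rw [not_summable_iff_tendsto_nat_atTop_of_nonneg
    (fun n => Pool.Agent.Helper591.APRec.g_nonneg _ n)] at hns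
  obtain ⟨N, hN⟩ := (hns.eventually_ge_atTop
    (L + ∑ n ∈ range (B + 1), Pool.Agent.Helper591.APRec.g ((e : ℕ) : ZMod q) n)).exists
  refine ⟨(range N \ range (B + 1)).filter (fun p : ℕ => p.Prime ∧ (p : ZMod q) = ((e : ℕ) : ZMod q)),
    ?_, ?_⟩
  · intro p hp
    simp only [mem_filter, Finset.mem_sdiff, mem_range] at hp
    obtain ⟨⟨-, hpB⟩, hpp, hpe⟩ := hp
    have hmod : p ≡ e [MOD q] := (ZMod.natCast_eq_natCast_iff p e q).1 hpe
    have hcopp : Nat.Coprime p q := by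
      have := hmod.gcd_eq
      rw [Nat.Coprime, this]
      exact hcop
    have hpodd : Odd p := by
      rw [← Nat.coprime_two_right]
      exact hcopp.coprime_dvd_right ⟨2 * D.natAbs, by rw [hq]; ring⟩
    have hj : jacobiSym D p = -1 := by
      rw [jacobiSym.mod_right D hpodd, ← hq, hmod, hq, ← jacobiSym.mod_right D heo]
      exact hej
    refine ⟨hpp, by omega, ?_, ?_, ZMod.nonsquare_of_jacobiSym_eq_neg_one hj⟩
    · intro h
      have h1 : p ∣ D.natAbs := by
        rwa [← Int.natCast_dvd]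
      have h2 : p ∣ q := h1.trans ⟨4, by rw [hq]; ring⟩
      have h3 := Nat.Coprime.eq_one_of_dvd hcopp h2
      exact hpp.one_lt.ne' h3
    · rintro rfl
      exact absurd hpodd (by decide)
  · have h1 : ∑ p ∈ (range N \ range (B + 1)).filter
        (fun p : ℕ => p.Prime ∧ (p : ZMod q) = ((e : ℕ) : ZMod q)), 1 / (p : ℝ) =
        ∑ p ∈ range N \ range (B + 1), Pool.Agent.Helper591.APRec.g ((e : ℕ) : ZMod q) p := by
      rw [sum_filter]
      rfl
    rw [h1]
    have h2 : ∑ p ∈ range N, Pool.Agent.Helper591.APRec.g ((e : ℕ) : ZMod q) p ≤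
        ∑ p ∈ range N \ range (B + 1), Pool.Agent.Helper591.APRec.g ((e : ℕ) : ZMod q) p +
        ∑ p ∈ range (B + 1), Pool.Agent.Helper591.APRec.g ((e : ℕ) : ZMod q) p := by
      rw [← sum_union sdiff_disjoint]
      refine sum_le_sum_of_subset_of_nonneg ?_ ?_
      · intro x hx
        by_cases h : x ∈ range (B + 1)
        · exact mem_union_right _ h
        · exact mem_union_left _ (Finset.mem_sdiff.2 ⟨hx, h⟩)
      · intro i _ _
        exact Pool.Agent.Helper591.APRec.g_nonneg _ _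
    linarith

open Classical in
/-- The lemma, from the averaging lemma `avg1` (file `Avg.lean`). -/
theorem small_of_avg (avg1 : ∀ (S : Finset ℕ) (q : ℕ → ℕ) (_ : ∀ p ∈ S, 0 < q p)
    (_ : (S : Set ℕ).Pairwise fun p p' => Nat.Coprime (q p) (q p'))
    (f : ℕ → ℕ → ℝ) (_ : ∀ p ∈ S, ∀ n, 0 ≤ f p n ∧ f p n ≤ 1)
    (_ : ∀ p ∈ S, ∀ n, f p (n + q p) = f p n) (M N : ℕ),
    |∑ n ∈ Ico M (M + N), ∏ p ∈ S, f p n - N * ∏ p ∈ S, ((∑ n ∈ range (q p), f p n) / q p)|
      ≤ ∏ p ∈ S, (q p : ℝ))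
    (s : ℤ) (_hs : s = 1 ∨ s = -1) (a d : ℕ) (ha : 1 ≤ a) (had : a < d)
    (hsq : ¬ IsSquare (s * ((a : ℤ) * ((a : ℤ) - d)))) (ε : ℝ) (hε : 0 < ε) :
    ∃ X0 : ℕ, ∀ X ≥ X0,
      ({m ∈ Icc 1 X | ∃ b c : ℕ, m = b * d ∧ a * b = c * d + 1 ∧
        ∀ p : ℕ, p.Prime → p ≠ 2 → ¬ T1 s p d a b}.card : ℝ) ≤ ε * X := by
  -- choose the primes
  obtain ⟨K, hK, hsum⟩ := small_primes _ hsq d (2 * Real.log (4 / ε))
  set e : ℕ := d - a with he
  set Q : ℝ := ∏ p ∈ K, ((p ^ 2 : ℕ) : ℝ) with hQ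
  have hcop : (K : Set ℕ).Pairwise fun p p' => Nat.Coprime (p ^ 2) (p' ^ 2) := by
    intro p hp p' hp' hne
    exact Nat.Coprime.pow 2 2 ((Nat.coprime_primes (hK p hp).1 (hK p' hp').1).2 hne)
  have hprod : ∏ p ∈ K, ((∑ n ∈ range (p ^ 2), smallF e p n) / ((p ^ 2 : ℕ) : ℝ)) ≤ ε / 4 := by
    calc ∏ p ∈ K, ((∑ n ∈ range (p ^ 2), smallF e p n) / ((p ^ 2 : ℕ) : ℝ))
        ≤ ∏ p ∈ K, Real.exp (-(1 / 2 * (1 / (p : ℝ)))) := by
          refine prod_le_prod ?_ ?_
          · intro p _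
            exact div_nonneg (sum_nonneg fun n _ => (smallF_mem e p n).1) (by positivity)
          · intro p hp
            obtain ⟨hpp, -, hpD, -, -⟩ := hK p hp
            refine smallF_mean hpp ?_
            intro h
            refine hpD ?_
            have h1 : ((p : ℕ) : ℤ) ∣ ((d - a : ℕ) : ℤ) := by exact_mod_cast h
            rw [Nat.cast_sub had.le] at h1
            have h2 : (s * ((a : ℤ) * ((a : ℤ) - d))) = ((d : ℤ) - a) * (-(s * a)) := by ring
            rw [h2]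
            exact Dvd.dvd.mul_right h1 _
      _ = Real.exp (-(1 / 2 * ∑ p ∈ K, 1 / (p : ℝ))) := by
          rw [← Real.exp_sum, sum_neg_distrib, mul_sum]
      _ ≤ Real.exp (-Real.log (4 / ε)) := by
          apply Real.exp_le_exp.2
          linarith
      _ = ε / 4 := by
          rw [Real.exp_neg, Real.exp_log (by positivity)]
          rw [inv_div]
  have hQ0 : 0 ≤ Q := prod_nonneg fun p _ => by positivity
  refine ⟨⌈1 + 2 * Q / ε⌉₊, ?_⟩
  intro X hX
  have hX' : 1 + 2 * Q / ε ≤ X := (Nat.le_ceil _).trans (by exact_mod_cast hX)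
  have hX1 : (1 : ℝ) ≤ X := by
    have : 0 ≤ 2 * Q / ε := by positivity
    linarith
  have hav := avg1 K (fun p => p ^ 2) (fun p hp => pow_pos (hK p hp).1.pos 2) hcop
    (fun p n => smallF e p n) (fun p _ n => smallF_mem e p n) (fun p _ n => smallF_per e p n) 0 (X + 1)
  have hle : ∑ n ∈ Ico 0 (0 + (X + 1)), ∏ p ∈ K, smallF e p n ≤ ((X + 1 : ℕ) : ℝ) * (ε / 4) + Q := by
    have h1 := (abs_le.1 hav).2
    have h2 : ((X + 1 : ℕ) : ℝ) * ∏ p ∈ K, ((∑ n ∈ range (p ^ 2), smallF e p n) / ((p ^ 2 : ℕ) : ℝ))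
        ≤ ((X + 1 : ℕ) : ℝ) * (ε / 4) := by
      gcongr
    linarith
  -- the count
  have hcount : ({m ∈ Icc 1 X | ∃ b c : ℕ, m = b * d ∧ a * b = c * d + 1 ∧
        ∀ p : ℕ, p.Prime → p ≠ 2 → ¬ T1 s p d a b}.card : ℝ) ≤
        ∑ n ∈ Ico 0 (0 + (X + 1)), ∏ p ∈ K, smallF e p n := by
    have hd0 : 0 < d := by omega
    have hsub : {m ∈ Icc 1 X | ∃ b c : ℕ, m = b * d ∧ a * b = c * d + 1 ∧
        ∀ p : ℕ, p.Prime → p ≠ 2 → ¬ T1 s p d a b} ⊆
        ((range (X + 1)).filter (fun b => ∏ p ∈ K, smallF e p b = 1)).image (fun b => b * d) := by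
      intro m hm
      simp only [mem_filter, mem_Icc] at hm
      obtain ⟨⟨-, hmX⟩, b, c, rfl, -, hT⟩ := hm
      simp only [mem_image, mem_filter, mem_range]
      refine ⟨b, ⟨?_, ?_⟩, rfl⟩
      · have : b * 1 ≤ b * d := Nat.mul_le_mul_left b hd0
        omega
      · refine prod_eq_one ?_
        intro p hp
        obtain ⟨hpp, hpd, hpD, hp2, hns⟩ := hK p hp
        unfold smallF
        rw [if_neg]
        rintro ⟨h1, h2⟩
        refine hT p hpp hp2 ⟨?_, ?_, ?_, hns⟩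
        · intro h
          have := Nat.le_of_dvd hd0 h
          omega
        · have h3 : (b : ℤ) * ((d : ℤ) - a) + 1 = ((b * e + 1 : ℕ) : ℤ) := by
            push_cast [he, Nat.cast_sub had.le]
            ring
          rw [h3]
          exact_mod_cast h1
        · have h3 : (b : ℤ) * ((d : ℤ) - a) + 1 = ((b * e + 1 : ℕ) : ℤ) := by
            push_cast [he, Nat.cast_sub had.le]
            ring
          rw [h3]
          exact_mod_cast h2
    have h1 : ({m ∈ Icc 1 X | ∃ b c : ℕ, m = b * d ∧ a * b = c * d + 1 ∧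
        ∀ p : ℕ, p.Prime → p ≠ 2 → ¬ T1 s p d a b}.card : ℝ) ≤
        (((range (X + 1)).filter (fun b => ∏ p ∈ K, smallF e p b = 1)).card : ℝ) := by
      exact_mod_cast (card_le_card hsub).trans card_image_le
    refine h1.trans ?_
    rw [zero_add, ← range_eq_Ico, card_filter]
    push_cast
    refine sum_le_sum ?_
    intro n _
    split_ifs with h
    · rw [h]
    · exact prod_nonneg fun p _ => (smallF_mem e p n).1
  refine hcount.trans (hle.trans ?_)
  push_cast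
  have h5 : 2 * Q / ε ≤ X - 1 := by linarith
  have h6 : 2 * Q ≤ (X - 1) * ε := by
    rwa [div_le_iff₀ hε] at h5
  nlinarith

open Classical in
theorem small (s : ℤ) (hs : s = 1 ∨ s = -1) (a d : ℕ) (ha : 1 ≤ a) (had : a < d)
    (hsq : ¬ IsSquare (s * ((a : ℤ) * ((a : ℤ) - d)))) (ε : ℝ) (hε : 0 < ε) :
    ∃ X0 : ℕ, ∀ X ≥ X0,
      ({m ∈ Icc 1 X | ∃ b c : ℕ, m = b * d ∧ a * b = c * d + 1 ∧
        ∀ p : ℕ, p.Prime → p ≠ 2 → ¬ T1 s p d a b}.card : ℝ) ≤ ε * X :=
  small_of_avg avg1 s hs a d ha had hsq ε hε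

end Pool.Agent.H177R2.SD
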