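import Pool.Agent.H177R2.SD.Defs
import Pool.Agent.H177R2.SD.Mert

/-!
Typical number of prime divisors in `PR r` (Rankin's trick).
-/

set_option autoImplicit false

namespace Pool.Agent.H177R2.SD

open Finset Filter Topology

open Classical in
lemma pow_om (r m : ℕ) : ((4 : ℝ) / 3) ^ om r m
    = ∑ S ∈ (PR r).powerset, ∏ p ∈ S, (if p ∣ m then (1 / 3 : ℝ) else 0) := by
  rw [← prod_one_add]
  have h : ∀ p ∈ PR r, (1 + (if p ∣ m then (1 / 3 : ℝ) else 0)) = if p ∣ m then (4 / 3 : ℝ) else 1 := by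
    intro p _
    split_ifs <;> norm_num
  rw [prod_congr rfl h, prod_ite, prod_const, prod_const_one, mul_one]
  rfl

lemma prime_of_mem_PR {r p : ℕ} (hp : p ∈ PR r) : p.Prime := by
  unfold PR PP at hp
  exact (mem_filter.mp hp).2

open Classical in
lemma sum_prod_le (r X : ℕ) (S : Finset ℕ) (hS : S ⊆ PR r) :
    ∑ m ∈ Icc 1 X, ∏ p ∈ S, (if p ∣ m then (1 / 3 : ℝ) else 0) ≤ X * ∏ p ∈ S, (1 / (3 * (p : ℝ))) := by
  have hpos : (0 : ℝ) < ∏ p ∈ S, (p : ℝ) :=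
    prod_pos (fun p hp => by exact_mod_cast (prime_of_mem_PR (hS hp)).pos)
  have h1 : ∀ m ∈ Icc 1 X, ∏ p ∈ S, (if p ∣ m then (1 / 3 : ℝ) else 0)
      ≤ if (∏ p ∈ S, p) ∣ m then (1 / 3 : ℝ) ^ S.card else 0 := by
    intro m _
    by_cases h : ∀ p ∈ S, p ∣ m
    · have h2 : (∏ p ∈ S, p) ∣ m :=
        Finset.prod_primes_dvd m (fun p hp => (prime_of_mem_PR (hS hp)).prime) h
      rw [if_pos h2, prod_congr rfl (fun p hp => if_pos (h p hp)), prod_const]
    · push Not at h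
      obtain ⟨p, hp, hpm⟩ := h
      rw [prod_eq_zero hp (if_neg hpm)]
      split_ifs
      · positivity
      · exact le_rfl
  refine (sum_le_sum h1).trans ?_
  rw [← sum_filter, sum_const, nsmul_eq_mul]
  have h3 : ((Icc 1 X).filter (fun m => (∏ p ∈ S, p) ∣ m)).card = X / ∏ p ∈ S, p := by
    have := Nat.Ioc_filter_dvd_card_eq_div X (∏ p ∈ S, p)
    rw [← this]
    rfl
  rw [h3]
  have h4 : ((X / ∏ p ∈ S, p : ℕ) : ℝ) ≤ (X : ℝ) / ∏ p ∈ S, (p : ℝ) := by
    have := @Nat.cast_div_le ℝ _ _ _ X (∏ p ∈ S, p)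
    push_cast at this
    exact this
  have h5 : ∏ p ∈ S, (1 / (3 * (p : ℝ))) = (1 / 3 : ℝ) ^ S.card / ∏ p ∈ S, (p : ℝ) := by
    rw [← prod_const, ← prod_div_distrib]
    exact prod_congr rfl (fun p _ => by rw [div_div])
  rw [h5]
  calc ((X / ∏ p ∈ S, p : ℕ) : ℝ) * (1 / 3) ^ S.card ≤ ((X : ℝ) / ∏ p ∈ S, (p : ℝ)) * (1 / 3) ^ S.card :=
        mul_le_mul_of_nonneg_right h4 (by positivity)
    _ = _ := by ring

lemma rankin (r X : ℕ) : ∑ m ∈ Icc 1 X, ((4 : ℝ) / 3) ^ om r m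
    ≤ X * Real.exp ((∑ p ∈ PR r, (1 : ℝ) / p) / 3) := by
  classical
  rw [sum_congr rfl (fun m _ => pow_om r m), sum_comm]
  refine (sum_le_sum (fun S hS => sum_prod_le r X S (mem_powerset.mp hS))).trans ?_
  rw [← mul_sum, ← prod_one_add]
  refine mul_le_mul_of_nonneg_left ?_ (Nat.cast_nonneg X)
  rw [sum_div, Real.exp_sum]
  refine prod_le_prod (fun p _ => by positivity) (fun p _ => ?_)
  have := Real.add_one_le_exp ((1 : ℝ) / p / 3)
  refine le_trans (le_of_eq ?_) this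
  rw [div_div, mul_comm (p : ℝ) 3]
  ring

theorem typical : ∃ C : ℝ, ∃ c : ℝ, 0 < C ∧ 0 < c ∧ ∀ r : ℕ, 1 ≤ r → ∀ X : ℕ,
    ({m ∈ Icc 1 X | 19 * r < 20 * om r m}.card : ℝ) ≤ C * Real.exp (-(c * r)) * X := by
  obtain ⟨C1, hC1⟩ := mert_upper
  have hc : 0 < 19 / 20 * Real.log (4 / 3) - Real.log 2 / 3 := by
    have h1 : Real.log ((2 : ℝ) ^ 20) < Real.log (((4 : ℝ) / 3) ^ 57) :=
      Real.log_lt_log (by norm_num) (by norm_num)
    rw [Real.log_pow, Real.log_pow] at h1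
    push_cast at h1
    linarith
  refine ⟨Real.exp (C1 / 3), 19 / 20 * Real.log (4 / 3) - Real.log 2 / 3, Real.exp_pos _, hc,
    fun r hr X => ?_⟩
  set N : ℝ := ({m ∈ Icc 1 X | 19 * r < 20 * om r m}.card : ℝ) with hN
  have hl : 0 < Real.log (4 / 3) := Real.log_pos (by norm_num)
  have h1 : N * Real.exp (19 / 20 * Real.log (4 / 3) * r) ≤ ∑ m ∈ Icc 1 X, ((4 : ℝ) / 3) ^ om r m := by
    have h2 : N * Real.exp (19 / 20 * Real.log (4 / 3) * r)
        = ∑ m ∈ (Icc 1 X).filter (fun m => 19 * r < 20 * om r m), Real.exp (19 / 20 * Real.log (4 / 3) * r) := by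
      rw [sum_const, nsmul_eq_mul]
    rw [h2]
    refine (sum_le_sum (fun m hm => ?_)).trans
      (sum_le_sum_of_subset_of_nonneg (filter_subset _ _) (fun m _ _ => by positivity))
    have h3 : 19 * r < 20 * om r m := (mem_filter.mp hm).2
    have h4 : 19 * (r : ℝ) < 20 * om r m := by exact_mod_cast h3
    have h5 : ((4 : ℝ) / 3) ^ om r m = Real.exp (om r m * Real.log (4 / 3)) := by
      rw [← Real.log_pow, Real.exp_log (by positivity)]
    rw [h5]
    apply Real.exp_le_exp.mpr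
    nlinarith
  have h2 := h1.trans (rankin r X)
  have h3 : Real.exp ((∑ p ∈ PR r, (1 : ℝ) / p) / 3) ≤ Real.exp ((r * Real.log 2 + C1) / 3) :=
    Real.exp_le_exp.mpr (by have := hC1 r hr; linarith)
  have h4 : N * Real.exp (19 / 20 * Real.log (4 / 3) * r) ≤ X * Real.exp ((r * Real.log 2 + C1) / 3) :=
    h2.trans (mul_le_mul_of_nonneg_left h3 (Nat.cast_nonneg X))
  have h5 : N = N * Real.exp (19 / 20 * Real.log (4 / 3) * r)
      * Real.exp (-(19 / 20 * Real.log (4 / 3) * r)) := by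
    rw [mul_assoc, ← Real.exp_add, add_neg_cancel, Real.exp_zero, mul_one]
  rw [h5]
  refine (mul_le_mul_of_nonneg_right h4 (Real.exp_pos _).le).trans (le_of_eq ?_)
  rw [mul_assoc, ← Real.exp_add, ← Real.exp_add, mul_comm]
  congr 2
  ring

end Pool.Agent.H177R2.SD
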