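import Pool.Agent.H177R2.SD.BlockA
import Pool.Agent.H177R2.SD.Near
import Pool.Agent.H177R2.SD.Typical
import Pool.Agent.H177R2.SD.Small
import Pool.Agent.H177R2.SD.Quad

/-!
Counting, part A: one dyadic block.
-/

set_option autoImplicit false

namespace Pool.Agent.H177R2.SD

open Finset Filter Topology

/-- `m = v - 1` is bad for the sign `s`: some coprime factorisation `m = b d` passes all local tests -/
def Bad (s : ℤ) (m : ℕ) : Prop :=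
  ∃ a b c d : ℕ, 1 ≤ a ∧ a < d ∧ d < b ∧ a * b = c * d + 1 ∧ m = b * d ∧
    ¬ IsSquare (s * ((a : ℤ) * ((a : ℤ) - d))) ∧
    ∀ p : ℕ, p.Prime → p ≠ 2 → ¬ T1 s p d a b ∧ ¬ T2 s p d a b

open Classical in
/-- inverse residue of `a` modulo `d` (junk value `0` if there is none) -/
noncomputable def b0 (d a : ℕ) : ℕ :=
  if h : ∃ b, a * b ≡ 1 [MOD d] then (Classical.choose h) % d else 0

lemma b0_spec {d a b : ℕ} (h : a * b ≡ 1 [MOD d]) : b % d = b0 d a := by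
  have hex : ∃ b, a * b ≡ 1 [MOD d] := ⟨b, h⟩
  unfold b0
  rw [dif_pos hex]
  have h' := Classical.choose_spec hex
  set b' := Classical.choose hex
  have h1 : b * (a * b') ≡ b * 1 [MOD d] := Nat.ModEq.mul_left _ h'
  have h2 : (a * b) * b' ≡ 1 * b' [MOD d] := Nat.ModEq.mul_right _ h
  have h3 : b * (a * b') = (a * b) * b' := by ring
  rw [h3, mul_one] at h1
  rw [one_mul] at h2
  exact h1.symm.trans h2

/-- the local tests are passed at all odd primes -/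
def Pass (s : ℤ) (d a b : ℕ) : Prop :=
  ∀ p : ℕ, p.Prime → p ≠ 2 → ¬ T1 s p d a b ∧ ¬ T2 s p d a b

lemma mem_PRa {r p : ℕ} (h : p ∈ PR r) : 10 < p ∧ p.Prime :=
  ⟨(mem_PR h).2.1, (mem_PR h).1⟩

lemma prod_g {s : ℤ} {a b d : ℕ} (r : ℕ) (ht : Pass s d a b) :
    ∏ p ∈ PR r, g s p d a b = (1 / 2 : ℝ) ^ (om r (b * d)) := by
  classical
  unfold om
  rw [← Finset.prod_const, Finset.prod_filter]
  apply prod_congr rfl
  intro p hp
  obtain ⟨hp10, hpp⟩ := mem_PRa hp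
  have h2 := ht p hpp (by omega)
  unfold g
  by_cases h1 : p ∣ d
  · rw [if_pos h1, if_pos (dvd_mul_of_dvd_right h1 b)]
  · rw [if_neg h1, if_neg (by tauto)]
    by_cases h3 : p ∣ b
    · rw [if_pos h3, if_pos (dvd_mul_of_dvd_left h3 d)]
    · rw [if_neg h3, if_neg]
      intro h4
      rcases hpp.dvd_mul.1 h4 with h | h <;> contradiction

lemma half_pow_ge {r m : ℕ} (h : 20 * m ≤ 19 * r) :
    (2 : ℝ) ^ (-((19 : ℝ) / 20 * r)) ≤ (1 / 2 : ℝ) ^ m := by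
  have e : (1 / 2 : ℝ) ^ m = (2 : ℝ) ^ (-(m : ℝ)) := by
    rw [Real.rpow_neg (by norm_num), Real.rpow_natCast, one_div, inv_pow]
  rw [e]
  apply Real.rpow_le_rpow_of_exponent_le (by norm_num)
  have : (20 : ℝ) * m ≤ 19 * r := by exact_mod_cast h
  linarith

/-- members of one dyadic block -/
def InBlock (s : ℤ) (j m : ℕ) : Prop :=
  ∃ a b c d : ℕ, 1 ≤ a ∧ a < d ∧ d < b ∧ a * b = c * d + 1 ∧ m = b * d ∧
    2 ^ j < d ∧ d ≤ 2 ^ (j + 1) ∧ Pass s d a b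

open Classical in
lemma block_sum {s : ℤ} {r X j : ℕ} :
    ∑ m ∈ {m ∈ Icc 1 X | 20 * om r m ≤ 19 * r ∧ InBlock s j m}, (1 / 2 : ℝ) ^ (om r m) ≤
    ∑ x ∈ (Ico (2 ^ j + 1) (2 ^ j + 1 + 2 ^ j)) ×ˢ (range (2 ^ (j + 1))) ×ˢ (range (X / 4 ^ j + 1)),
      ∏ p ∈ PR r, g s p x.1 x.2.1 (b0 x.1 x.2.1 + x.1 * x.2.2) := by
  set S := {m ∈ Icc 1 X | 20 * om r m ≤ 19 * r ∧ InBlock s j m} with hS
  set box := (Ico (2 ^ j + 1) (2 ^ j + 1 + 2 ^ j)) ×ˢ (range (2 ^ (j + 1))) ×ˢ (range (X / 4 ^ j + 1)) with hbox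
  set w : ℕ × ℕ × ℕ → ℝ := fun x => ∏ p ∈ PR r, g s p x.1 x.2.1 (b0 x.1 x.2.1 + x.1 * x.2.2) with hw
  have key : ∀ m ∈ S, ∃ x ∈ box, x.1 * (b0 x.1 x.2.1 + x.1 * x.2.2) = m ∧ w x = (1 / 2 : ℝ) ^ (om r m) := by
    intro m hm
    rw [hS, mem_filter, mem_Icc] at hm
    obtain ⟨⟨hm1, hmX⟩, -, a, b, c, d, ha, had, hdb, hab, hmbd, hd1, hd2, hpass⟩ := hm
    have hb : b0 d a + d * (b / d) = b := by
      have h1 : a * b ≡ 1 [MOD d] := by
        rw [hab]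
        have : c * d + 1 = 1 + d * c := by ring
        rw [this]
        exact Nat.ModEq.trans (by simp [Nat.ModEq]) (Nat.ModEq.refl 1)
      rw [← b0_spec h1]
      exact Nat.mod_add_div b d
    refine ⟨(d, a, b / d), ?_, ?_, ?_⟩
    · rw [hbox, mem_product, mem_product, mem_Ico, mem_range, mem_range]
      refine ⟨⟨by simpa using hd1, by simp only; rw [pow_succ] at hd2; omega⟩, by simp only; omega, ?_⟩
      simp only
      have h2 : b / d = (b * d) / (d * d) := by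
        rw [Nat.mul_div_mul_right _ _ (by omega)]
      rw [h2, ← hmbd]
      have h3 : 4 ^ j ≤ d * d := by
        calc 4 ^ j = 2 ^ j * 2 ^ j := by rw [← mul_pow]; norm_num
          _ ≤ d * d := Nat.mul_le_mul hd1.le hd1.le
      have h4 : m / (d * d) ≤ X / 4 ^ j := Nat.div_le_div hmX h3 (by positivity)
      omega
    · simp only
      rw [hb, hmbd, mul_comm]
    · simp only [hw]
      rw [hb, prod_g r hpass, hmbd]
  choose! f hf using key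
  have hinj : Set.InjOn f S := by
    intro m hm m' hm' h
    rw [← (hf m hm).2.1, ← (hf m' hm').2.1, h]
  have hw0 : ∀ x, 0 ≤ w x := fun x => prod_nonneg fun p _ => (g_mem s p _ _ _).1
  calc ∑ m ∈ S, (1 / 2 : ℝ) ^ (om r m) = ∑ m ∈ S, w (f m) := by
        apply sum_congr rfl
        intro m hm
        rw [(hf m hm).2.2]
    _ = ∑ x ∈ S.image f, w x := by
        rw [sum_image hinj]
    _ ≤ ∑ x ∈ box, w x := by
        apply sum_le_sum_of_subset_of_nonneg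
        · intro x hx
          obtain ⟨m, hm, rfl⟩ := mem_image.1 hx
          exact (hf m hm).1
        · intro x _ _
          exact hw0 x

open Classical in
lemma block_count : ∃ C : ℝ, ∃ r0 : ℕ, 0 < C ∧ 1 ≤ r0 ∧ ∀ r ≥ r0, ∀ s : ℤ, (s = 1 ∨ s = -1) → ∀ X j : ℕ,
    2 ^ r ≤ j → 2 ^ 2 ^ r ≤ X / 4 ^ j + 1 → 4 ^ j ≤ X →
    ({m ∈ Icc 1 X | 20 * om r m ≤ 19 * r ∧ InBlock s j m}.card : ℝ) ≤
      C * (r : ℝ) ^ 2 / 4 ^ r * (2 : ℝ) ^ ((19 : ℝ) / 20 * r) * X := by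
  obtain ⟨C, r0, hC, hr0, hblock⟩ := block
  refine ⟨4 * C, r0, by positivity, hr0, ?_⟩
  intro r hr s hs X j hj hT hX
  have h1 := hblock r hr s hs (2 ^ j + 1) (2 ^ j) (2 ^ (j + 1)) (X / 4 ^ j + 1)
    (Nat.pow_le_pow_right (by norm_num) hj)
    (Nat.pow_le_pow_right (by norm_num) (by omega)) hT b0
  have h2 := block_sum (s := s) (r := r) (X := X) (j := j)
  set S := {m ∈ Icc 1 X | 20 * om r m ≤ 19 * r ∧ InBlock s j m} with hS
  have h3 : (S.card : ℝ) * (2 : ℝ) ^ (-((19 : ℝ) / 20 * r)) ≤ ∑ m ∈ S, (1 / 2 : ℝ) ^ (om r m) := by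
    rw [← nsmul_eq_mul, ← sum_const]
    apply sum_le_sum
    intro m hm
    rw [hS, mem_filter] at hm
    exact half_pow_ge hm.2.1
  have h4 : (((2 ^ j : ℕ) : ℝ) * ((2 ^ (j + 1) : ℕ) : ℝ) * ((X / 4 ^ j + 1 : ℕ) : ℝ)) ≤ 4 * X := by
    have : 2 ^ j * 2 ^ (j + 1) * (X / 4 ^ j + 1) ≤ 4 * X := by
      have e : 2 ^ j * 2 ^ (j + 1) = 2 * 4 ^ j := by
        rw [show (4 : ℕ) = 2 * 2 by norm_num, mul_pow, pow_succ]; ring
      rw [e]
      have := Nat.mul_div_le X (4 ^ j)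
      nlinarith
    exact_mod_cast this
  have hp : (0 : ℝ) < (2 : ℝ) ^ ((19 : ℝ) / 20 * r) := by positivity
  have h5 : (S.card : ℝ) = (S.card : ℝ) * (2 : ℝ) ^ (-((19 : ℝ) / 20 * r)) * (2 : ℝ) ^ ((19 : ℝ) / 20 * r) := by
    rw [mul_assoc, ← Real.rpow_add (by norm_num)]
    simp
  rw [h5]
  have h6 : (S.card : ℝ) * (2 : ℝ) ^ (-((19 : ℝ) / 20 * r)) ≤ C * (r : ℝ) ^ 2 / 4 ^ r * (4 * X) := by
    refine (h3.trans (h2.trans h1)).trans ?_
    apply mul_le_mul_of_nonneg_left h4 (by positivity)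
  calc _ ≤ C * (r : ℝ) ^ 2 / 4 ^ r * (4 * X) * (2 : ℝ) ^ ((19 : ℝ) / 20 * r) :=
        mul_le_mul_of_nonneg_right h6 hp.le
    _ = _ := by ring

end Pool.Agent.H177R2.SD
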