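import Pool.Agent.H177R2.SD.CountA

/-!
Counting, part B: near-diagonal blocks, numerical bounds, geometry of the blocks.
-/

set_option autoImplicit false

namespace Pool.Agent.H177R2.SD

open Finset Filter Topology

lemma om_mul {r b d : ℕ} (h : Nat.Coprime b d) : om r (b * d) = om r b + om r d := by
  classical
  unfold om
  rw [← card_union_of_disjoint]
  · congr 1
    ext p
    rw [mem_union, mem_filter, mem_filter, mem_filter]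
    constructor
    · rintro ⟨h1, h2⟩
      rcases (mem_PRa h1).2.dvd_mul.1 h2 with h3 | h3
      · exact Or.inl ⟨h1, h3⟩
      · exact Or.inr ⟨h1, h3⟩
    · rintro (⟨h1, h2⟩ | ⟨h1, h2⟩)
      · exact ⟨h1, dvd_mul_of_dvd_left h2 d⟩
      · exact ⟨h1, dvd_mul_of_dvd_right h2 b⟩
  · rw [disjoint_left]
    intro p hp hp'
    rw [mem_filter] at hp hp'
    exact (mem_PRa hp.1).2.one_lt.ne' (Nat.dvd_one.1 (h ▸ Nat.dvd_gcd hp.2 hp'.2))

lemma coprime_of {a b c d : ℕ} (h : a * b = c * d + 1) : Nat.Coprime b d := by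
  have h1 : Nat.gcd b d ∣ 1 := by
    have h2 : Nat.gcd b d ∣ a * b := dvd_mul_of_dvd_right (Nat.gcd_dvd_left b d) a
    have h3 : Nat.gcd b d ∣ c * d := dvd_mul_of_dvd_right (Nat.gcd_dvd_right b d) c
    rw [h] at h2
    exact (Nat.dvd_add_right h3).1 h2
  exact Nat.dvd_one.1 h1

open Classical in
lemma near_sum {s : ℤ} {R X j : ℕ} :
    ∑ m ∈ {m ∈ Icc 1 X | 20 * om R m ≤ 19 * R ∧ InBlock s j m}, (1 / 2 : ℝ) ^ (om R m) ≤
    (∑ d ∈ Icc 1 (2 ^ (j + 1)), (1 / 2 : ℝ) ^ (om R d)) * (∑ b ∈ Icc 1 (X / 2 ^ j), (1 / 2 : ℝ) ^ (om R b)) := by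
  set S := {m ∈ Icc 1 X | 20 * om R m ≤ 19 * R ∧ InBlock s j m} with hS
  rw [sum_mul_sum, ← sum_product']
  have key : ∀ m ∈ S, ∃ x ∈ (Icc 1 (2 ^ (j + 1))) ×ˢ (Icc 1 (X / 2 ^ j)),
      x.2 * x.1 = m ∧ (1 / 2 : ℝ) ^ (om R x.1) * (1 / 2 : ℝ) ^ (om R x.2) = (1 / 2 : ℝ) ^ (om R m) := by
    intro m hm
    rw [hS, mem_filter, mem_Icc] at hm
    obtain ⟨⟨hm1, hmX⟩, -, a, b, c, d, ha, had, hdb, hab, hmbd, hd1, hd2, hpass⟩ := hm
    refine ⟨(d, b), ?_, ?_, ?_⟩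
    · rw [mem_product, mem_Icc, mem_Icc]
      refine ⟨⟨by simp only; omega, by simpa using hd2⟩, by simp only; omega, ?_⟩
      simp only
      rw [Nat.le_div_iff_mul_le (by positivity)]
      calc b * 2 ^ j ≤ b * d := Nat.mul_le_mul_left _ hd1.le
        _ ≤ X := by omega
    · simp only; rw [hmbd]
    · simp only
      rw [hmbd, om_mul (coprime_of hab), ← pow_add, add_comm]
  choose! f hf using key
  have hinj : Set.InjOn f S := by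
    intro m hm m' hm' h
    rw [← (hf m hm).2.1, ← (hf m' hm').2.1, h]
  calc ∑ m ∈ S, (1 / 2 : ℝ) ^ (om R m)
      = ∑ m ∈ S, (fun x : ℕ × ℕ => (1 / 2 : ℝ) ^ (om R x.1) * (1 / 2 : ℝ) ^ (om R x.2)) (f m) := by
        apply sum_congr rfl
        intro m hm
        rw [← (hf m hm).2.2]
    _ = ∑ x ∈ S.image f, (1 / 2 : ℝ) ^ (om R x.1) * (1 / 2 : ℝ) ^ (om R x.2) := by
        rw [sum_image hinj]
    _ ≤ _ := by
        apply sum_le_sum_of_subset_of_nonneg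
        · intro x hx
          obtain ⟨m, hm, rfl⟩ := mem_image.1 hx
          exact (hf m hm).1
        · intro x _ _
          positivity

open Classical in
lemma near_count : ∃ C : ℝ, ∃ r0 : ℕ, 0 < C ∧ 1 ≤ r0 ∧ ∀ R ≥ r0, ∀ s : ℤ, ∀ X j : ℕ,
    2 ^ R ≤ j → 4 ^ j ≤ X →
    ({m ∈ Icc 1 X | 20 * om R m ≤ 19 * R ∧ InBlock s j m}.card : ℝ) ≤
      C * (R / 2 ^ R) * (2 : ℝ) ^ ((19 : ℝ) / 20 * R) * X := by
  obtain ⟨C, r0, hC, hr0, hnear⟩ := near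
  refine ⟨2 * C, r0, by positivity, hr0, ?_⟩
  intro R hR s X j hj hX
  have hXj : 2 ^ j ≤ X / 2 ^ j := by
    rw [Nat.le_div_iff_mul_le (by positivity), ← mul_pow]
    exact hX
  have h2R : 2 ^ 2 ^ R ≤ 2 ^ j := Nat.pow_le_pow_right (by norm_num) hj
  have h1 := hnear R hR (2 ^ (j + 1)) (by rw [pow_succ]; omega)
  have h2 := hnear R hR (X / 2 ^ j) (by omega)
  have h3 := near_sum (s := s) (R := R) (X := X) (j := j)
  set S := {m ∈ Icc 1 X | 20 * om R m ≤ 19 * R ∧ InBlock s j m} with hS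
  set S1 := ∑ d ∈ Icc 1 (2 ^ (j + 1)), (1 / 2 : ℝ) ^ (om R d) with hS1
  set S2 := ∑ b ∈ Icc 1 (X / 2 ^ j), (1 / 2 : ℝ) ^ (om R b) with hS2
  have hS10 : 0 ≤ S1 := sum_nonneg fun _ _ => by positivity
  have hS20 : 0 ≤ S2 := sum_nonneg fun _ _ => by positivity
  set K : ℝ := C * (R / 2 ^ R) with hK
  have hK0 : 0 ≤ K := by positivity
  have h4 : S1 * S2 ≤ K * (((2 ^ (j + 1) : ℕ) : ℝ) * ((X / 2 ^ j : ℕ) : ℝ)) := by
    have h5 : (S1 * S2) ^ 2 ≤ (K * (((2 ^ (j + 1) : ℕ) : ℝ) * ((X / 2 ^ j : ℕ) : ℝ))) ^ 2 := by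
      calc (S1 * S2) ^ 2 = S1 ^ 2 * S2 ^ 2 := by ring
        _ ≤ (K * ((2 ^ (j + 1) : ℕ) : ℝ) ^ 2) * (K * ((X / 2 ^ j : ℕ) : ℝ) ^ 2) :=
            mul_le_mul h1 h2 (by positivity) (by positivity)
        _ = _ := by ring
    exact abs_le_of_sq_le_sq' h5 (by positivity) |>.2
  have h6 : ((2 ^ (j + 1) : ℕ) : ℝ) * ((X / 2 ^ j : ℕ) : ℝ) ≤ 2 * X := by
    have : 2 ^ (j + 1) * (X / 2 ^ j) ≤ 2 * X := by
      have := Nat.mul_div_le X (2 ^ j)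
      rw [pow_succ]; nlinarith
    exact_mod_cast this
  have h7 : (S.card : ℝ) * (2 : ℝ) ^ (-((19 : ℝ) / 20 * R)) ≤ ∑ m ∈ S, (1 / 2 : ℝ) ^ (om R m) := by
    rw [← nsmul_eq_mul, ← sum_const]
    apply sum_le_sum
    intro m hm
    rw [hS, mem_filter] at hm
    exact half_pow_ge hm.2.1
  have hp : (0 : ℝ) < (2 : ℝ) ^ ((19 : ℝ) / 20 * R) := by positivity
  have h8 : (S.card : ℝ) = (S.card : ℝ) * (2 : ℝ) ^ (-((19 : ℝ) / 20 * R)) * (2 : ℝ) ^ ((19 : ℝ) / 20 * R) := by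
    rw [mul_assoc, ← Real.rpow_add (by norm_num)]
    simp
  rw [h8]
  have h9 : (S.card : ℝ) * (2 : ℝ) ^ (-((19 : ℝ) / 20 * R)) ≤ K * (2 * X) :=
    (h7.trans (h3.trans h4)).trans (mul_le_mul_of_nonneg_left h6 hK0)
  calc _ ≤ K * (2 * X) * (2 : ℝ) ^ ((19 : ℝ) / 20 * R) := mul_le_mul_of_nonneg_right h9 hp.le
    _ = _ := by rw [hK]; ring

/-- numerical bound: `r² 2^{-1.05 r} ≤ K 2^{-1.02 r}` -/
lemma num_bound (r : ℕ) : (r : ℝ) ^ 2 / 4 ^ r * (2 : ℝ) ^ ((19 : ℝ) / 20 * r) ≤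
    (2 / ((3 : ℝ) / 100 * Real.log 2) ^ 2) * (2 : ℝ) ^ (-((102 : ℝ) / 100 * r)) := by
  have hlog : 0 < Real.log 2 := Real.log_pos (by norm_num)
  set x : ℝ := (3 : ℝ) / 100 * Real.log 2 * r with hx
  have hx0 : 0 ≤ x := by positivity
  have h1 : x ^ 2 / 2 ≤ Real.exp x := by
    have := Real.quadratic_le_exp_of_nonneg hx0
    nlinarith
  have h2 : Real.exp x = (2 : ℝ) ^ ((3 : ℝ) / 100 * r) := by
    rw [Real.rpow_def_of_pos (by norm_num), hx]; congr 1; ring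
  have h3 : (r : ℝ) ^ 2 ≤ (2 / ((3 : ℝ) / 100 * Real.log 2) ^ 2) * (2 : ℝ) ^ ((3 : ℝ) / 100 * r) := by
    rw [← h2]
    have h4 : (r : ℝ) ^ 2 = (2 / ((3 : ℝ) / 100 * Real.log 2) ^ 2) * (x ^ 2 / 2) := by
      rw [hx]; field_simp
    rw [h4]
    exact mul_le_mul_of_nonneg_left h1 (by positivity)
  have h4 : (4 : ℝ) ^ r = (2 : ℝ) ^ ((2 : ℝ) * r) := by
    rw [show (4 : ℝ) = 2 ^ (2 : ℝ) by norm_num, ← Real.rpow_natCast, ← Real.rpow_mul (by norm_num)]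
  rw [h4, div_eq_mul_inv, ← Real.rpow_neg (by norm_num), mul_assoc, ← Real.rpow_add (by norm_num)]
  calc (r : ℝ) ^ 2 * (2 : ℝ) ^ (-(2 * (r : ℝ)) + (19 : ℝ) / 20 * r)
      ≤ (2 / ((3 : ℝ) / 100 * Real.log 2) ^ 2) * (2 : ℝ) ^ ((3 : ℝ) / 100 * r)
        * (2 : ℝ) ^ (-(2 * (r : ℝ)) + (19 : ℝ) / 20 * r) :=
        mul_le_mul_of_nonneg_right h3 (by positivity)
    _ = _ := by
        rw [mul_assoc, ← Real.rpow_add (by norm_num)]
        congr 2; ring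

lemma num_bound2 {i : ℕ} (hi : 1 ≤ i) : (2 : ℝ) ^ (-((102 : ℝ) / 100 * (Nat.log 2 i : ℕ))) ≤
    4 * (i : ℝ) ^ (-((102 : ℝ) / 100)) := by
  have h1 : i < 2 ^ (Nat.log 2 i + 1) := Nat.lt_pow_succ_log_self (by norm_num) i
  have h2 : (i : ℝ) ≤ (2 : ℝ) ^ ((Nat.log 2 i : ℕ) + 1 : ℝ) := by
    have : (i : ℝ) ≤ (2 : ℝ) ^ (Nat.log 2 i + 1) := by exact_mod_cast h1.le
    rw [← Real.rpow_natCast] at this
    push_cast at this
    exact this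
  have hi0 : (0 : ℝ) < i := by exact_mod_cast hi
  have h3 : ((2 : ℝ) ^ ((Nat.log 2 i : ℕ) + 1 : ℝ)) ^ (-((102 : ℝ) / 100)) ≤ (i : ℝ) ^ (-((102 : ℝ) / 100)) :=
    Real.rpow_le_rpow_of_nonpos hi0 h2 (by norm_num)
  rw [← Real.rpow_mul (by norm_num)] at h3
  calc (2 : ℝ) ^ (-((102 : ℝ) / 100 * (Nat.log 2 i : ℕ)))
      = (2 : ℝ) ^ ((102 : ℝ) / 100) * (2 : ℝ) ^ (((Nat.log 2 i : ℕ) + 1 : ℝ) * -((102 : ℝ) / 100)) := by
        rw [← Real.rpow_add (by norm_num)]; congr 1; ring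
    _ ≤ 4 * (i : ℝ) ^ (-((102 : ℝ) / 100)) := by
        apply mul_le_mul _ h3 (by positivity) (by norm_num)
        calc (2 : ℝ) ^ ((102 : ℝ) / 100) ≤ (2 : ℝ) ^ (2 : ℝ) :=
              Real.rpow_le_rpow_of_exponent_le (by norm_num) (by norm_num)
          _ = 4 := by norm_num

/-- `T`-length of a block -/
def TT (X j : ℕ) : ℕ := X / 4 ^ j + 1

def LL (X j : ℕ) : ℕ := Nat.log 2 (TT X j)

lemma TT_anti {X j j' : ℕ} (h : j ≤ j') : TT X j' ≤ TT X j := by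
  unfold TT
  have : X / 4 ^ j' ≤ X / 4 ^ j := Nat.div_le_div_left (Nat.pow_le_pow_right (by norm_num) h) (by positivity)
  omega

lemma LL_step {X j : ℕ} (h : 3 ≤ TT X j) : LL X (j + 1) + 1 ≤ LL X j := by
  unfold LL
  have h1 : TT X (j + 1) ≤ TT X j / 2 := by
    unfold TT at h ⊢
    have : X / 4 ^ (j + 1) = X / 4 ^ j / 4 := by rw [pow_succ, Nat.div_div_eq_div_mul]
    omega
  have h2 : Nat.log 2 (TT X (j + 1)) ≤ Nat.log 2 (TT X j / 2) := Nat.log_mono_right h1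
  rw [Nat.log_div_base] at h2
  have h3 : 1 ≤ Nat.log 2 (TT X j) := Nat.log_pos (by norm_num) (by omega)
  omega

lemma LL_inj {X j j' : ℕ} (h : 2 ≤ LL X j) (h' : 2 ≤ LL X j') (e : LL X j = LL X j') : j = j' := by
  have aux : ∀ j j' : ℕ, 2 ≤ LL X j → 2 ≤ LL X j' → LL X j = LL X j' → ¬ j < j' := by
    intro j j' h h' e hlt
    have h3 : 3 ≤ TT X j := by
      have : 2 ^ 2 ≤ TT X j := by
        have h0 : TT X j ≠ 0 := Nat.succ_ne_zero _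
        exact Nat.pow_le_of_le_log h0 h
      omega
    have h4 := LL_step h3
    have h5 : LL X j' ≤ LL X (j + 1) := Nat.log_mono_right (TT_anti hlt)
    omega
  rcases lt_trichotomy j j' with h1 | h1 | h1
  · exact absurd h1 (aux j j' h h' e)
  · exact h1
  · exact absurd h1 (aux j' j h' h e.symm)

end Pool.Agent.H177R2.SD
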