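import Pool.Agent.H177R2.SD.CountB

/-!
Counting, part C: summation over all blocks.
-/

set_option autoImplicit false

namespace Pool.Agent.H177R2.SD

open Finset Filter Topology

/-- level index of a block -/
def ii (X j : ℕ) : ℕ := min j (LL X j)

/-- level of a block -/
def rr (X j : ℕ) : ℕ := Nat.log 2 (ii X j)

open Classical in
/-- the typical members of a block -/
noncomputable def BS (s : ℤ) (X j r : ℕ) : Finset ℕ := {m ∈ Icc 1 X | 20 * om r m ≤ 19 * r ∧ InBlock s j m}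

open Classical in
/-- atypical numbers of level `r` -/
noncomputable def TY (X r : ℕ) : Finset ℕ := {m ∈ Icc 1 X | 19 * r < 20 * om r m}

lemma rr_le {X j r0 : ℕ} (h : 2 ^ r0 ≤ ii X j) : r0 ≤ rr X j := by
  unfold rr
  have h0 : ii X j ≠ 0 := by
    have : 0 < 2 ^ r0 := by positivity
    omega
  exact Nat.le_log_of_pow_le (by norm_num) h

lemma pow_rr_le {X j : ℕ} (h : ii X j ≠ 0) : 2 ^ rr X j ≤ ii X j := Nat.pow_log_le_self 2 h

lemma block_i : ∃ C : ℝ, ∃ r0 : ℕ, 0 < C ∧ 1 ≤ r0 ∧ ∀ s : ℤ, (s = 1 ∨ s = -1) → ∀ X j : ℕ,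
    2 ^ r0 ≤ ii X j → 4 ^ j ≤ X →
    ((BS s X j (rr X j)).card : ℝ) ≤ C * (ii X j : ℝ) ^ (-((102 : ℝ) / 100)) * X := by
  obtain ⟨C, r0, hC, hr0, h⟩ := block_count
  have hlog : 0 < Real.log 2 := Real.log_pos (by norm_num)
  set K : ℝ := 2 / ((3 : ℝ) / 100 * Real.log 2) ^ 2 with hK
  have hK0 : 0 < K := by positivity
  refine ⟨C * K * 4, r0, by positivity, hr0, ?_⟩
  intro s hs X j hi hX
  have hr := rr_le hi
  have hi1 : 1 ≤ ii X j := le_trans Nat.one_le_two_pow hi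
  have hpow := pow_rr_le (X := X) (j := j) (by omega)
  have h1 := h (rr X j) hr s hs X j (hpow.trans (min_le_left _ _)) (by
    have h2 : 2 ^ rr X j ≤ LL X j := hpow.trans (min_le_right _ _)
    exact Nat.pow_le_of_le_log (y := TT X j) (Nat.succ_ne_zero _) h2) hX
  have h3 := num_bound (rr X j)
  have h4 := num_bound2 hi1
  unfold BS
  refine h1.trans ?_
  apply mul_le_mul_of_nonneg_right _ (by positivity)
  have h5 : C * (rr X j : ℝ) ^ 2 / 4 ^ rr X j * (2 : ℝ) ^ ((19 : ℝ) / 20 * (rr X j : ℕ))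
      = C * ((rr X j : ℝ) ^ 2 / 4 ^ rr X j * (2 : ℝ) ^ ((19 : ℝ) / 20 * (rr X j : ℕ))) := by ring
  rw [h5]
  calc _ ≤ C * (K * (2 : ℝ) ^ (-((102 : ℝ) / 100 * (rr X j : ℕ)))) := mul_le_mul_of_nonneg_left h3 hC.le
    _ ≤ C * (K * (4 * (ii X j : ℝ) ^ (-((102 : ℝ) / 100)))) := by
        apply mul_le_mul_of_nonneg_left _ hC.le
        exact mul_le_mul_of_nonneg_left h4 hK0.le
    _ = _ := by ring

/-- tails of a summable nonnegative sequence over arbitrary finite sets -/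
lemma tail_smallc {f : ℕ → ℝ} (hf : Summable f) {ε : ℝ} (hε : 0 < ε) :
    ∃ N : ℕ, ∀ t : Finset ℕ, (∀ n ∈ t, N ≤ n) → ∑ n ∈ t, f n ≤ ε := by
  obtain ⟨s, hs⟩ := summable_iff_vanishing_norm.1 hf ε hε
  refine ⟨s.sup id + 1, ?_⟩
  intro t ht
  have hd : Disjoint t s := by
    rw [disjoint_left]
    intro n hn hn'
    have h1 := ht n hn
    have h2 : id n ≤ s.sup id := le_sup hn'
    simp only [id] at h2
    omega
  exact (le_abs_self _).trans (hs t hd).le

lemma blocks_total : ∀ ε : ℝ, 0 < ε → ∃ r1 : ℕ, 1 ≤ r1 ∧ ∀ r0 ≥ r1, ∀ s : ℤ, (s = 1 ∨ s = -1) → ∀ X : ℕ,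
    ∑ j ∈ (range (X + 1)).filter (fun j => 4 ^ j ≤ X ∧ 2 ^ r0 ≤ ii X j), ((BS s X j (rr X j)).card : ℝ) ≤ ε * X := by
  intro ε hε
  obtain ⟨C, rb, hC, hrb, hb⟩ := block_i
  have hsum : Summable (fun i : ℕ => C * (i : ℝ) ^ (-((102 : ℝ) / 100))) :=
    Summable.mul_left C (by
      have := (Real.summable_nat_rpow (p := -((102 : ℝ) / 100))).2 (by norm_num)
      exact this)
  obtain ⟨N, hN⟩ := tail_smallc hsum (half_pos hε)
  refine ⟨max rb (max N 1), by simp, ?_⟩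
  intro r0 hr0 s hs X
  set J := (range (X + 1)).filter (fun j => 4 ^ j ≤ X ∧ 2 ^ r0 ≤ ii X j) with hJ
  have hr0N : N ≤ 2 ^ r0 := by
    have h1 : N ≤ r0 := by simp only [ge_iff_le, max_le_iff] at hr0; omega
    exact h1.trans (Nat.lt_two_pow_self).le
  have hr0b : 2 ^ rb ≤ 2 ^ r0 := Nat.pow_le_pow_right (by norm_num) (by
    simp only [ge_iff_le, max_le_iff] at hr0; omega)
  have hr01 : 2 ≤ 2 ^ r0 := by
    have : 1 ≤ r0 := by simp only [ge_iff_le, max_le_iff] at hr0; omega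
    calc 2 = 2 ^ 1 := by norm_num
      _ ≤ 2 ^ r0 := Nat.pow_le_pow_right (by norm_num) this
  have h1 : ∀ j ∈ J, ((BS s X j (rr X j)).card : ℝ) ≤
      (C * (j : ℝ) ^ (-((102 : ℝ) / 100)) + C * (LL X j : ℝ) ^ (-((102 : ℝ) / 100))) * X := by
    intro j hj
    rw [hJ, mem_filter] at hj
    have h2 := hb s hs X j (hr0b.trans hj.2.2) hj.2.1
    refine h2.trans ?_
    apply mul_le_mul_of_nonneg_right _ (by positivity)
    have h3 : ii X j = j ∨ ii X j = LL X j := by unfold ii; exact min_choice _ _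
    have ha : 0 ≤ C * (j : ℝ) ^ (-((102 : ℝ) / 100)) := by positivity
    have hb' : 0 ≤ C * (LL X j : ℝ) ^ (-((102 : ℝ) / 100)) := by positivity
    rcases h3 with h3 | h3 <;> rw [h3] <;> linarith
  have h2 : ∑ j ∈ J, C * (j : ℝ) ^ (-((102 : ℝ) / 100)) ≤ ε / 2 := by
    apply hN
    intro j hj
    rw [hJ, mem_filter] at hj
    exact hr0N.trans (hj.2.2.trans (min_le_left _ _))
  have h3 : ∑ j ∈ J, C * (LL X j : ℝ) ^ (-((102 : ℝ) / 100)) ≤ ε / 2 := by
    have hinj : Set.InjOn (LL X) J := by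
      intro j hj j' hj' e
      rw [mem_coe, hJ, mem_filter] at hj hj'
      have a1 : 2 ≤ LL X j := hr01.trans (hj.2.2.trans (min_le_right _ _))
      have a2 : 2 ≤ LL X j' := hr01.trans (hj'.2.2.trans (min_le_right _ _))
      exact LL_inj a1 a2 e
    have e : ∑ j ∈ J, C * (LL X j : ℝ) ^ (-((102 : ℝ) / 100))
        = ∑ i ∈ J.image (LL X), C * (i : ℝ) ^ (-((102 : ℝ) / 100)) := by
      rw [sum_image hinj]
    rw [e]
    apply hN
    intro i hi
    obtain ⟨j, hj, rfl⟩ := mem_image.1 hi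
    rw [hJ, mem_filter] at hj
    exact hr0N.trans (hj.2.2.trans (min_le_right _ _))
  calc ∑ j ∈ J, ((BS s X j (rr X j)).card : ℝ)
      ≤ ∑ j ∈ J, (C * (j : ℝ) ^ (-((102 : ℝ) / 100)) + C * (LL X j : ℝ) ^ (-((102 : ℝ) / 100))) * X :=
        sum_le_sum h1
    _ = (∑ j ∈ J, C * (j : ℝ) ^ (-((102 : ℝ) / 100)) + ∑ j ∈ J, C * (LL X j : ℝ) ^ (-((102 : ℝ) / 100))) * X := by
        rw [← sum_mul, sum_add_distrib]
    _ ≤ ε * X := by
        apply mul_le_mul_of_nonneg_right _ (by positivity)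
        linarith

lemma typical_total : ∀ ε : ℝ, 0 < ε → ∃ r1 : ℕ, 1 ≤ r1 ∧ ∀ r0 ≥ r1, ∀ X R : ℕ,
    ∑ r ∈ Ico r0 R, ((TY X r).card : ℝ) ≤ ε * X := by
  intro ε hε
  obtain ⟨C, c, hC, hc, h⟩ := typical
  have hsum : Summable (fun r : ℕ => C * Real.exp (-(c * r))) := by
    apply Summable.mul_left
    have h1 := (Real.summable_exp_nat_mul_iff (a := -c)).2 (by linarith)
    refine h1.congr fun r => ?_
    congr 1; ring
  obtain ⟨N, hN⟩ := tail_smallc hsum hε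
  refine ⟨max N 1, by simp, ?_⟩
  intro r0 hr0 X R
  have h1 : ∀ r ∈ Ico r0 R, ((TY X r).card : ℝ) ≤ C * Real.exp (-(c * r)) * X := by
    intro r hr
    rw [mem_Ico] at hr
    have := h r (by simp only [ge_iff_le, max_le_iff] at hr0; omega) X
    unfold TY
    exact this
  calc _ ≤ ∑ r ∈ Ico r0 R, C * Real.exp (-(c * r)) * X := sum_le_sum h1
    _ = (∑ r ∈ Ico r0 R, C * Real.exp (-(c * r))) * X := by rw [sum_mul]
    _ ≤ ε * X := by
        apply mul_le_mul_of_nonneg_right _ (by positivity)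
        apply hN
        intro r hr
        rw [mem_Ico] at hr
        simp only [ge_iff_le, max_le_iff] at hr0; omega

end Pool.Agent.H177R2.SD
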