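import Pool.Agent.H177R2.SD.Design

/-!
Symmetric designs on almost all numbers of points (MP_3038d1_co): definitions.
-/

set_option autoImplicit false

namespace Pool.Agent.H177R2.SD

/-- primes in `(w, y]` -/
def PP (w y : ℕ) : Finset ℕ := (Finset.Ioc w y).filter Nat.Prime

/-- first local test (it fails = `T1` holds): `p` divides `b (d - a) + 1` exactly once and `s a (a - d)` is a
nonresidue modulo `p`. -/
def T1 (s : ℤ) (p d a b : ℕ) : Prop :=
  ¬ p ∣ d ∧ (p : ℤ) ∣ (b : ℤ) * ((d : ℤ) - a) + 1 ∧ ¬ (p : ℤ) ^ 2 ∣ (b : ℤ) * ((d : ℤ) - a) + 1 ∧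
    ¬ IsSquare ((s * ((a : ℤ) * ((a : ℤ) - d)) : ℤ) : ZMod p)

/-- second local test: `p` divides `a` exactly once and `s (b d + 1)` is a nonresidue modulo `p`. -/
def T2 (s : ℤ) (p d a b : ℕ) : Prop :=
  ¬ p ∣ d ∧ p ∣ a ∧ ¬ p ^ 2 ∣ a ∧ ¬ IsSquare ((s * ((b : ℤ) * d + 1) : ℤ) : ZMod p)

open Classical in
/-- local weight at `p` -/
noncomputable def g (s : ℤ) (p d a b : ℕ) : ℝ :=
  if p ∣ d then 1 / 2 else if T1 s p d a b ∨ T2 s p d a b then 0 else if p ∣ b then 1 / 2 else 1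

/-- average of `1 - g` over `(ℤ/p²)³` -/
noncomputable def eta (s : ℤ) (p : ℕ) : ℝ :=
  (∑ d ∈ Finset.range (p ^ 2), ∑ a ∈ Finset.range (p ^ 2), ∑ b ∈ Finset.range (p ^ 2),
    (1 - g s p d a b)) / ((p : ℝ) ^ 2) ^ 3

/-- sieving limit at level `r` -/
noncomputable def yy (r : ℕ) : ℕ := ⌊Real.exp ((2 : ℝ) ^ r / (72 * r))⌋₊

/-- sieving primes at level `r` -/
noncomputable def PR (r : ℕ) : Finset ℕ := PP 10 (yy r)

/-- number of prime divisors in `PR r` -/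
noncomputable def om (r m : ℕ) : ℕ := ((PR r).filter (· ∣ m)).card

end Pool.Agent.H177R2.SD
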