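import Pool.Agent.H177R2.SD.Design

/-!
Admissible and realised parameter triples of symmetric designs (MP_3038d1_co): the definitions used in the statement.
-/

set_option autoImplicit false

namespace Pool.Agent.H177R2.SD

/-- the triples `(v, k, l)` of positive integers with `k < v ≤ N` and `l (v - 1) = k (k - 1)` -/
def Admissible (N : ℕ) : Finset (ℕ × ℕ × ℕ) :=
  ((Finset.Icc 1 N) ×ˢ (Finset.Icc 1 N) ×ˢ (Finset.Icc 1 N)).filter
    (fun x => x.2.1 < x.1 ∧ x.2.2 * (x.1 - 1) = x.2.1 * (x.2.1 - 1))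

open Classical in
/-- the triples `(v, k, l)` of positive integers with `v ≤ N` for which a symmetric design exists -/
noncomputable def Realised (N : ℕ) : Finset (ℕ × ℕ × ℕ) :=
  ((Finset.Icc 1 N) ×ˢ (Finset.Icc 1 N) ×ˢ (Finset.Icc 1 N)).filter
    (fun x => IsSymmetricDesign x.1 x.2.1 x.2.2)

end Pool.Agent.H177R2.SD
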