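import Pool.Agent.H177R2.SD.Defs
import Pool.Agent.H177R2.SD.Design2

/-!
Counting realised parameter triples: definitions.
-/

set_option autoImplicit false

namespace Pool.Agent.H177R2.SD

open Classical in
/-- local weight at `p` without the Rankin factors -/
noncomputable def g2 (s : ℤ) (p d a b : ℕ) : ℝ :=
  if T1 s p d a b ∨ T2 s p d a b then 0 else 1

/-- average of `1 - g2` over `(ℤ/p²)³` -/
noncomputable def eta2 (s : ℤ) (p : ℕ) : ℝ :=
  (∑ d ∈ Finset.range (p ^ 2), ∑ a ∈ Finset.range (p ^ 2), ∑ b ∈ Finset.range (p ^ 2),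
    (1 - g2 s p d a b)) / ((p : ℝ) ^ 2) ^ 3

end Pool.Agent.H177R2.SD
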