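import Mathlib

/-!
Symmetric designs and the exceptional numbers of points (MP_3038d1_co): the definitions used in the statement.
-/

set_option autoImplicit false

namespace Pool.Agent.H177R2.SD

/-- `IsSymmetricDesign v k l`: `k < v` and there is a family of `v` blocks, subsets of the `v`-set `Fin v`,
such that every block has exactly `k` elements, every point lies in exactly `r` blocks (for some `r`), and
every two distinct points lie in exactly `l` common blocks. -/
def IsSymmetricDesign (v k l : ℕ) : Prop :=
  k < v ∧ ∃ (r : ℕ) (B : Fin v → Finset (Fin v)),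
    (∀ i, (B i).card = k) ∧
    (∀ x, (Finset.univ.filter fun i => x ∈ B i).card = r) ∧
    (∀ x y, x ≠ y → (Finset.univ.filter fun i => x ∈ B i ∧ y ∈ B i).card = l)

/-- exceptional numbers of points: `v` points carry a nontrivial symmetric `(v, k, l)`-design which is
not of the type `v ≡ 3 (mod 4)` with `k (v - 1 - k)` or `(k - 1) (v - k)` a perfect square -/
def Exc (v : ℕ) : Prop :=
  ∃ k l : ℕ, 2 ≤ k ∧ k + 2 ≤ v ∧ IsSymmetricDesign v k l ∧
    ¬ (v % 4 = 3 ∧ (IsSquare (k * (v - 1 - k)) ∨ IsSquare ((k - 1) * (v - k))))

end Pool.Agent.H177R2.SD
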