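import Pool.Agent.H177R2.SD.Defs

/-!
Error terms for the sieve estimates (helper862).
-/

set_option autoImplicit false

namespace Pool.Agent.H177R2.SD

open Finset Filter Topology

theorem mem_PR {r p : ℕ} (h : p ∈ PR r) : p.Prime ∧ 10 < p ∧ p ≤ yy r := by
  unfold PR PP at h
  rw [Finset.mem_filter, Finset.mem_Ioc] at h
  exact ⟨h.2, h.1.1, h.1.2⟩

theorem card_PR (r : ℕ) : ((PR r).card : ℝ) ≤ yy r := by
  have h : (PR r).card ≤ (Ioc 10 (yy r)).card := card_le_card (filter_subset _ _)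
  rw [Nat.card_Ioc] at h
  exact_mod_cast h.trans (Nat.sub_le _ _)

theorem yy_le (r : ℕ) : (yy r : ℝ) ≤ Real.exp ((2 : ℝ) ^ r / (72 * r)) :=
  Nat.floor_le (Real.exp_pos _).le

theorem yy_pow {r : ℕ} (hr : 1 ≤ r) :
    ((yy r : ℝ) + 1) ^ (36 * r) ≤ 2 ^ (36 * r) * Real.exp ((2 : ℝ) ^ r / 2) := by
  have hr' : (1 : ℝ) ≤ r := by exact_mod_cast hr
  have h1 : (1 : ℝ) ≤ Real.exp ((2 : ℝ) ^ r / (72 * r)) := Real.one_le_exp (by positivity)
  have h2 : (yy r : ℝ) + 1 ≤ 2 * Real.exp ((2 : ℝ) ^ r / (72 * r)) := by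
    linarith [yy_le r]
  calc ((yy r : ℝ) + 1) ^ (36 * r) ≤ (2 * Real.exp ((2 : ℝ) ^ r / (72 * r))) ^ (36 * r) :=
        pow_le_pow_left₀ (by positivity) h2 _
    _ = 2 ^ (36 * r) * Real.exp ((2 : ℝ) ^ r / 2) := by
        rw [mul_pow, ← Real.exp_nat_mul]
        congr 2
        push_cast
        field_simp
        ring

/-- the error term is negligible -/
theorem err_small : ∃ r0 : ℕ, 1 ≤ r0 ∧ ∀ r ≥ r0,
    3 * ((yy r : ℝ) + 1) ^ (36 * r) / 2 ^ 2 ^ r ≤ 1 / 4 ^ r := by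
  have hc : (0 : ℝ) < Real.log 2 - 1 / 2 := by
    have := Real.log_two_gt_d9
    linarith
  set c := Real.log 2 - 1 / 2 with hcdef
  have t1 : Tendsto (fun r : ℕ => (2 : ℝ) ^ r) atTop atTop :=
    tendsto_pow_atTop_atTop_of_one_lt (by norm_num)
  have t2 : Tendsto (fun r : ℕ => c * (2 : ℝ) ^ r) atTop atTop := t1.const_mul_atTop hc
  have t3 := (Real.tendsto_pow_mul_exp_neg_atTop_nhds_zero 38).comp t2
  have t4 : Tendsto (fun r : ℕ => 3 / c ^ 38 * ((c * (2 : ℝ) ^ r) ^ 38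
      * Real.exp (-(c * (2 : ℝ) ^ r)))) atTop (𝓝 (3 / c ^ 38 * 0)) := t3.const_mul _
  rw [mul_zero] at t4
  have t5 := (t4.eventually (gt_mem_nhds (by norm_num : (0 : ℝ) < 1)))
  obtain ⟨r1, h1⟩ := eventually_atTop.1 t5
  refine ⟨max r1 1, le_max_right _ _, fun r hr => ?_⟩
  have hr1 : 1 ≤ r := (le_max_right _ _).trans hr
  have h2 := h1 r ((le_max_left _ _).trans hr)
  have h3 := yy_pow hr1
  have e1 : ((2 : ℝ) ^ 2 ^ r) = Real.exp (Real.log 2 * 2 ^ r) := by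
    rw [← Real.rpow_natCast, Real.rpow_def_of_pos (by norm_num)]
    push_cast
    ring_nf
  have e2 : Real.exp ((2 : ℝ) ^ r / 2) = Real.exp (Real.log 2 * 2 ^ r)
      * Real.exp (-(c * 2 ^ r)) := by
    rw [← Real.exp_add]
    congr 1
    rw [hcdef]; ring
  have e3 : (c * (2 : ℝ) ^ r) ^ 38 = c ^ 38 * 2 ^ (38 * r) := by
    rw [mul_pow, ← pow_mul]; ring_nf
  have hc38 : (0 : ℝ) < c ^ 38 := by positivity
  rw [div_le_div_iff₀ (by positivity) (by positivity), one_mul]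
  have e4 : 3 / c ^ 38 * ((c * (2 : ℝ) ^ r) ^ 38 * Real.exp (-(c * (2 : ℝ) ^ r)))
      = 3 * (2 ^ (38 * r) * Real.exp (-(c * (2 : ℝ) ^ r))) := by
    rw [e3]; field_simp
  rw [e4] at h2
  have e5 : (4 : ℝ) ^ r = 2 ^ (2 * r) := by rw [pow_mul]; norm_num
  have e6 : (2 : ℝ) ^ (36 * r) * 2 ^ (2 * r) = 2 ^ (38 * r) := by rw [← pow_add]; ring_nf
  calc 3 * ((yy r : ℝ) + 1) ^ (36 * r) * 4 ^ r
      ≤ 3 * (2 ^ (36 * r) * Real.exp ((2 : ℝ) ^ r / 2)) * 4 ^ r := by gcongr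
    _ = (3 * (2 ^ (38 * r) * Real.exp (-(c * (2 : ℝ) ^ r)))) * Real.exp (Real.log 2 * 2 ^ r) := by
        rw [e2, e5, ← e6]; ring
    _ ≤ 1 * Real.exp (Real.log 2 * 2 ^ r) := by gcongr
    _ = 2 ^ 2 ^ r := by rw [one_mul, e1]

/-- tail of the sieve -/
theorem tail_small {r : ℕ} {x : ℝ} (hx0 : 0 ≤ x) (hx : x ≤ 3 * r) :
    x ^ (2 * (6 * r) + 1) / (2 * (6 * r) + 1).factorial ≤ 1 / 4 ^ r := by
  have h1 := Real.pow_div_factorial_le_exp (4 * x) (by positivity) (2 * (6 * r) + 1)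
  have h2 : Real.exp (4 * x) ≤ Real.exp (12 * r) := Real.exp_le_exp.2 (by linarith)
  have h3 : Real.exp (12 * r) ≤ (4 ^ 11) ^ r := by
    have e : Real.exp (12 * (r : ℝ)) = (Real.exp 1 ^ 12) ^ r := by
      rw [← pow_mul, ← Real.exp_nat_mul]; push_cast; ring_nf
    rw [e]
    refine pow_le_pow_left₀ (by positivity) ?_ _
    have : Real.exp 1 ≤ 2.72 := by linarith [Real.exp_one_lt_d9]
    calc Real.exp 1 ^ 12 ≤ 2.72 ^ 12 := pow_le_pow_left₀ (by positivity) this _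
      _ ≤ 4 ^ 11 := by norm_num
  rw [mul_pow] at h1
  have hf : (0 : ℝ) < ((2 * (6 * r) + 1).factorial : ℝ) := by positivity
  have h4 : (4 : ℝ) ^ (2 * (6 * r) + 1) * (x ^ (2 * (6 * r) + 1) / (2 * (6 * r) + 1).factorial)
      ≤ (4 ^ 11) ^ r := by
    refine le_trans (le_of_eq ?_) (h1.trans (h2.trans h3))
    ring
  have e5 : (4 : ℝ) ^ (2 * (6 * r) + 1) = (4 ^ 11) ^ r * (4 ^ r * 4) := by
    rw [← pow_mul, show 2 * (6 * r) + 1 = 11 * r + (r + 1) by ring, pow_add, pow_succ]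
  rw [e5] at h4
  rw [le_div_iff₀ (by positivity)]
  set y := x ^ (2 * (6 * r) + 1) / ((2 * (6 * r) + 1).factorial : ℝ) with hy
  have hy0 : 0 ≤ y := by positivity
  have h6 : (4 ^ r * 4) * y ≤ 1 := by
    have hp : (0 : ℝ) < (4 ^ 11) ^ r := by positivity
    have : (4 ^ 11 : ℝ) ^ r * ((4 ^ r * 4) * y) ≤ (4 ^ 11) ^ r * 1 := by linarith
    exact le_of_mul_le_mul_left this hp
  nlinarith [mul_nonneg (by positivity : (0 : ℝ) ≤ 4 ^ r) hy0]

/-- the product of the moduli -/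
theorem prod_le {r : ℕ} {S : Finset ℕ} (hS : S ⊆ PR r) (hc : S.card ≤ 2 * (6 * r)) (k : ℕ) :
    ∏ p ∈ S, (p : ℝ) ^ k ≤ ((yy r : ℝ) + 1) ^ (k * (12 * r)) := by
  have h1 : ∏ p ∈ S, (p : ℝ) ^ k ≤ ∏ _p ∈ S, ((yy r : ℝ) + 1) ^ k := by
    refine prod_le_prod (fun p _ => by positivity) fun p hp => ?_
    refine pow_le_pow_left₀ (by positivity) ?_ _
    have : (p : ℝ) ≤ yy r := by exact_mod_cast (mem_PR (hS hp)).2.2
    linarith
  refine h1.trans ?_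
  rw [prod_const, ← pow_mul]
  refine pow_le_pow_right₀ ?_ ?_
  · have : (0 : ℝ) ≤ yy r := Nat.cast_nonneg _
    linarith
  · exact Nat.mul_le_mul_left _ (by omega)

theorem sum_inv_sq (r : ℕ) : ∑ p ∈ PR r, (1 : ℝ) / (p : ℝ) ^ 2 ≤ 1 / 10 := by
  by_cases h : 10 ≤ yy r
  · have h1 : ∑ p ∈ PR r, (1 : ℝ) / (p : ℝ) ^ 2 ≤ ∑ p ∈ Ioc 10 (yy r), ((p : ℝ) ^ 2)⁻¹ := by
      simp only [one_div]
      exact sum_le_sum_of_subset_of_nonneg (filter_subset _ _) fun i _ _ => by positivity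
    refine h1.trans ((sum_Ioc_inv_sq_le_sub (by norm_num) h).trans ?_)
    have : (0 : ℝ) ≤ ((yy r : ℕ) : ℝ)⁻¹ := by positivity
    push_cast
    linarith
  · have : PR r = ∅ := by
      rw [Finset.eq_empty_iff_forall_notMem]
      intro p hp
      have := mem_PR hp
      omega
    rw [this]
    norm_num

theorem prod_one_sub_le {ι : Type*} (P : Finset ι) (η : ι → ℝ) (h : ∀ i ∈ P, η i ≤ 1) :
    ∏ i ∈ P, (1 - η i) ≤ Real.exp (-∑ i ∈ P, η i) := by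
  rw [← sum_neg_distrib, Real.exp_sum]
  refine prod_le_prod (fun i hi => by linarith [h i hi]) fun i _ => ?_
  have := Real.add_one_le_exp (-η i)
  linarith

end Pool.Agent.H177R2.SD
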