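import Pool.Agent.H177R2.SD.Defs2

/-!
Task L2: many admissible triples.
-/

set_option autoImplicit false

namespace Pool.Agent.H177R2.SD

open Finset

namespace L2

/-- coprime pairs with product at most `M` -/
def S (M : ℕ) : Finset (ℕ × ℕ) :=
  ((Icc 2 M) ×ˢ (Icc 2 M)).filter (fun x => x.1 * x.2 ≤ M ∧ Nat.Coprime x.1 x.2)

/-- all pairs with product at most `M` -/
def T (M : ℕ) : Finset (ℕ × ℕ) :=
  ((Icc 2 M) ×ˢ (Icc 2 M)).filter (fun x => x.1 * x.2 ≤ M)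

lemma exists_k {b d : ℕ} (hb : 2 ≤ b) (hd : 2 ≤ d) (h : Nat.Coprime b d) :
    ∃ k : ℕ, b ∣ k ∧ k < b * d ∧ d ∣ (k - 1) ∧ 2 ≤ k ∧ Nat.Coprime k d := by
  have h0 := (Nat.chineseRemainder h 0 1).2
  have hlt := Nat.chineseRemainder_lt_mul h 0 1 (by omega) (by omega)
  set k : ℕ := (Nat.chineseRemainder h 0 1 : ℕ) with hk
  have h1 : b ∣ k := (Nat.modEq_zero_iff_dvd).mp h0.1
  have h2 : k ≡ 1 [MOD d] := h0.2
  have hk0 : k ≠ 0 := by
    intro hk0
    rw [hk0] at h2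
    have := (Nat.modEq_iff_dvd' (by omega)).mp h2
    have := Nat.le_of_dvd (by omega) this
    omega
  have hk1 : 1 ≤ k := Nat.one_le_iff_ne_zero.mpr hk0
  refine ⟨k, h1, hlt, (Nat.modEq_iff_dvd' hk1).mp h2.symm, ?_, ?_⟩
  · have := Nat.le_of_dvd (by omega) h1
    omega
  · have := h2.gcd_eq
    rw [Nat.coprime_iff_gcd_eq_one, this]
    simp

lemma card_S_le (N : ℕ) : #(S (N - 1)) ≤ #(Admissible N) := by
  have hex : ∀ x : ℕ × ℕ, x ∈ S (N - 1) → ∃ k : ℕ, x.1 ∣ k ∧ k < x.1 * x.2 ∧ x.2 ∣ (k - 1) ∧ 2 ≤ k ∧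
      Nat.Coprime k x.2 := by
    intro x hx
    simp only [S, mem_filter, mem_product, mem_Icc] at hx
    exact exists_k hx.1.1.1 hx.1.2.1 hx.2.2
  choose! k hk using hex
  apply card_le_card_of_injOn (fun x => (x.1 * x.2 + 1, k x, k x * (k x - 1) / (x.1 * x.2)))
  · intro x hx
    obtain ⟨h1, h2, h3, h4, h5⟩ := hk x hx
    rw [mem_coe] at hx
    simp only [S, mem_filter, mem_product, mem_Icc] at hx
    obtain ⟨⟨⟨hb, _⟩, hd, _⟩, hM, hcop⟩ := hx
    have hdvd : x.1 * x.2 ∣ k x * (k x - 1) :=  Nat.mul_dvd_mul h1 h3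
    have hpos : 0 < x.1 * x.2 := by positivity
    have hkpos : 0 < k x * (k x - 1) := Nat.mul_pos (by omega) (by omega)
    have hl1 : 1 ≤ k x * (k x - 1) / (x.1 * x.2) :=
      Nat.div_pos (Nat.le_of_dvd hkpos hdvd) hpos
    have hl2 : k x * (k x - 1) / (x.1 * x.2) ≤ k x := by
      apply Nat.div_le_of_le_mul
      rw [mul_comm (x.1 * x.2)]
      exact Nat.mul_le_mul_left _ (by omega)
    simp only [Admissible, coe_filter, mem_product, mem_Icc, Set.mem_ofPred_eq]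
    refine ⟨⟨⟨by omega, by omega⟩, ⟨by omega, by omega⟩, ⟨hl1, by omega⟩⟩, by omega, ?_⟩
    rw [Nat.add_sub_cancel]
    exact Nat.div_mul_cancel hdvd
  · intro x hx y hy hxy
    obtain ⟨h1, h2, h3, h4, h5⟩ := hk x hx
    obtain ⟨g1, g2, g3, g4, g5⟩ := hk y hy
    simp only [Prod.mk.injEq] at hxy
    obtain ⟨e1, e2, -⟩ := hxy
    have e1' : x.1 * x.2 = y.1 * y.2 := by omega
    have a1 : Nat.gcd (k x) (x.1 * x.2) = x.1 := by
      rw [Nat.Coprime.gcd_mul_right_cancel_right _ h5.symm]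
      exact Nat.gcd_eq_right h1
    have a2 : Nat.gcd (k y) (y.1 * y.2) = y.1 := by
      rw [Nat.Coprime.gcd_mul_right_cancel_right _ g5.symm]
      exact Nat.gcd_eq_right g1
    have e3 : x.1 = y.1 := by rw [← a1, ← a2, e1', e2]
    rw [mem_coe] at hx
    simp only [S, mem_filter, mem_product, mem_Icc] at hx
    have hb : 0 < x.1 := by omega
    have e4 : x.2 = y.2 := by
      rw [← e3] at e1'
      exact Nat.eq_of_mul_eq_mul_left hb e1'
    exact Prod.ext e3 e4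

/-- harmonic sums -/
noncomputable def H (M : ℕ) : ℝ := ∑ b ∈ Icc 1 M, 1 / (b : ℝ)

lemma H_eq (M : ℕ) : H M = (harmonic M : ℝ) := by
  rw [harmonic_eq_sum_Icc, H]
  push_cast
  simp

lemma H_lower (M : ℕ) (hM : 1 ≤ M) : Real.log M ≤ H M := by
  rw [H_eq]
  refine le_trans (Real.log_le_log (by exact_mod_cast hM) ?_) (log_add_one_le_harmonic M)
  push_cast; linarith

lemma H_upper (M : ℕ) : H M ≤ 1 + Real.log M := by
  rw [H_eq]; exact harmonic_le_one_add_log M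

lemma T_lower (M : ℕ) (hM : 1 ≤ M) : M * Real.log M - 3 * M ≤ (#(T M) : ℝ) := by
  have h1 : #(T M) = ∑ b ∈ Icc 2 M, #((Icc 2 M).filter (fun d => b * d ≤ M)) := by
    rw [T, card_filter, sum_product]
    apply sum_congr rfl
    intro b _
    rw [card_filter]
  have h2 : ∀ b ∈ Icc 2 M, (M : ℝ) * (1 / b) - 2 ≤ (#((Icc 2 M).filter (fun d => b * d ≤ M)) : ℝ) := by
    intro b hb
    rw [mem_Icc] at hb
    have h3 : Icc 2 (M / b) ⊆ (Icc 2 M).filter (fun d => b * d ≤ M) := by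
      intro d hd
      rw [mem_Icc] at hd
      have : b * d ≤ M := by
        calc b * d ≤ b * (M / b) := Nat.mul_le_mul_left _ hd.2
          _ ≤ M := Nat.mul_div_le M b
      rw [mem_filter, mem_Icc]
      refine ⟨⟨hd.1, ?_⟩, this⟩
      nlinarith
    have h4 := card_le_card h3
    rw [Nat.card_Icc] at h4
    have h5 : (M / b : ℕ) ≤ #((Icc 2 M).filter (fun d => b * d ≤ M)) + 1 := by omega
    have h6 : (M : ℝ) / b < (M / b : ℕ) + 1 := by
      have hb0 : 0 < b := by omega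
      have h := Nat.lt_mul_div_succ M hb0
      rw [div_lt_iff₀ (by exact_mod_cast hb0), mul_comm]
      exact_mod_cast h
    have h7 : ((M / b : ℕ) : ℝ) ≤ (#((Icc 2 M).filter (fun d => b * d ≤ M)) : ℝ) + 1 := by
      exact_mod_cast h5
    have h8 : (M : ℝ) * (1 / b) = (M : ℝ) / b := by ring
    rw [h8]
    linarith
  have h3 : (∑ b ∈ Icc 2 M, ((M : ℝ) * (1 / b) - 2)) ≤ (#(T M) : ℝ) := by
    rw [h1]
    push_cast
    exact sum_le_sum h2
  have h4 : ∑ b ∈ Icc 2 M, ((M : ℝ) * (1 / b) - 2) = M * (H M - 1) - 2 * #(Icc 2 M) := by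
    rw [sum_sub_distrib, ← mul_sum, sum_const, nsmul_eq_mul]
    have : H M = 1 + ∑ b ∈ Icc 2 M, 1 / (b : ℝ) := by
      rw [H, ← Finset.sum_Ioc_add_eq_sum_Icc hM]
      have : Ioc 1 M = Icc 2 M := by ext; simp [mem_Ioc, mem_Icc, Nat.lt_iff_add_one_le]
      rw [this]; simp; ring
    rw [this]; ring
  rw [h4] at h3
  have h5 : (#(Icc 2 M) : ℝ) ≤ M := by
    rw [Nat.card_Icc]
    exact_mod_cast (by omega : M + 1 - 2 ≤ M)
  have h6 := H_lower M hM
  have h7 : (0 : ℝ) ≤ M := Nat.cast_nonneg _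
  nlinarith [mul_le_mul_of_nonneg_left h6 h7]

lemma sum_sq (M : ℕ) : ∑ g ∈ Icc 2 M, 1 / (g : ℝ) ^ 2 ≤ 3 / 4 := by
  rcases Nat.lt_or_ge M 2 with h | h
  · rw [Icc_eq_empty (by omega)]; norm_num
  · have : ∑ g ∈ Icc 2 M, 1 / (g : ℝ) ^ 2 ≤ 3 / 4 - 1 / (M : ℝ) := by
      induction M, h using Nat.le_induction with
      | base => norm_num
      | succ n hn ih =>
        rw [sum_Icc_succ_top (by omega)]
        have hn' : (0 : ℝ) < n := by positivity
        have key : 1 / ((n + 1 : ℕ) : ℝ) ^ 2 ≤ 1 / (n : ℝ) - 1 / ((n + 1 : ℕ) : ℝ) := by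
          push_cast
          rw [div_sub_div _ _ hn'.ne' (by positivity), div_le_div_iff₀ (by positivity) (by positivity)]
          nlinarith
        linarith
    have h2 : (0 : ℝ) ≤ 1 / (M : ℝ) := by positivity
    linarith

lemma U_upper (M : ℕ) (hM : 1 ≤ M) :
    (#((T M).filter (fun x => ¬ Nat.Coprime x.1 x.2)) : ℝ) ≤ 3 / 4 * (M * (1 + Real.log M)) := by
  classical
  set V : ℕ → Finset (ℕ × ℕ) := fun g =>
    ((Icc 1 M) ×ˢ (Icc 1 M)).filter (fun x => g ^ 2 * x.1 * x.2 ≤ M) with hV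
  have hsub : (T M).filter (fun x => ¬ Nat.Coprime x.1 x.2) ⊆
      (Icc 2 M).biUnion (fun g => (V g).image (fun x => (g * x.1, g * x.2))) := by
    intro x hx
    simp only [T, mem_filter, mem_product, mem_Icc] at hx
    obtain ⟨⟨⟨⟨h1, h2⟩, h3, h4⟩, h5⟩, h6⟩ := hx
    rw [mem_biUnion]
    have hg : x.1.gcd x.2 ≠ 0 := by
      rw [Ne, Nat.gcd_eq_zero_iff]; omega
    have hg1 : x.1.gcd x.2 ≠ 1 := h6
    obtain ⟨b, hb⟩ := Nat.gcd_dvd_left x.1 x.2
    obtain ⟨d, hd⟩ := Nat.gcd_dvd_right x.1 x.2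
    set g := x.1.gcd x.2 with hgdef
    have hgle : g ≤ x.1 := Nat.le_of_dvd (by omega) (Nat.gcd_dvd_left x.1 x.2)
    refine ⟨g, mem_Icc.mpr ⟨by omega, by omega⟩, ?_⟩
    rw [mem_image]
    have hb0 : b ≠ 0 := by rintro rfl; omega
    have hd0 : d ≠ 0 := by rintro rfl; omega
    refine ⟨(b, d), ?_, Prod.ext hb.symm hd.symm⟩
    simp only [hV, mem_filter, mem_product, mem_Icc]
    have hbM : b ≤ M := by
      calc b ≤ g * b := Nat.le_mul_of_pos_left _ (by omega)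
        _ = x.1 := hb.symm
        _ ≤ M := h2
    have hdM : d ≤ M := by
      calc d ≤ g * d := Nat.le_mul_of_pos_left _ (by omega)
        _ = x.2 := hd.symm
        _ ≤ M := h4
    refine ⟨⟨⟨by omega, hbM⟩, by omega, hdM⟩, ?_⟩
    calc g ^ 2 * b * d = (g * b) * (g * d) := by ring
      _ = x.1 * x.2 := by rw [← hb, ← hd]
      _ ≤ M := h5
  have hVc : ∀ g ∈ Icc 2 M, (#(V g) : ℝ) ≤ (M * (1 + Real.log M)) * (1 / (g : ℝ) ^ 2) := by
    intro g hg
    rw [mem_Icc] at hg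
    have h1 : #(V g) = ∑ b ∈ Icc 1 M, #((Icc 1 M).filter (fun d => g ^ 2 * b * d ≤ M)) := by
      rw [hV]
      simp only
      rw [card_filter, sum_product]
      apply sum_congr rfl
      intro b _
      rw [card_filter]
    have h2 : ∀ b ∈ Icc 1 M, (#((Icc 1 M).filter (fun d => g ^ 2 * b * d ≤ M)) : ℝ) ≤
        (M : ℝ) / (g : ℝ) ^ 2 * (1 / b) := by
      intro b hb
      rw [mem_Icc] at hb
      have hbpos : 0 < b := by omega
      have hgpos : 0 < g := by omega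
      have h3 : (Icc 1 M).filter (fun d => g ^ 2 * b * d ≤ M) ⊆ Icc 1 (M / (g ^ 2 * b)) := by
        intro d hd
        rw [mem_filter, mem_Icc] at hd
        rw [mem_Icc, Nat.le_div_iff_mul_le (by positivity), mul_comm]
        exact ⟨hd.1.1, hd.2⟩
      have h4 := card_le_card h3
      rw [Nat.card_Icc, Nat.add_sub_cancel] at h4
      calc (#((Icc 1 M).filter (fun d => g ^ 2 * b * d ≤ M)) : ℝ) ≤ ((M / (g ^ 2 * b) : ℕ) : ℝ) := by
            exact_mod_cast h4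
        _ ≤ (M : ℝ) / ((g ^ 2 * b : ℕ) : ℝ) := Nat.cast_div_le
        _ = (M : ℝ) / (g : ℝ) ^ 2 * (1 / b) := by
            push_cast
            have : (g : ℝ) ≠ 0 := by positivity
            have : (b : ℝ) ≠ 0 := by positivity
            field_simp
    have h3 : (#(V g) : ℝ) ≤ ∑ b ∈ Icc 1 M, (M : ℝ) / (g : ℝ) ^ 2 * (1 / b) := by
      rw [h1]; push_cast
      exact sum_le_sum h2
    rw [← mul_sum] at h3
    refine h3.trans ?_
    have h4 := H_upper M
    rw [H] at h4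
    calc (M : ℝ) / (g : ℝ) ^ 2 * ∑ b ∈ Icc 1 M, 1 / (b : ℝ) ≤ (M : ℝ) / (g : ℝ) ^ 2 * (1 + Real.log M) :=
          mul_le_mul_of_nonneg_left h4 (by positivity)
      _ = _ := by ring
  have hlog : 0 ≤ Real.log M := Real.log_natCast_nonneg M
  calc (#((T M).filter (fun x => ¬ Nat.Coprime x.1 x.2)) : ℝ)
      ≤ (#((Icc 2 M).biUnion (fun g => (V g).image (fun x => (g * x.1, g * x.2)))) : ℝ) := by
        exact_mod_cast card_le_card hsub
    _ ≤ ∑ g ∈ Icc 2 M, (#(V g) : ℝ) := by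
        have h1 := card_biUnion_le (s := Icc 2 M) (t := fun g => (V g).image (fun x => (g * x.1, g * x.2)))
        have h2 : ∑ g ∈ Icc 2 M, #((V g).image (fun x => (g * x.1, g * x.2))) ≤ ∑ g ∈ Icc 2 M, #(V g) :=
          sum_le_sum fun g _ => card_image_le
        exact_mod_cast h1.trans h2
    _ ≤ ∑ g ∈ Icc 2 M, (M * (1 + Real.log M)) * (1 / (g : ℝ) ^ 2) := sum_le_sum hVc
    _ = (M * (1 + Real.log M)) * ∑ g ∈ Icc 2 M, 1 / (g : ℝ) ^ 2 := by rw [mul_sum]
    _ ≤ (M * (1 + Real.log M)) * (3 / 4) := by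
        apply mul_le_mul_of_nonneg_left (sum_sq M)
        positivity
    _ = _ := by ring

lemma S_lower (M : ℕ) (hM : 1 ≤ M) : 1 / 4 * (M * Real.log M) - 4 * M ≤ (#(S M) : ℝ) := by
  have h1 : #(T M) = #(S M) + #((T M).filter (fun x => ¬ Nat.Coprime x.1 x.2)) := by
    rw [← card_filter_add_card_filter_not (s := T M) (fun x => Nat.Coprime x.1 x.2)]
    congr 2
    rw [T, S, filter_filter]
  have h2 : (#(T M) : ℝ) = #(S M) + #((T M).filter (fun x => ¬ Nat.Coprime x.1 x.2)) := by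
    exact_mod_cast h1
  have h3 := T_lower M hM
  have h4 := U_upper M hM
  have h5 : (0 : ℝ) ≤ M := Nat.cast_nonneg _
  nlinarith

end L2

open L2 in
theorem admissible_lower : ∃ c : ℝ, 0 < c ∧ ∀ N : ℕ, 2 ≤ N →
    c * (N * Real.log N) - 10 * N ≤ ((Admissible N).card : ℝ) := by
  refine ⟨1 / 8, by norm_num, ?_⟩
  intro N hN
  have h1 : (#(S (N - 1)) : ℝ) ≤ #(Admissible N) := by exact_mod_cast card_S_le N
  refine le_trans ?_ h1
  refine le_trans ?_ (S_lower (N - 1) (by omega))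
  have hN' : ((N - 1 : ℕ) : ℝ) = (N : ℝ) - 1 := by
    rw [Nat.cast_sub (by omega)]; simp
  rw [hN']
  have hN2 : (2 : ℝ) ≤ N := by exact_mod_cast hN
  have h2 : Real.log N - Real.log 2 ≤ Real.log ((N : ℝ) - 1) := by
    rw [← Real.log_div (by positivity) (by norm_num)]
    apply Real.log_le_log (by positivity)
    linarith
  have h3 : Real.log 2 ≤ 1 := by
    have := Real.log_two_lt_d9
    linarith
  have h4 : 0 ≤ Real.log ((N : ℝ) - 1) := Real.log_nonneg (by linarith)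
  have h5 : (N : ℝ) / 2 * (Real.log N - 1) ≤ ((N : ℝ) - 1) * Real.log ((N : ℝ) - 1) := by
    calc (N : ℝ) / 2 * (Real.log N - 1) ≤ (N : ℝ) / 2 * Real.log ((N : ℝ) - 1) :=
          mul_le_mul_of_nonneg_left (by linarith) (by positivity)
      _ ≤ ((N : ℝ) - 1) * Real.log ((N : ℝ) - 1) :=
          mul_le_mul_of_nonneg_right (by linarith) h4
  nlinarith

end Pool.Agent.H177R2.SD
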