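import Pool.Agent.H177R2.SD.Main2
import Pool.Agent.H177R2.SD.Lower2

/-!
The proportion of realised parameter triples.
-/

set_option autoImplicit false

namespace Pool.Agent.H177R2.SD

open Finset Filter Topology

lemma realised_subset_admissible (N : ℕ) : Realised N ⊆ Admissible N := by
  classical
  rintro ⟨v, k, l⟩ hx
  simp only [Realised, mem_filter, mem_product, mem_Icc] at hx
  obtain ⟨h1, hd⟩ := hx
  obtain ⟨B, -, -, -, h⟩ := design_count hd
  simp only [Admissible, mem_filter, mem_product, mem_Icc]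
  exact ⟨h1, hd.1, h⟩

theorem proportion : ∃ C : ℝ, 0 < C ∧ ∀ N : ℕ, 16 ≤ N →
    ((Realised N).card : ℝ) ≤
      C * ((Real.log (Real.log N)) ^ 2 / Real.log N) * ((Admissible N).card : ℝ) := by
  obtain ⟨C, hC, hD⟩ := realised_upper
  obtain ⟨c, hc, hA⟩ := admissible_lower
  refine ⟨2 * C / c + 20 / c, by positivity, ?_⟩
  intro N hN
  have hu := one_le_loglog hN
  have hD := hD N hN
  have hA := hA N (by omega)
  set u := Real.log (Real.log N) with hu'
  set L := Real.log N with hL
  have hL0 : 0 < L := by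
    rw [hL]; exact Real.log_pos (by exact_mod_cast (by omega : 1 < N))
  have hN0 : (0 : ℝ) < N := by exact_mod_cast (by omega : 0 < N)
  have hAn : (0 : ℝ) ≤ ((Admissible N).card : ℝ) := Nat.cast_nonneg _
  have hu2 : 1 ≤ u ^ 2 := by nlinarith
  rcases le_or_gt (20 / c) L with h | h
  · have h1 : c / 2 * (N * L) ≤ ((Admissible N).card : ℝ) := by
      have h2 : 20 ≤ c * L := by rw [div_le_iff₀ hc] at h; linarith
      have h3 : 10 * (N : ℝ) ≤ c / 2 * (N * L) := by nlinarith
      linarith
    have h2 : (N : ℝ) ≤ 2 / c / L * ((Admissible N).card : ℝ) := by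
      have h3 : 2 / c / L * (c / 2 * (N * L)) = N := by field_simp
      calc (N : ℝ) = 2 / c / L * (c / 2 * (N * L)) := h3.symm
        _ ≤ _ := mul_le_mul_of_nonneg_left h1 (by positivity)
    have h20 : 0 ≤ 20 / c * (u ^ 2 / L) * ((Admissible N).card : ℝ) := by positivity
    calc ((Realised N).card : ℝ) ≤ C * N * u ^ 2 := hD
      _ = C * u ^ 2 * N := by ring
      _ ≤ C * u ^ 2 * (2 / c / L * ((Admissible N).card : ℝ)) := mul_le_mul_of_nonneg_left h2 (by positivity)
      _ = 2 * C / c * (u ^ 2 / L) * ((Admissible N).card : ℝ) := by ring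
      _ ≤ _ := by linarith
  · have h1 : ((Realised N).card : ℝ) ≤ ((Admissible N).card : ℝ) := by
      exact_mod_cast card_le_card (realised_subset_admissible N)
    have h2 : 1 ≤ 20 / c * (u ^ 2 / L) := by
      rw [← mul_div_assoc, le_div_iff₀ hL0, one_mul]
      have : 0 < 20 / c := by positivity
      nlinarith
    have h3 : 0 ≤ 2 * C / c * (u ^ 2 / L) * ((Admissible N).card : ℝ) := by positivity
    calc ((Realised N).card : ℝ) ≤ 1 * ((Admissible N).card : ℝ) := by linarith
      _ ≤ 20 / c * (u ^ 2 / L) * ((Admissible N).card : ℝ) := mul_le_mul_of_nonneg_right h2 hAn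
      _ ≤ _ := by linarith

end Pool.Agent.H177R2.SD
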