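import Pool.Agent.H177R2.SD.Count

/-!
Symmetric designs on almost all numbers of points: the main theorem.
-/

set_option autoImplicit false

namespace Pool.Agent.H177R2.SD

open Finset Filter Topology

lemma bad_of_exc {v : ℕ} (h : Exc v) : Bad 1 (v - 1) ∨ Bad (-1) (v - 1) := by
  obtain ⟨k, l, hk, hkv, hd, hne⟩ := h
  obtain ⟨a, b, c, d, ha, had, hdb, hab, hv, hkab, htests⟩ := quad_of_design hd hk hkv
  by_cases h3 : v % 4 = 3
  · right
    refine ⟨a, b, c, d, ha, had, hdb, hab, by omega, ?_, htests (-1) (by rw [if_pos h3])⟩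
    rintro ⟨z, hz⟩
    apply hne
    refine ⟨h3, ?_⟩
    have hz' : ((a : ℤ) * ((d : ℤ) - a)) = z * z := by rw [← hz]; ring
    have hsq : IsSquare (a * (d - a)) := by
      refine ⟨z.natAbs, ?_⟩
      have : ((a * (d - a) : ℕ) : ℤ) = ((z.natAbs * z.natAbs : ℕ) : ℤ) := by
        push_cast [Nat.cast_sub had.le]
        rw [hz', ← Int.natAbs_mul_self (a := z)]
        push_cast; ring
      exact_mod_cast this
    obtain ⟨y, hy⟩ := hsq
    have hsub : b * d - a * b = b * (d - a) := by
      rw [Nat.mul_sub, mul_comm a b]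
    rcases hkab with hk1 | hk1
    · left
      refine ⟨b * y, ?_⟩
      have : v - 1 - k = b * (d - a) := by rw [hv, hk1, Nat.add_sub_cancel, hsub]
      rw [this, hk1]
      calc a * b * (b * (d - a)) = b * b * (a * (d - a)) := by ring
        _ = b * y * (b * y) := by rw [hy]; ring
    · right
      refine ⟨b * y, ?_⟩
      have h1 : k - 1 = b * (d - a) := by
        rw [← hsub]
        have : a * b ≤ b * d := by rw [mul_comm a b]; exact Nat.mul_le_mul_left _ had.le
        omega
      rw [h1, hk1]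
      calc b * (d - a) * (a * b) = b * b * (a * (d - a)) := by ring
        _ = b * y * (b * y) := by rw [hy]; ring
  · left
    refine ⟨a, b, c, d, ha, had, hdb, hab, by omega, ?_, htests 1 (by rw [if_neg h3])⟩
    rintro ⟨z, hz⟩
    have h1 : (0 : ℤ) < a := by exact_mod_cast ha
    have h2 : ((a : ℤ) - d) < 0 := by
      have : (a : ℤ) < d := by exact_mod_cast had
      linarith
    have h4 : (a : ℤ) * ((a : ℤ) - d) < 0 := mul_neg_of_pos_of_neg h1 h2
    nlinarith [mul_self_nonneg z]

open Classical in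
lemma exc_count (ε : ℝ) (hε : 0 < ε) :
    ∃ X0 : ℕ, ∀ X ≥ X0, (((Icc 1 X).filter Exc).card : ℝ) ≤ ε * X := by
  obtain ⟨X1, h1⟩ := count 1 (Or.inl rfl) (ε / 2) (by positivity)
  obtain ⟨X2, h2⟩ := count (-1) (Or.inr rfl) (ε / 2) (by positivity)
  refine ⟨max X1 X2, ?_⟩
  intro X hX
  have e1 := h1 X (le_trans (le_max_left _ _) hX)
  have e2 := h2 X (le_trans (le_max_right _ _) hX)
  have hsub : ((Icc 1 X).filter Exc).image (fun v => v - 1) ⊆
      ((Icc 1 X).filter fun m => Bad 1 m) ∪ ((Icc 1 X).filter fun m => Bad (-1) m) := by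
    intro m hm
    obtain ⟨v, hv, rfl⟩ := mem_image.1 hm
    rw [mem_filter, mem_Icc] at hv
    obtain ⟨⟨hv1, hvX⟩, hexc⟩ := hv
    have hv4 : 4 ≤ v := by
      obtain ⟨k, l, hk, hkv, -⟩ := hexc
      omega
    rw [mem_union, mem_filter, mem_filter, mem_Icc]
    rcases bad_of_exc hexc with h | h
    · left; exact ⟨⟨by omega, by omega⟩, h⟩
    · right; exact ⟨⟨by omega, by omega⟩, h⟩
  have hcard : ((Icc 1 X).filter Exc).card ≤ (((Icc 1 X).filter fun m => Bad 1 m)).card
      + ((Icc 1 X).filter fun m => Bad (-1) m).card := by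
    rw [← card_image_of_injOn (f := fun v => v - 1)]
    · exact (card_le_card hsub).trans (card_union_le _ _)
    · intro v hv w hw h
      rw [mem_coe, mem_filter, mem_Icc] at hv hw
      simp only at h
      omega
  have hc : (((Icc 1 X).filter Exc).card : ℝ) ≤ (((Icc 1 X).filter fun m => Bad 1 m).card : ℝ)
      + (((Icc 1 X).filter fun m => Bad (-1) m).card : ℝ) := by exact_mod_cast hcard
  linarith

open Classical in
theorem main : Tendsto (fun N : ℕ => (((Icc 1 N).filter Exc).card : ℝ) / N) atTop (𝓝 0) := by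
  rw [Metric.tendsto_atTop]
  intro ε hε
  obtain ⟨X0, h⟩ := exc_count (ε / 2) (by positivity)
  refine ⟨max X0 1, ?_⟩
  intro N hN
  have hN0 : (0 : ℝ) < N := by
    have : 1 ≤ N := le_trans (le_max_right _ _) hN
    exact_mod_cast this
  have h1 := h N (le_trans (le_max_left _ _) hN)
  rw [Real.dist_eq, sub_zero, abs_of_nonneg (by positivity), div_lt_iff₀ hN0]
  nlinarith

end Pool.Agent.H177R2.SD
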