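import Pool.Agent.H177R2.SD.Defs

set_option autoImplicit false

/-!
Task B: parametrisation of symmetric designs, reduced to the local Bruck-Ryser-Chowla theorem.
-/

namespace Pool.Agent.H177R2.SD

open Finset

/-- the statement of the local Bruck-Ryser-Chowla theorem -/
def BrcLocal : Prop := ∀ {v k l p : ℕ}, IsSymmetricDesign v k l → 2 ≤ k → k + 2 ≤ v →
    p.Prime → p ≠ 2 → p ∣ k - l → ¬ p ^ 2 ∣ k - l → ¬ p ∣ l →
    v % 2 = 1 ∧ IsSquare (((-1) ^ ((v - 1) / 2) * (l : ℤ) : ℤ) : ZMod p)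

/-- the two counting identities -/
theorem design_count {v k l : ℕ} (hd : IsSymmetricDesign v k l) :
    ∃ (B : Fin v → Finset (Fin v)),
    (∀ i, (B i).card = k) ∧
    (∀ x, (Finset.univ.filter fun i => x ∈ B i).card = k) ∧
    (∀ x y, x ≠ y → (Finset.univ.filter fun i => x ∈ B i ∧ y ∈ B i).card = l) ∧
    l * (v - 1) = k * (k - 1) := by
  obtain ⟨hkv, r, B, h1, h2, h3⟩ := hd
  have hv : 0 < v := by omega
  -- r = k
  have hr : r = k := by
    have e1 : ∑ x : Fin v, (univ.filter fun i => x ∈ B i).card = v * r := by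
      rw [Finset.sum_congr rfl (fun x _ => h2 x), Finset.sum_const, Finset.card_univ,
        Fintype.card_fin, smul_eq_mul]
    have e2 : ∑ i : Fin v, (B i).card = v * k := by
      rw [Finset.sum_congr rfl (fun x _ => h1 x), Finset.sum_const, Finset.card_univ,
        Fintype.card_fin, smul_eq_mul]
    have e3 : ∑ x : Fin v, (univ.filter fun i => x ∈ B i).card = ∑ i : Fin v, (B i).card := by
      simp only [Finset.card_filter]
      rw [Finset.sum_comm]
      apply Finset.sum_congr rfl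
      intro i _
      rw [← Finset.card_filter]
      congr 1
      ext x; simp
    rw [e1, e2] at e3
    exact Nat.eq_of_mul_eq_mul_left hv e3
  refine ⟨B, h1, fun x => by rw [h2, hr], h3, ?_⟩
  -- count pairs through a fixed point
  let x0 : Fin v := ⟨0, hv⟩
  have e1 : ∑ y ∈ univ.erase x0, (univ.filter fun i => x0 ∈ B i ∧ y ∈ B i).card = l * (v - 1) := by
    rw [Finset.sum_congr rfl (fun y hy => h3 x0 y (Finset.ne_of_mem_erase hy).symm),
      Finset.sum_const, Finset.card_erase_of_mem (Finset.mem_univ _), Finset.card_univ,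
      Fintype.card_fin, smul_eq_mul, mul_comm]
  have e2 : ∑ y ∈ univ.erase x0, (univ.filter fun i => x0 ∈ B i ∧ y ∈ B i).card =
      ∑ i ∈ univ.filter (fun i => x0 ∈ B i), (k - 1) := by
    simp only [Finset.card_filter]
    rw [Finset.sum_comm, Finset.sum_filter]
    apply Finset.sum_congr rfl
    intro i _
    by_cases hx : x0 ∈ B i
    · rw [if_pos hx, ← Finset.card_filter]
      have : (univ.erase x0).filter (fun y => x0 ∈ B i ∧ y ∈ B i) = (B i).erase x0 := by
        ext y; simp [hx, and_comm]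
      rw [this, Finset.card_erase_of_mem hx, h1]
    · rw [if_neg hx]
      apply Finset.sum_eq_zero
      intro y _
      rw [if_neg (fun h => hx h.1)]
  rw [← e1, e2, Finset.sum_const, h2, hr, smul_eq_mul]

/-- the complementary design -/
theorem design_compl {v k l : ℕ} (hd : IsSymmetricDesign v k l) (hk : 0 < k) :
    2 * k ≤ v + l ∧ IsSymmetricDesign v (v - k) (v + l - 2 * k) := by
  obtain ⟨B, h1, h2, h3, -⟩ := design_count hd
  have hkv : k < v := hd.1
  have key : ∀ x y : Fin v, x ≠ y →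
      (univ.filter fun i => x ∈ (B i)ᶜ ∧ y ∈ (B i)ᶜ).card + 2 * k = v + l := by
    intro x y hxy
    have e1 : (univ.filter fun i => x ∈ (B i)ᶜ ∧ y ∈ (B i)ᶜ) =
        (univ.filter (fun i => x ∈ B i) ∪ univ.filter (fun i => y ∈ B i))ᶜ := by
      ext i; simp
    have e2 := Finset.card_union_add_card_inter (univ.filter (fun i => x ∈ B i))
      (univ.filter (fun i => y ∈ B i))
    have e3 : (univ.filter (fun i => x ∈ B i)) ∩ (univ.filter (fun i => y ∈ B i)) =
        univ.filter (fun i => x ∈ B i ∧ y ∈ B i) := by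
      ext i; simp
    have e4 := Finset.card_compl_add_card (univ.filter (fun i => x ∈ B i) ∪
      univ.filter (fun i => y ∈ B i))
    rw [Fintype.card_fin] at e4
    rw [e3, h3 x y hxy, h2, h2] at e2
    rw [e1]
    omega
  have hv2 : 2 ≤ v := by omega
  have hle : 2 * k ≤ v + l := by
    have := key ⟨0, by omega⟩ ⟨1, by omega⟩ (by simp)
    omega
  refine ⟨hle, by omega, v - k, fun i => (B i)ᶜ, ?_, ?_, ?_⟩
  · intro i
    rw [Finset.card_compl, Fintype.card_fin, h1]
  · intro x
    have e1 : (univ.filter fun i => x ∈ (B i)ᶜ) = (univ.filter (fun i => x ∈ B i))ᶜ := by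
      ext i; simp
    rw [e1, Finset.card_compl, Fintype.card_fin, h2]
  · intro x y hxy
    have := key x y hxy
    show (univ.filter fun i => x ∈ (B i)ᶜ ∧ y ∈ (B i)ᶜ).card = v + l - 2 * k
    omega

/-- parametrisation by a coprime factorisation of `v - 1` -/
theorem design_param {v k l : ℕ} (hd : IsSymmetricDesign v k l) (hk : 2 ≤ k) (hkv : k + 2 ≤ v) :
    ∃ a b c d : ℕ, 1 ≤ a ∧ a < d ∧ 1 ≤ c ∧ c < b ∧ a * b = c * d + 1 ∧ v = b * d + 1 ∧
      k = a * b ∧ l = a * c := by
  obtain ⟨B, h1, h2, h3, hl⟩ := design_count hd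
  obtain ⟨k', rfl⟩ : ∃ k', k = k' + 1 := ⟨k - 1, by omega⟩
  obtain ⟨m, rfl⟩ : ∃ m, v = m + 1 := ⟨v - 1, by omega⟩
  simp only [Nat.add_sub_cancel] at hl
  have hcop : Nat.Coprime (k' + 1) k' := by simp
  have hm : m = Nat.gcd m (k' + 1) * Nat.gcd m k' := by
    rw [← Nat.Coprime.gcd_mul m hcop, ← hl]
    simp
  obtain ⟨b, hb⟩ : ∃ b, b = Nat.gcd m (k' + 1) := ⟨_, rfl⟩
  obtain ⟨d, hd'⟩ : ∃ d, d = Nat.gcd m k' := ⟨_, rfl⟩
  rw [← hb, ← hd'] at hm
  obtain ⟨a, ha⟩ : b ∣ k' + 1 := hb ▸ Nat.gcd_dvd_right _ _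
  obtain ⟨c, hc⟩ : d ∣ k' := hd' ▸ Nat.gcd_dvd_right _ _
  have hmpos : 0 < m := by omega
  have hbpos : 0 < b := by
    rcases Nat.eq_zero_or_pos b with h | h
    · rw [h, zero_mul] at hm; omega
    · exact h
  have hdpos : 0 < d := by
    rcases Nat.eq_zero_or_pos d with h | h
    · rw [h, mul_zero] at hm; omega
    · exact h
  refine ⟨a, b, c, d, ?_, ?_, ?_, ?_, ?_, ?_, ?_, ?_⟩
  · rcases Nat.eq_zero_or_pos a with h | h
    · rw [h, mul_zero] at ha; omega
    · exact h
  · by_contra h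
    push Not at h
    have : b * d ≤ b * a := Nat.mul_le_mul_left _ h
    omega
  · rcases Nat.eq_zero_or_pos c with h | h
    · rw [h, mul_zero] at hc; omega
    · exact h
  · by_contra h
    push Not at h
    have : d * b ≤ d * c := Nat.mul_le_mul_left _ h
    have h5 : b * d = d * b := mul_comm _ _
    omega
  · rw [mul_comm a b, ← ha, mul_comm c d, ← hc]
  · rw [← hm]
  · rw [mul_comm a b, ← ha]
  · have h5 : l * (b * d) = a * c * (b * d) := by
      rw [← hm, hl, ha, hc]
      have : m = b * d := hm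
      ring_nf
      ring_nf at this ⊢
      try rw [this]
      ring
    exact Nat.eq_of_mul_eq_mul_right (Nat.mul_pos hbpos hdpos) h5

theorem sign_eq {v : ℕ} (hv : v % 2 = 1) {s : ℤ} (hs : s = if v % 4 = 3 then -1 else 1) :
    (-1 : ℤ) ^ ((v - 1) / 2) = s := by
  by_cases h : v % 4 = 3
  · rw [hs, if_pos h]
    have : Odd ((v - 1) / 2) := by
      rw [Nat.odd_iff]; omega
    exact this.neg_one_pow
  · rw [hs, if_neg h]
    have : Even ((v - 1) / 2) := by
      rw [Nat.even_iff]; omega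
    exact this.neg_one_pow

/-- the local tests fail -/
theorem design_tests (brc : BrcLocal) {v k l a b c d : ℕ} (hd : IsSymmetricDesign v k l)
    (hk : 2 ≤ k) (hkv : k + 2 ≤ v) (ha : 1 ≤ a) (had : a < d) (hc : 1 ≤ c) (hcb : c < b)
    (h1 : a * b = c * d + 1) (hv : v = b * d + 1) (hk' : k = a * b) (hl : l = a * c)
    {s : ℤ} (hs : s = if v % 4 = 3 then -1 else 1) {p : ℕ} (hp : p.Prime) (hp2 : p ≠ 2) :
    ¬ T1 s p d a b ∧ ¬ T2 s p d a b := by
  haveI : Fact p.Prime := ⟨hp⟩
  have hkl : k - l = a * (b - c) := by rw [hk', hl, Nat.mul_sub]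
  obtain ⟨e, he⟩ : ∃ e, b = c + e := ⟨b - c, by omega⟩
  have hbc : b - c = e := by omega
  obtain ⟨f, hf⟩ : ∃ f, d = a + f := ⟨d - a, by omega⟩
  have hab1 : (a : ℤ) * b = c * d + 1 := by exact_mod_cast h1
  have hde : (d : ℤ) * e = b * (d - a) + 1 := by
    have : (b : ℤ) = c + e := by exact_mod_cast he
    have h2 : (d : ℤ) * e = d * (b - c) := by rw [this]; ring
    rw [h2]; linarith
  constructor
  · rintro ⟨hpd, hpb, hpb2, hns⟩
    rw [← hde] at hpb hpb2
    have hpe : p ∣ e := by
      have h2 : p ∣ d * e := by exact_mod_cast hpb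
      exact (hp.dvd_mul.1 h2).resolve_left hpd
    have hpe2 : ¬ p ^ 2 ∣ e := by
      intro h
      apply hpb2
      have h2 : p ^ 2 ∣ d * e := Dvd.dvd.mul_left h d
      exact_mod_cast h2
    have hpa : ¬ p ∣ a := by
      intro h
      apply hns
      have h2 : ((s * ((a : ℤ) * ((a : ℤ) - d)) : ℤ) : ZMod p) = 0 := by
        have h3 : ((a : ℕ) : ZMod p) = 0 := (ZMod.natCast_eq_zero_iff a p).2 h
        push_cast
        rw [h3]; ring
      rw [h2]
      exact ⟨0, by ring⟩
    have hpc : ¬ p ∣ c := by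
      intro h
      have h2 : p ∣ b := he ▸ Dvd.dvd.add h hpe
      have h3 : p ∣ c * d + 1 := h1 ▸ Dvd.dvd.mul_left h2 a
      have h4 : p ∣ 1 := (Nat.dvd_add_right (Dvd.dvd.mul_right h d)).1 h3
      exact hp.one_lt.ne' (Nat.dvd_one.1 h4)
    obtain ⟨hvo, hsq⟩ := brc hd hk hkv hp hp2 (by
      rw [hkl, hbc]; exact Dvd.dvd.mul_left hpe a) (by
      rw [hkl, hbc]
      intro h
      apply hpe2
      exact (Nat.Coprime.dvd_mul_left ((Nat.Prime.coprime_iff_not_dvd hp).2 hpa |>.pow_left 2)).1 h)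
      (by
        rw [hl]
        intro h
        rcases hp.dvd_mul.1 h with h | h
        · exact hpa h
        · exact hpc h)
    rw [sign_eq hvo hs] at hsq
    apply hns
    obtain ⟨y, hy⟩ := hsq
    have hc0 : ((c : ℕ) : ZMod p) ≠ 0 := fun h => hpc ((ZMod.natCast_eq_zero_iff c p).1 h)
    refine ⟨y / c, ?_⟩
    have he0 : ((e : ℕ) : ZMod p) = 0 := (ZMod.natCast_eq_zero_iff e p).2 hpe
    have hbz : ((b : ℕ) : ZMod p) = c := by
      rw [he]; push_cast; rw [he0, add_zero]
    have h1z : ((a : ℕ) : ZMod p) * b = c * d + 1 := by exact_mod_cast congrArg (Nat.cast (R := ZMod p)) h1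
    rw [hbz] at h1z
    have hkey : ((c : ℕ) : ZMod p) * (a - d) = 1 := by
      linear_combination h1z
    rw [hl] at hy
    push_cast at hy ⊢
    field_simp
    linear_combination hy - (s : ZMod p) * a * c * (-hkey)
  · rintro ⟨hpd, hpa, hpa2, hns⟩
    have hvz : ((v : ℕ) : ZMod p) ≠ 0 := by
      intro h
      apply hns
      have h2 : ((s * ((b : ℤ) * d + 1) : ℤ) : ZMod p) = 0 := by
        rw [hv] at h
        push_cast at h ⊢
        rw [h, mul_zero]
      rw [h2]
      exact ⟨0, by ring⟩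
    have ha0 : ((a : ℕ) : ZMod p) = 0 := (ZMod.natCast_eq_zero_iff a p).2 hpa
    have hdez : ((d : ℕ) : ZMod p) * e = v := by
      have h2 : ((((d : ℤ) * e : ℤ)) : ZMod p) = ((b * (d - a) + 1 : ℤ) : ZMod p) := by rw [hde]
      push_cast at h2
      rw [h2, hv]
      push_cast
      rw [ha0]; ring
    have hpe : ¬ p ∣ e := by
      intro h
      apply hvz
      rw [← hdez, (ZMod.natCast_eq_zero_iff e p).2 h, mul_zero]
    obtain ⟨hle, hd2⟩ := design_compl hd (by omega)
    have hk2 : v - k = d * e := by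
      have h2 : (v : ℤ) - k = d * e := by
        rw [hde, hv, hk']
        push_cast
        ring
      have h3 : k ≤ v := by omega
      zify [h3]
      exact h2
    have hl2 : v + l - 2 * k = e * f := by
      have h2 : (v : ℤ) + l - 2 * k = e * f := by
        rw [hv, hk', hl]
        have h3 : (b : ℤ) = c + e := by exact_mod_cast he
        have h4 : (d : ℤ) = a + f := by exact_mod_cast hf
        push_cast
        rw [h3, h4] at hab1 ⊢
        linarith
      zify [hle]
      exact h2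
    have hn2 : (v - k) - (v + l - 2 * k) = a * e := by
      rw [hk2, hl2, hf]
      have : (a + f) * e = a * e + e * f := by ring
      omega
    obtain ⟨hvo, hsq⟩ := brc hd2 (by omega) (by omega) hp hp2 (by
      rw [hn2]; exact Dvd.dvd.mul_right hpa e) (by
      rw [hn2]
      intro h
      apply hpa2
      exact (Nat.Coprime.dvd_mul_right ((Nat.Prime.coprime_iff_not_dvd hp).2 hpe |>.pow_left 2)).1 h)
      (by
        rw [hl2]
        intro h
        rcases hp.dvd_mul.1 h with h | h
        · exact hpe h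
        · apply hpd
          rw [hf]; exact Dvd.dvd.add hpa h)
    rw [sign_eq hvo hs] at hsq
    apply hns
    obtain ⟨y, hy⟩ := hsq
    refine ⟨y, ?_⟩
    rw [← hy, hl2]
    have hfz : ((f : ℕ) : ZMod p) = d := by
      rw [hf]; push_cast; rw [ha0, zero_add]
    push_cast
    rw [hfz]
    rw [hv] at hdez
    push_cast at hdez
    linear_combination (-(s : ZMod p)) * hdez

theorem quad_of_design_of (brc : BrcLocal) {v k l : ℕ} (hd : IsSymmetricDesign v k l)
    (hk : 2 ≤ k) (hkv : k + 2 ≤ v) :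
    ∃ a b c d : ℕ, 1 ≤ a ∧ a < d ∧ d < b ∧ a * b = c * d + 1 ∧ v = b * d + 1 ∧
      (k = a * b ∨ v - k = a * b) ∧
      ∀ s : ℤ, (s = if v % 4 = 3 then -1 else 1) → ∀ p : ℕ, p.Prime → p ≠ 2 →
        ¬ T1 s p d a b ∧ ¬ T2 s p d a b := by
  obtain ⟨a, b, c, d, ha, had, hc, hcb, h1, hv, hk', hl⟩ := design_param hd hk hkv
  rcases lt_trichotomy d b with hdb | hdb | hdb
  · exact ⟨a, b, c, d, ha, had, hdb, h1, hv, Or.inl hk', fun s hs p hp hp2 =>
      design_tests brc hd hk hkv ha had hc hcb h1 hv hk' hl hs hp hp2⟩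
  · -- `b = d` is impossible
    exfalso
    subst hdb
    have h2 : d ∣ a * d := Dvd.intro_left a rfl
    rw [h1] at h2
    have h3 : d ∣ 1 := (Nat.dvd_add_right (Dvd.intro_left c rfl)).1 h2
    have h4 := Nat.dvd_one.1 h3
    omega
  · obtain ⟨hle, hd2⟩ := design_compl hd (by omega)
    obtain ⟨e, he⟩ : ∃ e, b = c + e := ⟨b - c, by omega⟩
    obtain ⟨f, hf⟩ : ∃ f, d = a + f := ⟨d - a, by omega⟩
    have hab1 : (a : ℤ) * b = c * d + 1 := by exact_mod_cast h1
    have hbz : (b : ℤ) = c + e := by exact_mod_cast he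
    have hdz : (d : ℤ) = a + f := by exact_mod_cast hf
    have hk2 : v - k = e * d := by
      have h2 : (v : ℤ) - k = e * d := by
        rw [hv, hk']
        push_cast
        rw [hbz] at hab1 ⊢
        linarith
      have h3 : k ≤ v := by omega
      zify [h3]
      exact h2
    have hl2 : v + l - 2 * k = e * f := by
      have h2 : (v : ℤ) + l - 2 * k = e * f := by
        rw [hv, hk', hl]
        push_cast
        rw [hbz, hdz] at hab1 ⊢
        linarith
      zify [hle]
      exact h2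
    have h1' : e * d = f * b + 1 := by
      zify
      rw [hbz, hdz] at hab1 ⊢
      linarith
    have hv' : v = d * b + 1 := by rw [hv, mul_comm]
    refine ⟨e, d, f, b, by omega, by omega, hdb, h1', hv', Or.inr hk2,
      fun s hs p hp hp2 =>
      design_tests brc hd2 (by omega) (by omega) (by omega) (by omega) (by omega) (by omega)
        h1' hv' hk2 hl2 hs hp hp2⟩

end Pool.Agent.H177R2.SD
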