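import Pool.Agent.H177R2.SD.Count2
import Pool.Agent.H177R2.SD.QuadAux
import Pool.Agent.H177R2.SD.Quad

/-!
Counting realised parameter triples: total.
-/

set_option autoImplicit false

namespace Pool.Agent.H177R2.SD

open Finset Filter Topology

lemma one_le_loglog {X : ℕ} (hX : 16 ≤ X) : 1 ≤ Real.log (Real.log X) := by
  have h1 : Real.exp 1 ≤ Real.log X := by
    have h2 : Real.log 16 ≤ Real.log X := Real.log_le_log (by norm_num) (by exact_mod_cast hX)
    have h3 : Real.log 16 = 4 * Real.log 2 := by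
      rw [show (16 : ℝ) = 2 ^ 4 by norm_num, Real.log_pow]; norm_num
    have h4 := Real.log_two_gt_d9
    have h5 := Real.exp_one_lt_d9
    linarith
  rw [Real.le_log_iff_exp_le (by have := Real.exp_pos 1; linarith)]
  exact h1

lemma log_M_le {X : ℕ} (hX : 16 ≤ X) :
    Real.log ((Nat.log 2 X + 1 : ℕ) : ℝ) ≤ 2 * Real.log (Real.log X) := by
  have h1 := one_le_loglog hX
  have hlX : (2 : ℝ) < Real.log X := by
    have h2 : Real.log 16 ≤ Real.log X := Real.log_le_log (by norm_num) (by exact_mod_cast hX)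
    have h3 : Real.log 16 = 4 * Real.log 2 := by
      rw [show (16 : ℝ) = 2 ^ 4 by norm_num, Real.log_pow]; norm_num
    have h4 := Real.log_two_gt_d9
    linarith
  have hX0 : (0 : ℝ) < X := by
    have : 0 < X := by omega
    exact_mod_cast this
  have h2 : ((Nat.log 2 X + 1 : ℕ) : ℝ) ≤ 2 * Real.log X := by
    have h3 : (Nat.log 2 X : ℝ) * Real.log 2 ≤ Real.log X := by
      have h4 : 2 ^ Nat.log 2 X ≤ X := Nat.pow_log_le_self 2 (by omega)
      have h5 : Real.log ((2 : ℝ) ^ Nat.log 2 X) ≤ Real.log X :=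
        Real.log_le_log (by positivity) (by exact_mod_cast h4)
      rwa [Real.log_pow] at h5
    have h6 := Real.log_two_gt_d9
    push_cast
    nlinarith [Real.log_two_lt_d9]
  have h3 : Real.log ((Nat.log 2 X + 1 : ℕ) : ℝ) ≤ Real.log (2 * Real.log X) :=
    Real.log_le_log (by positivity) h2
  rw [Real.log_mul (by norm_num) (by linarith)] at h3
  have := Real.log_two_lt_d9
  linarith

lemma sum_F_le (M : ℕ) (hM : 1 ≤ M) (J : Finset ℕ) (hJ : J ⊆ Icc 1 M) :
    ∑ i ∈ J, ((Nat.log 2 i : ℝ) / i) ≤ (Nat.log 2 M : ℝ) * (1 + Real.log M) := by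
  calc ∑ i ∈ J, ((Nat.log 2 i : ℝ) / i) ≤ ∑ i ∈ Icc 1 M, ((Nat.log 2 i : ℝ) / i) :=
        sum_le_sum_of_subset_of_nonneg hJ (fun i _ _ => by positivity)
    _ ≤ ∑ i ∈ Icc 1 M, (Nat.log 2 M : ℝ) * (1 / i) := by
        apply sum_le_sum
        intro i hi
        have h1 : Nat.log 2 i ≤ Nat.log 2 M := Nat.log_mono_right (mem_Icc.1 hi).2
        have h2 : (Nat.log 2 i : ℝ) ≤ Nat.log 2 M := by exact_mod_cast h1
        rw [div_eq_mul_one_div]
        exact mul_le_mul_of_nonneg_right h2 (by positivity)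
    _ = (Nat.log 2 M : ℝ) * ∑ i ∈ Icc 1 M, (1 / (i : ℝ)) := by rw [mul_sum]
    _ ≤ _ := by
        apply mul_le_mul_of_nonneg_left _ (by positivity)
        have h := harmonic_le_one_add_log M
        have e : ((harmonic M : ℚ) : ℝ) = ∑ i ∈ Icc 1 M, (1 / (i : ℝ)) := by
          rw [harmonic_eq_sum_Icc]
          push_cast
          apply sum_congr rfl
          intro i _
          rw [one_div]
        rw [← e]; exact h

lemma total2 : ∃ C : ℝ, 0 < C ∧ ∀ s : ℤ, (s = 1 ∨ s = -1) → ∀ X : ℕ, 16 ≤ X →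
    ∑ j ∈ (range (X + 1)).filter (fun j => 4 ^ j ≤ X), ((GJ s X j).card : ℝ)
      ≤ C * X * (Real.log (Real.log X)) ^ 2 := by
  obtain ⟨C, r0, hC, hr0, hb⟩ := GJ_block
  refine ⟨18 * C + 4 * (2 ^ r0 + (2 ^ r0 + 1)), by positivity, ?_⟩
  intro s hs X hX
  set u := Real.log (Real.log X) with hu
  have hu1 : 1 ≤ u := one_le_loglog hX
  set J := (range (X + 1)).filter (fun j => 4 ^ j ≤ X) with hJ
  set J1 := J.filter (fun j => 2 ^ r0 ≤ ii X j) with hJ1
  set J0 := J.filter (fun j => ¬ 2 ^ r0 ≤ ii X j) with hJ0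
  have hsplit : ∑ j ∈ J, ((GJ s X j).card : ℝ) = ∑ j ∈ J1, ((GJ s X j).card : ℝ) + ∑ j ∈ J0, ((GJ s X j).card : ℝ) := by
    rw [hJ1, hJ0, sum_filter_add_sum_filter_not]
  set L := Nat.log 4 X with hL
  have hjL : ∀ j ∈ J, j ≤ L := by
    intro j hj
    rw [hJ, mem_filter] at hj
    exact Nat.le_log_of_pow_le (by norm_num) hj.2
  set M := Nat.log 2 X + 1 with hM
  have hLM : L ≤ M := by
    have : Nat.log 4 X ≤ Nat.log 2 X := Nat.log_anti_left (by norm_num) (by norm_num)
    omega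
  have hLLM : ∀ j, LL X j ≤ M := by
    intro j
    have h1 : TT X j ≤ X + 1 := by
      unfold TT
      have := Nat.div_le_self X (4 ^ j)
      omega
    have h2 : LL X j ≤ Nat.log 2 (X + 1) := Nat.log_mono_right h1
    have h3 : Nat.log 2 (X + 1) ≤ Nat.log 2 (X * 2) := Nat.log_mono_right (by omega)
    rw [Nat.log_mul_base (by norm_num) (by omega)] at h3
    omega
  have hr01 : 2 ≤ 2 ^ r0 := by
    calc 2 = 2 ^ 1 := by norm_num
      _ ≤ 2 ^ r0 := Nat.pow_le_pow_right (by norm_num) hr0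
  have hMu : (Nat.log 2 M : ℝ) * (1 + Real.log M) ≤ 9 * u ^ 2 := by
    have h1 := log_M_le hX
    rw [← hM, ← hu] at h1
    have h2 : (Nat.log 2 M : ℝ) * Real.log 2 ≤ Real.log M := by
      have h4 : 2 ^ Nat.log 2 M ≤ M := Nat.pow_log_le_self 2 (by omega)
      have h5 : Real.log ((2 : ℝ) ^ Nat.log 2 M) ≤ Real.log M :=
        Real.log_le_log (by positivity) (by exact_mod_cast h4)
      rwa [Real.log_pow] at h5
    have h3 := Real.log_two_gt_d9
    have h4 : (Nat.log 2 M : ℝ) ≤ 3 * u := by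
      have : (0 : ℝ) ≤ Nat.log 2 M := by positivity
      nlinarith
    have h5 : 1 + Real.log M ≤ 3 * u := by linarith
    have h6 : 0 ≤ 1 + Real.log M := by
      have : 0 ≤ Real.log M := Real.log_natCast_nonneg M
      linarith
    calc _ ≤ (3 * u) * (3 * u) := mul_le_mul h4 h5 h6 (by linarith)
      _ = _ := by ring
  have hM1 : 1 ≤ M := by omega
  -- part 1
  have p1 : ∑ j ∈ J1, ((GJ s X j).card : ℝ) ≤ 18 * C * X * u ^ 2 := by
    have h1 : ∀ j ∈ J1, ((GJ s X j).card : ℝ) ≤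
        C * X * ((Nat.log 2 j : ℝ) / j) + C * X * ((Nat.log 2 (LL X j) : ℝ) / (LL X j : ℝ)) := by
      intro j hj
      rw [hJ1, mem_filter, hJ, mem_filter] at hj
      have h2 := hb s hs X j hj.2 hj.1.2
      have h3 : ii X j = j ∨ ii X j = LL X j := by unfold ii; exact min_choice _ _
      have ha : 0 ≤ C * X * ((Nat.log 2 j : ℝ) / j) := by positivity
      have hb' : 0 ≤ C * X * ((Nat.log 2 (LL X j) : ℝ) / (LL X j : ℝ)) := by positivity
      rcases h3 with h3 | h3
      · rw [h3] at h2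
        calc _ ≤ C * ((Nat.log 2 j : ℝ) / j) * X := h2
          _ = C * X * ((Nat.log 2 j : ℝ) / j) := by ring
          _ ≤ _ := by linarith
      · rw [h3] at h2
        calc _ ≤ C * ((Nat.log 2 (LL X j) : ℝ) / (LL X j : ℝ)) * X := h2
          _ = C * X * ((Nat.log 2 (LL X j) : ℝ) / (LL X j : ℝ)) := by ring
          _ ≤ _ := by linarith
    have h2 : ∑ j ∈ J1, ((Nat.log 2 j : ℝ) / j) ≤ 9 * u ^ 2 := by
      refine (sum_F_le M hM1 J1 ?_).trans hMu
      intro j hj
      rw [hJ1, mem_filter] at hj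
      rw [mem_Icc]
      have h3 : ii X j ≤ j := min_le_left _ _
      exact ⟨by omega, (hjL j hj.1).trans hLM⟩
    have h3 : ∑ j ∈ J1, ((Nat.log 2 (LL X j) : ℝ) / (LL X j : ℝ)) ≤ 9 * u ^ 2 := by
      have hinj : Set.InjOn (LL X) J1 := by
        intro j hj j' hj' e
        rw [mem_coe, hJ1, mem_filter] at hj hj'
        have a1 : 2 ≤ LL X j := hr01.trans (hj.2.trans (min_le_right _ _))
        have a2 : 2 ≤ LL X j' := hr01.trans (hj'.2.trans (min_le_right _ _))
        exact LL_inj a1 a2 e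
      have e : ∑ j ∈ J1, ((Nat.log 2 (LL X j) : ℝ) / (LL X j : ℝ))
          = ∑ i ∈ J1.image (LL X), ((Nat.log 2 i : ℝ) / (i : ℝ)) := by
        rw [sum_image hinj]
      rw [e]
      refine (sum_F_le M hM1 _ ?_).trans hMu
      intro i hi
      obtain ⟨j, hj, rfl⟩ := mem_image.1 hi
      rw [hJ1, mem_filter] at hj
      rw [mem_Icc]
      have h3 : ii X j ≤ LL X j := min_le_right _ _
      exact ⟨by omega, hLLM j⟩
    calc ∑ j ∈ J1, ((GJ s X j).card : ℝ)
        ≤ ∑ j ∈ J1, (C * X * ((Nat.log 2 j : ℝ) / j) + C * X * ((Nat.log 2 (LL X j) : ℝ) / (LL X j : ℝ))) :=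
          sum_le_sum h1
      _ = C * X * (∑ j ∈ J1, ((Nat.log 2 j : ℝ) / j) + ∑ j ∈ J1, ((Nat.log 2 (LL X j) : ℝ) / (LL X j : ℝ))) := by
          rw [sum_add_distrib, ← mul_sum, ← mul_sum]; ring
      _ ≤ C * X * (9 * u ^ 2 + 9 * u ^ 2) := by
          apply mul_le_mul_of_nonneg_left _ (by positivity)
          linarith
      _ = _ := by ring
  -- part 2
  have hcard0 : (J0.card : ℝ) ≤ 2 ^ r0 + (2 ^ r0 + 1) := by
    have hsub : J0 ⊆ range (2 ^ r0) ∪ Icc (L - 2 ^ r0) L := by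
      intro j hj
      rw [hJ0, mem_filter] at hj
      rw [mem_union, mem_range, mem_Icc]
      by_cases h1 : j < 2 ^ r0
      · exact Or.inl h1
      · right
        refine ⟨?_, hjL j hj.1⟩
        have h2 : LL X j < 2 ^ r0 := by
          by_contra h3
          exact hj.2 (le_min (by omega) (by omega))
        rw [hJ, mem_filter] at hj
        have h4 := hj.1.2
        have h5 : TT X j < 2 ^ 2 ^ r0 := Nat.lt_pow_of_log_lt (by norm_num) h2
        have h6 : X / 4 ^ j < 2 ^ 2 ^ r0 := by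
          unfold TT at h5
          exact lt_of_lt_of_le (Nat.lt_succ_self _) h5.le
        have h7 : X < 2 ^ 2 ^ r0 * 4 ^ j := by
          rwa [Nat.div_lt_iff_lt_mul (by positivity)] at h6
        have h8 : 4 ^ L ≤ X := Nat.pow_log_le_self 4 (by omega)
        have h9 : 4 ^ L < 4 ^ (2 ^ r0 + j) := by
          calc 4 ^ L ≤ X := h8
            _ < 2 ^ 2 ^ r0 * 4 ^ j := h7
            _ ≤ 4 ^ 2 ^ r0 * 4 ^ j := Nat.mul_le_mul_right _ (Nat.pow_le_pow_left (by norm_num) _)
            _ = 4 ^ (2 ^ r0 + j) := by rw [pow_add]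
        have h10 := (Nat.pow_lt_pow_iff_right (by norm_num)).1 h9
        have h11 : 0 < 2 ^ r0 := by positivity
        omega
    have h1 := (card_le_card hsub).trans (card_union_le _ _)
    rw [card_range, Nat.card_Icc] at h1
    have h2 : 0 < 2 ^ r0 := by positivity
    have h3 : J0.card ≤ 2 ^ r0 + (2 ^ r0 + 1) := by omega
    exact_mod_cast h3
  have p2 : ∑ j ∈ J0, ((GJ s X j).card : ℝ) ≤ 4 * (2 ^ r0 + (2 ^ r0 + 1)) * X * u ^ 2 := by
    calc ∑ j ∈ J0, ((GJ s X j).card : ℝ) ≤ ∑ j ∈ J0, 4 * (X : ℝ) := by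
          apply sum_le_sum
          intro j hj
          rw [hJ0, mem_filter, hJ, mem_filter] at hj
          exact GJ_trivial s hj.1.2
      _ = J0.card * (4 * (X : ℝ)) := by rw [sum_const, nsmul_eq_mul]
      _ ≤ (2 ^ r0 + (2 ^ r0 + 1)) * (4 * (X : ℝ)) := mul_le_mul_of_nonneg_right hcard0 (by positivity)
      _ = 4 * (2 ^ r0 + (2 ^ r0 + 1)) * X * 1 := by ring
      _ ≤ _ := by
          apply mul_le_mul_of_nonneg_left _ (by positivity)
          nlinarith
  rw [hsplit]
  calc _ ≤ 18 * C * X * u ^ 2 + 4 * (2 ^ r0 + (2 ^ r0 + 1)) * X * u ^ 2 := add_le_add p1 p2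
    _ = _ := by ring

/-- the value of `l` for given `v`, `k` -/
def lam (v k : ℕ) : ℕ := k * (k - 1) / (v - 1)

lemma lam_eq {v k l : ℕ} (hd : IsSymmetricDesign v k l) (hv : 2 ≤ v) : l = lam v k := by
  obtain ⟨B, -, -, -, h⟩ := design_count hd
  unfold lam
  rw [← h, Nat.mul_div_cancel _ (by omega)]

/-- triple with `k = a b` attached to a pair `(d, b)` -/
noncomputable def t1 (y : ℕ × ℕ) : ℕ × ℕ × ℕ :=
  (y.2 * y.1 + 1, b0 y.1 y.2 * y.2, lam (y.2 * y.1 + 1) (b0 y.1 y.2 * y.2))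

/-- triple with `v - k = a b` attached to a pair `(d, b)` -/
noncomputable def t2 (y : ℕ × ℕ) : ℕ × ℕ × ℕ :=
  (y.2 * y.1 + 1, y.2 * y.1 + 1 - b0 y.1 y.2 * y.2,
    lam (y.2 * y.1 + 1) (y.2 * y.1 + 1 - b0 y.1 y.2 * y.2))

/-- all pairs passing the tests for the sign `s` -/
noncomputable def PA (s : ℤ) (N : ℕ) : Finset (ℕ × ℕ) :=
  ((range (N + 1)).filter (fun j => 4 ^ j ≤ N)).biUnion fun j => GJ s N j

lemma realised_subset (N : ℕ) : Realised N ⊆
    ((Icc 1 N).image fun v => (v, v - 1, lam v (v - 1))) ∪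
    (((PA 1 N ∪ PA (-1) N).image t1) ∪ ((PA 1 N ∪ PA (-1) N).image t2)) := by
  classical
  rintro ⟨v, k, l⟩ hx
  simp only [Realised, mem_filter, mem_product, mem_Icc] at hx
  obtain ⟨⟨⟨hv1, hvN⟩, ⟨hk1, hkN⟩, ⟨hl1, hlN⟩⟩, hd⟩ := hx
  have hkv : k < v := hd.1
  have hv2 : 2 ≤ v := by omega
  have hl := lam_eq hd hv2
  by_cases hk : k = v - 1
  · rw [mem_union]
    left
    rw [mem_image]
    exact ⟨v, mem_Icc.2 ⟨hv1, hvN⟩, by rw [← hk, ← hl]⟩
  · have hk2 : 2 ≤ k := by
      by_contra h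
      have hk1' : k = 1 := by omega
      obtain ⟨B, -, -, -, h2⟩ := design_count hd
      rw [hk1'] at h2
      simp only [le_refl, tsub_eq_zero_of_le, mul_zero] at h2
      rcases Nat.mul_eq_zero.1 h2 with h3 | h3 <;> omega
    obtain ⟨a, b, c, d, ha, had, hdb, hab, hv, hkab, htests⟩ := quad_of_design hd hk2 (by omega)
    have hab0 : a = b0 d b := by
      have h1 : b * a ≡ 1 [MOD d] := by
        rw [mul_comm, hab]
        have : c * d + 1 = 1 + d * c := by ring
        rw [this]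
        exact Nat.ModEq.trans (by simp [Nat.ModEq]) (Nat.ModEq.refl 1)
      rw [← b0_spec h1, Nat.mod_eq_of_lt had]
    have hpair : (d, b) ∈ PA 1 N ∪ PA (-1) N := by
      have hs : ∀ s : ℤ, (s = if v % 4 = 3 then -1 else 1) → (d, b) ∈ PA s N := by
        intro s hs
        have hdpos : 2 ≤ d := by omega
        set j := Nat.log 2 (d - 1) with hj
        have hd1 : 2 ^ j < d := by
          have := Nat.pow_log_le_self 2 (show d - 1 ≠ 0 by omega)
          rw [← hj] at this; omega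
        have hd2 : d ≤ 2 ^ (j + 1) := by
          have := Nat.lt_pow_succ_log_self (show 1 < 2 by norm_num) (d - 1)
          rw [← hj] at this
          have e : j.succ = j + 1 := rfl
          omega
        have h4j : 4 ^ j ≤ N := by
          calc 4 ^ j = 2 ^ j * 2 ^ j := by rw [← mul_pow]; norm_num
            _ ≤ b * d := Nat.mul_le_mul (by omega) hd1.le
            _ ≤ N := by omega
        have hjN : j ≤ N := by
          have h1 : j < 4 ^ j := Nat.lt_pow_self (by norm_num)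
          omega
        have hbN : b ≤ N := by
          have : b * 1 ≤ b * d := Nat.mul_le_mul_left _ (by omega)
          omega
        unfold PA
        rw [mem_biUnion]
        refine ⟨j, ?_, ?_⟩
        · rw [mem_filter, mem_range]; exact ⟨by omega, h4j⟩
        · simp only [GJ, mem_filter, mem_product, mem_Icc]
          exact ⟨⟨⟨by omega, by omega⟩, ⟨by omega, hbN⟩⟩, by omega, hd1, hd2, a, c, ha, had, hdb, hab,
            htests s hs⟩
      by_cases h3 : v % 4 = 3
      · rw [mem_union]; right; exact hs (-1) (by rw [if_pos h3])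
      · rw [mem_union]; left; exact hs 1 (by rw [if_neg h3])
    rw [mem_union]
    right
    rw [mem_union]
    rcases hkab with h1 | h1
    · left
      rw [mem_image]
      refine ⟨(d, b), hpair, ?_⟩
      unfold t1
      simp only
      rw [← hab0, ← hv, ← h1, ← hl]
    · right
      rw [mem_image]
      refine ⟨(d, b), hpair, ?_⟩
      unfold t2
      simp only
      have h2 : v - a * b = k := by omega
      rw [← hab0, ← hv, h2, ← hl]

lemma realised_upper : ∃ C : ℝ, 0 < C ∧ ∀ N : ℕ, 16 ≤ N →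
    ((Realised N).card : ℝ) ≤ C * N * (Real.log (Real.log N)) ^ 2 := by
  classical
  obtain ⟨C, hC, h⟩ := total2
  refine ⟨1 + 4 * C, by positivity, ?_⟩
  intro N hN
  have hu := one_le_loglog hN
  have hPA : ∀ s : ℤ, (s = 1 ∨ s = -1) → ((PA s N).card : ℝ) ≤ C * N * (Real.log (Real.log N)) ^ 2 := by
    intro s hs
    refine le_trans ?_ (h s hs N hN)
    unfold PA
    have := card_biUnion_le (s := (range (N + 1)).filter (fun j => 4 ^ j ≤ N)) (t := fun j => GJ s N j)
    exact_mod_cast this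
  have h1 := hPA 1 (Or.inl rfl)
  have h2 := hPA (-1) (Or.inr rfl)
  have hc : (Realised N).card ≤ N + 2 * ((PA 1 N).card + (PA (-1) N).card) := by
    refine (card_le_card (realised_subset N)).trans ?_
    have a1 := card_union_le ((Icc 1 N).image fun v => (v, v - 1, lam v (v - 1)))
      (((PA 1 N ∪ PA (-1) N).image t1) ∪ ((PA 1 N ∪ PA (-1) N).image t2))
    have a2 := card_union_le ((PA 1 N ∪ PA (-1) N).image t1) ((PA 1 N ∪ PA (-1) N).image t2)
    have a3 : ((Icc 1 N).image fun v => (v, v - 1, lam v (v - 1))).card ≤ N := by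
      refine card_image_le.trans ?_
      rw [Nat.card_Icc]; omega
    have a4 : ((PA 1 N ∪ PA (-1) N).image t1).card ≤ (PA 1 N ∪ PA (-1) N).card := card_image_le
    have a5 : ((PA 1 N ∪ PA (-1) N).image t2).card ≤ (PA 1 N ∪ PA (-1) N).card := card_image_le
    have a6 := card_union_le (PA 1 N) (PA (-1) N)
    omega
  have hc' : ((Realised N).card : ℝ) ≤ N + 2 * (((PA 1 N).card : ℝ) + ((PA (-1) N).card : ℝ)) := by
    exact_mod_cast hc
  have h3 : (N : ℝ) ≤ N * (Real.log (Real.log N)) ^ 2 := by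
    have : (1 : ℝ) ≤ (Real.log (Real.log N)) ^ 2 := by nlinarith
    nlinarith [(Nat.cast_nonneg N : (0 : ℝ) ≤ N)]
  calc _ ≤ N + 2 * (((PA 1 N).card : ℝ) + ((PA (-1) N).card : ℝ)) := hc'
    _ ≤ N * (Real.log (Real.log N)) ^ 2 + 2 * (C * N * (Real.log (Real.log N)) ^ 2
        + C * N * (Real.log (Real.log N)) ^ 2) := by linarith
    _ = _ := by ring

end Pool.Agent.H177R2.SD
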